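import Pool.Agent.S4.Defs

/-! # The basis functions -/

namespace Pool.Agent.S4

open Pool.Agent.H63.VC7 Pool.Agent.H63.VC8 Pool.Agent.H63.VC11 Pool.Agent.H63.VC12

private theorem B_LE_br_zero (q : ℂ) : br q 0 = 0 := by
  unfold br; simp

theorem B_LE_lt {q : ℂ} {k j : ℕ} (h : j < k) : LE q k j = 0 := by
  unfold LE
  rw [qb_lt q j k h, zero_mul]

private theorem B_LE_rec {N : ℕ} {q : ℂ} (hq : q ≠ 0)
    (hb : ∀ k : ℕ, 1 ≤ k → k ≤ 2 * N → br q k ≠ 0) {k j : ℕ}
    (hk : k + 1 ≤ N) (hj : j ≤ N) :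
    LE q (k + 1) j * br q ((k : ℤ) + 1) ^ 2 = LE q k j * (br q ((j : ℤ) - k) *
      br q ((j : ℤ) + k + 1)) := by
  rcases Nat.lt_trichotomy j k with h | rfl | h
  · rw [B_LE_lt (show j < k + 1 by omega), B_LE_lt h, zero_mul, zero_mul]
  · rw [B_LE_lt (show j < j + 1 by omega), sub_self, B_LE_br_zero]
    ring
  · have h1 : br q 1 ≠ 0 := by simpa using hb 1 le_rfl (by omega)
    have hqn : ∀ a : ℕ, 1 ≤ a → a ≤ 2 * N → qn q (a : ℤ) ≠ 0 := fun a ha ha' =>
      div_ne_zero (hb a ha ha') h1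
    have hqf : ∀ a : ℕ, a ≤ 2 * N → qf q a ≠ 0 := by
      intro a ha
      unfold qf
      rw [Finset.prod_ne_zero_iff]
      intro i hi
      have := Finset.mem_range.1 hi
      have h2 := hqn (i + 1) (by omega) (by omega)
      push_cast at h2
      exact h2
    obtain ⟨d, rfl⟩ : ∃ d, j = k + 1 + d := ⟨j - (k + 1), by omega⟩
    have e1 := qb_fac q hq (k + 1 + d) (k + 1) (by omega)
    have e2 := qb_fac q hq (k + 1 + d) k (by omega)
    have e3 := qb_fac q hq (k + 1 + d + (k + 1)) (k + 1) (by omega)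
    have e4 := qb_fac q hq (k + 1 + d + k) k (by omega)
    rw [show k + 1 + d - (k + 1) = d by omega] at e1
    rw [show k + 1 + d - k = d + 1 by omega] at e2
    rw [show k + 1 + d + (k + 1) - (k + 1) = k + 1 + d by omega] at e3
    rw [show k + 1 + d + k - k = k + 1 + d by omega] at e4
    rw [show k + 1 + d + (k + 1) = k + 1 + d + k + 1 by omega] at e3
    have f1 := qf_succ q k
    have f2 := qf_succ q d
    have f3 := qf_succ q (k + 1 + d + k)
    have c1 : ((k + 1 + d : ℕ) : ℤ) - k = (d : ℤ) + 1 := by push_cast; ring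
    have c2 : ((k + 1 + d : ℕ) : ℤ) + k + 1 = ((k + 1 + d + k : ℕ) : ℤ) + 1 := by push_cast; ring
    rw [c1, c2]
    have n1 := hqf k (by omega)
    have n2 := hqf d (by omega)
    have n3 := hqf (k + 1 + d) (by omega)
    have n4 := hqf (k + 1 + d + k) (by omega)
    have key : LE q (k + 1) (k + 1 + d) * qn q ((k : ℤ) + 1) ^ 2 =
        LE q k (k + 1 + d) * (qn q ((d : ℤ) + 1) * qn q (((k + 1 + d + k : ℕ) : ℤ) + 1)) := by
      unfold LE
      rw [f1] at e1 e3
      rw [f2] at e2
      rw [f3] at e3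
      rw [show k + 1 + d + (k + 1) = k + 1 + d + k + 1 by omega]
      apply mul_right_cancel₀ (mul_ne_zero (mul_ne_zero (pow_ne_zero 2 n1) n2) n3)
      calc qb q (k + 1 + d) (k + 1) * qb q (k + 1 + d + k + 1) (k + 1) * qn q ((k : ℤ) + 1) ^ 2 *
            (qf q k ^ 2 * qf q d * qf q (k + 1 + d))
          = (qb q (k + 1 + d) (k + 1) * (qf q k * qn q ((k : ℤ) + 1) * qf q d)) *
            (qb q (k + 1 + d + k + 1) (k + 1) * (qf q k * qn q ((k : ℤ) + 1) *
              qf q (k + 1 + d))) := by ring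
        _ = (qb q (k + 1 + d) k * (qf q k * (qf q d * qn q ((d : ℤ) + 1)))) *
            ((qb q (k + 1 + d + k) k * (qf q k * qf q (k + 1 + d))) *
              qn q (((k + 1 + d + k : ℕ) : ℤ) + 1)) := by rw [e1, e3, e2, e4]
        _ = _ := by ring
    have hbq : ∀ a : ℤ, br q a = qn q a * br q 1 := fun a => by
      unfold qn
      rw [div_mul_cancel₀ _ h1]
    rw [hbq ((k : ℤ) + 1), hbq ((d : ℤ) + 1), hbq (((k + 1 + d + k : ℕ) : ℤ) + 1)]
    linear_combination br q 1 ^ 2 * key

theorem LE_prod {N : ℕ} {q : ℂ} (hq : q ≠ 0) (hb : ∀ k : ℕ, 1 ≤ k → k ≤ 2 * N → br q k ≠ 0) {k j : ℕ}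
    (hk : k ≤ N) (hj : j ≤ N) : LE q k j = ∏ i ∈ Finset.range k,
      (br q ((j : ℤ) - i) * br q ((j : ℤ) + i + 1) / br q ((i : ℤ) + 1) ^ 2) := by
  induction k with
  | zero => simp [LE, qb_zero_right]
  | succ k ih =>
    rw [Finset.prod_range_succ, ← ih (by omega)]
    have h1 : br q ((k : ℤ) + 1) ≠ 0 := by
      have := hb (k + 1) (by omega) (by omega)
      push_cast at this
      exact this
    rw [mul_div_assoc', eq_div_iff (pow_ne_zero 2 h1)]
    exact B_LE_rec hq hb hk hj

theorem LE_lt {q : ℂ} {k j : ℕ} (h : j < k) : LE q k j = 0 := B_LE_lt h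

private theorem B_LE_gen {n N : ℕ} {q : ℂ} (hg : Gen q n N) :
    ∀ k : ℕ, 1 ≤ k → k ≤ 2 * N → br q k ≠ 0 := fun k h1 h2 => hg.2 k h1 (by omega)

theorem LE_self {n N : ℕ} {q : ℂ} (hg : Gen q n N) {k : ℕ} (hk : k ≤ N) : LE q k k ≠ 0 := by
  rw [LE_prod hg.1 (B_LE_gen hg) hk hk, Finset.prod_ne_zero_iff]
  intro i hi
  have hi := Finset.mem_range.1 hi
  have h1 : br q ((k : ℤ) - i) ≠ 0 := hg.br_ne (by omega) (by omega)
  have h2 : br q ((k : ℤ) + i + 1) ≠ 0 := hg.br_ne (by omega) (by omega)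
  have h3 : br q ((i : ℤ) + 1) ≠ 0 := hg.br_ne (by omega) (by omega)
  exact div_ne_zero (mul_ne_zero h1 h2) (pow_ne_zero 2 h3)

private theorem B_LE_br_mul {q : ℂ} (hq : q ≠ 0) (a b : ℤ) :
    br q a * br q b = q ^ (a + b) + q ^ (-(a + b)) - q ^ (a - b) - q ^ (b - a) := by
  unfold br
  rw [sub_mul, mul_sub, mul_sub, ← zpow_add₀ hq, ← zpow_add₀ hq, ← zpow_add₀ hq, ← zpow_add₀ hq,
    show -a + -b = -(a + b) by ring, show a + -b = a - b by ring, show -a + b = b - a by ring]
  ring

/-- Multiplication with a function of the channel. -/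
theorem LE_mul {n N : ℕ} {q : ℂ} (hg : Gen q n N) (A : ℤ) {k j : ℕ} (hk : k + 1 ≤ N) (hj : j ≤ N) :
    br q (A + j) * br q (A - 1 - j) * LE q k j =
      br q (A - 1 - k) * br q (A + k) * LE q k j - br q ((k : ℤ) + 1) ^ 2 * LE q (k + 1) j := by
  have h1 := B_LE_rec hg.1 (B_LE_gen hg) hk hj
  have h2 : br q (A + j) * br q (A - 1 - j) = br q (A - 1 - k) * br q (A + k) -
      br q ((j : ℤ) - k) * br q ((j : ℤ) + k + 1) := by
    rw [B_LE_br_mul hg.1, B_LE_br_mul hg.1, B_LE_br_mul hg.1,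
      show A + (j : ℤ) + (A - 1 - j) = 2 * A - 1 by ring,
      show A + (j : ℤ) - (A - 1 - j) = 2 * j + 1 by ring,
      show A - 1 - (j : ℤ) - (A + j) = -(2 * j + 1) by ring,
      show A - 1 - (k : ℤ) + (A + k) = 2 * A - 1 by ring,
      show A - 1 - (k : ℤ) - (A + k) = -(2 * k + 1) by ring,
      show A + (k : ℤ) - (A - 1 - k) = 2 * k + 1 by ring,
      show (j : ℤ) - k + (j + k + 1) = 2 * j + 1 by ring,
      show (j : ℤ) - k - (j + k + 1) = -(2 * k + 1) by ring,
      show (j : ℤ) + k + 1 - (j - k) = 2 * k + 1 by ring]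
    ring
  rw [h2]
  linear_combination h1

/-- Every function of the channels is a combination of the basis functions. -/
theorem le_span {n N : ℕ} {q : ℂ} (hg : Gen q n N) (f : ℕ → ℂ) :
    ∃ c : ℕ → ℂ, ∀ j ≤ N, f j = ∑ k ∈ Finset.range (N + 1), c k * LE q k j := by
  have main : ∀ M ≤ N, ∃ c : ℕ → ℂ, ∀ j ≤ M, f j = ∑ k ∈ Finset.range (M + 1), c k * LE q k j := by
    intro M
    induction M with
    | zero =>
      intro _
      refine ⟨fun _ => f 0, fun j hj => ?_⟩
      obtain rfl : j = 0 := by omega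
      simp [LE, qb_zero_right]
    | succ M ih =>
      intro hM
      obtain ⟨c, hc⟩ := ih (by omega)
      refine ⟨fun k => if k = M + 1 then
        (f (M + 1) - ∑ k ∈ Finset.range (M + 1), c k * LE q k (M + 1)) / LE q (M + 1) (M + 1)
        else c k, fun j hj => ?_⟩
      rw [Finset.sum_range_succ]
      beta_reduce
      rw [if_pos rfl]
      have h1 : ∑ k ∈ Finset.range (M + 1), (if k = M + 1 then
          (f (M + 1) - ∑ k ∈ Finset.range (M + 1), c k * LE q k (M + 1)) / LE q (M + 1) (M + 1)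
          else c k) * LE q k j = ∑ k ∈ Finset.range (M + 1), c k * LE q k j := by
        refine Finset.sum_congr rfl fun k hk => ?_
        rw [if_neg (by have := Finset.mem_range.1 hk; omega)]
      rw [h1]
      rcases Nat.lt_or_ge j (M + 1) with h | h
      · rw [LE_lt h, mul_zero, add_zero]
        exact hc j (by omega)
      · obtain rfl : j = M + 1 := by omega
        rw [div_mul_cancel₀ _ (LE_self hg hM)]
        ring
  exact main N le_rfl

/-- The slot factors as combinations of the basis functions, with the leading coefficient. -/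
theorem ps_LE {n N : ℕ} {q : ℂ} (hg : Gen q n N) (a : ℤ) {t : ℕ} (ht : t ≤ N) :
    ∃ c : ℕ → ℂ, (∀ k, t < k → c k = 0) ∧
      c t = (-1) ^ t * ∏ i ∈ Finset.range t, br q ((i : ℤ) + 1) ^ 2 ∧
      ∀ j ≤ N, ps q a t j = ∑ k ∈ Finset.range (N + 1), c k * LE q k j := by
  induction t with
  | zero =>
    refine ⟨fun k => if k = 0 then 1 else 0, fun k hk => if_neg (by omega), by simp, fun j _ => ?_⟩
    rw [Finset.sum_eq_single 0]
    · simp [ps, LE, qb_zero_right]
    · intro k _ hk
      beta_reduce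
      rw [if_neg hk, zero_mul]
    · intro h
      exact absurd (Finset.mem_range.2 (Nat.succ_pos N)) h
  | succ t ih =>
    obtain ⟨c, hc0, hct, hc⟩ := ih (by omega)
    set A : ℤ := a + t with hA
    refine ⟨fun k => br q (A - 1 - k) * br q (A + k) * c k -
      (if k = 0 then 0 else br q (k : ℤ) ^ 2 * c (k - 1)), ?_, ?_, ?_⟩
    · intro k hk
      show br q (A - 1 - k) * br q (A + k) * c k -
        (if k = 0 then 0 else br q (k : ℤ) ^ 2 * c (k - 1)) = 0
      rw [hc0 k (by omega), if_neg (by omega), hc0 (k - 1) (by omega)]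
      ring
    · show br q (A - 1 - ((t + 1 : ℕ) : ℤ)) * br q (A + ((t + 1 : ℕ) : ℤ)) * c (t + 1) -
        (if t + 1 = 0 then 0 else br q ((t + 1 : ℕ) : ℤ) ^ 2 * c (t + 1 - 1)) = _
      rw [hc0 (t + 1) (by omega), if_neg (by omega), Nat.add_sub_cancel, hct,
        Finset.prod_range_succ, pow_succ]
      push_cast
      ring
    · intro j hj
      have h1 : ps q a (t + 1) j = ps q a t j * (br q (A + j) * br q (A - 1 - j)) := by
        unfold ps
        rw [Finset.prod_range_succ, hA]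
        congr 2
        · congr 1; ring
        · congr 1; ring
      rw [h1, hc j hj, Finset.sum_mul]
      have h2 : ∀ k ∈ Finset.range (N + 1), c k * LE q k j * (br q (A + j) * br q (A - 1 - j)) =
          br q (A - 1 - k) * br q (A + k) * c k * LE q k j -
            br q ((k : ℤ) + 1) ^ 2 * c k * LE q (k + 1) j := by
        intro k hk
        have hk' := Finset.mem_range.1 hk
        rcases Nat.lt_or_ge k N with h | h
        · linear_combination c k * LE_mul hg A (k := k) (by omega) hj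
        · rw [hc0 k (by omega)]
          ring
      rw [Finset.sum_congr rfl h2, Finset.sum_sub_distrib]
      have h3 : ∑ k ∈ Finset.range (N + 1), br q ((k : ℤ) + 1) ^ 2 * c k * LE q (k + 1) j =
          ∑ k ∈ Finset.range (N + 1),
            (if k = 0 then 0 else br q (k : ℤ) ^ 2 * c (k - 1)) * LE q k j := by
        rw [Finset.sum_range_succ, Finset.sum_range_succ', hc0 N (by omega)]
        simp
      rw [h3, ← Finset.sum_sub_distrib]
      refine Finset.sum_congr rfl fun k _ => ?_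
      ring

end Pool.Agent.S4
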