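import Pool.Agent.S4.Defs

/-! # Half twists of parallel strands -/

namespace Pool.Agent.S4

open Pool.Agent.H63.VC7 Pool.Agent.H63.VC8 Pool.Agent.H63.VC11 Pool.Agent.H63.VC12

private theorem qf_ne' {n N : ℕ} {q : ℂ} (hg : Gen q n N) {i : ℕ} (hi : i ≤ 2 * N) :
    qf q i ≠ 0 := by
  rcases Nat.eq_zero_or_pos i with rfl | hi0
  · rw [qf_zero]; exact one_ne_zero
  · have h1 : br q 1 ≠ 0 := by
      have := hg.2 1 le_rfl (by omega)
      simpa using this
    unfold qf
    refine Finset.prod_ne_zero_iff.2 fun r hr => ?_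
    rw [Finset.mem_range] at hr
    have h2 := hg.2 (r + 1) (by omega) (by omega)
    push_cast at h2
    exact div_ne_zero h2 h1

/-- The two recursions. -/
private theorem qb_pas {n N : ℕ} {q : ℂ} (hg : Gen q n N) {δ : ℤ} (hδ : δ = 1 ∨ δ = -1) {m k : ℕ}
    (hm : m + 1 ≤ 2 * N) :
    qb q (m + 1) (k + 1) = q ^ (δ * ((k : ℤ) + 1)) * qb q m (k + 1) +
      q ^ (-δ * ((m : ℤ) - k)) * qb q m k := by
  rcases hδ with rfl | rfl
  · have : qb q (m + 1) (k + 1) =
      q ^ ((k : ℤ) + 1) * qb q m (k + 1) + q ^ (-((m : ℤ) - k)) * qb q m k := rfl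
    rw [this]
    congr 3 <;> ring
  · have h1 : br q 1 ≠ 0 := by
      have := hg.2 1 le_rfl (by omega)
      simpa using this
    rw [qb_succ' q hg.1 h1 m k (fun j hj => qf_ne' hg (by omega))]
    congr 3 <;> ring

private theorem sum_pas {n N : ℕ} {q : ℂ} (hg : Gen q n N) {δ : ℤ} (hδ : δ = 1 ∨ δ = -1) {M : ℕ}
    (hM : M + 1 ≤ 2 * N) (g : ℕ → ℂ) :
    ∑ m ∈ Finset.range (M + 2), g m * qb q (M + 1) m =
      ∑ m ∈ Finset.range (M + 1), qb q M m *
        (q ^ (δ * (m : ℤ)) * g m + q ^ (-δ * ((M : ℤ) - m)) * g (m + 1)) := by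
  rw [Finset.sum_range_succ' _ (M + 1)]
  have e1 : ∀ m ∈ Finset.range (M + 1), g (m + 1) * qb q (M + 1) (m + 1) =
      q ^ (δ * ((m + 1 : ℕ) : ℤ)) * g (m + 1) * qb q M (m + 1) +
        qb q M m * (q ^ (-δ * ((M : ℤ) - m)) * g (m + 1)) := by
    intro m _
    rw [qb_pas hg hδ hM]
    push_cast
    ring
  rw [Finset.sum_congr rfl e1, Finset.sum_add_distrib]
  have e2 : ∑ m ∈ Finset.range (M + 2), q ^ (δ * (m : ℤ)) * g m * qb q M m =
      ∑ m ∈ Finset.range (M + 1), q ^ (δ * (m : ℤ)) * g m * qb q M m := by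
    rw [Finset.sum_range_succ _ (M + 1), qb_lt q M (M + 1) (by omega), mul_zero, add_zero]
  rw [Finset.sum_range_succ' _ (M + 1)] at e2
  have e3 : ∑ m ∈ Finset.range (M + 1), qb q M m *
      (q ^ (δ * (m : ℤ)) * g m + q ^ (-δ * ((M : ℤ) - m)) * g (m + 1)) =
      ∑ m ∈ Finset.range (M + 1), q ^ (δ * (m : ℤ)) * g m * qb q M m +
      ∑ m ∈ Finset.range (M + 1), qb q M m * (q ^ (-δ * ((M : ℤ) - m)) * g (m + 1)) := by
    rw [← Finset.sum_add_distrib]
    exact Finset.sum_congr rfl fun m _ => by ring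
  rw [e3, ← e2]
  simp only [qb_zero_right, Nat.cast_zero, mul_zero, zpow_zero, one_mul, mul_one]
  ring

/-- The `q`-difference of a `q`-binomial coefficient. -/
private theorem qb_dif {n N : ℕ} {q : ℂ} (hg : Gen q n N) {δ : ℤ} (hδ : δ = 1 ∨ δ = -1) (a : ℕ) :
    ∀ M b : ℕ, M ≤ b → a + M ≤ 2 * N →
    ∑ m ∈ Finset.range (M + 1), (-1) ^ m * q ^ (δ * ((M : ℤ) - 1 - b) * m) * qb q (a + m) b *
      qb q M m = (-1) ^ M * q ^ (-δ * (M * ((a : ℤ) + 1))) * qb q a (b - M) := by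
  intro M
  induction M with
  | zero =>
    intro b _ _
    simp [qb_zero_right]
  | succ M ih =>
    intro b hb ha
    obtain ⟨c, rfl⟩ : ∃ c, b = c + 1 := ⟨b - 1, by omega⟩
    rw [sum_pas hg hδ (by omega)]
    have hq := hg.1
    have e1 : ∀ m ∈ Finset.range (M + 1), qb q M m * (q ^ (δ * (m : ℤ)) *
        ((-1) ^ m * q ^ (δ * (((M + 1 : ℕ) : ℤ) - 1 - ((c + 1 : ℕ) : ℤ)) * m) * qb q (a + m) (c + 1)) +
        q ^ (-δ * ((M : ℤ) - m)) * ((-1) ^ (m + 1) *
          q ^ (δ * (((M + 1 : ℕ) : ℤ) - 1 - ((c + 1 : ℕ) : ℤ)) * ((m + 1 : ℕ) : ℤ)) *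
            qb q (a + (m + 1)) (c + 1))) =
        -q ^ (-δ * ((a : ℤ) + 1)) * ((-1) ^ m * q ^ (δ * ((M : ℤ) - 1 - c) * m) * qb q (a + m) c *
          qb q M m) := by
      intro m hm
      rw [Finset.mem_range] at hm
      have h2 := qb_pas hg hδ (m := a + m) (k := c) (by omega)
      rw [← add_assoc, h2]
      have p1 : q ^ (δ * (m : ℤ)) * q ^ (δ * (((M + 1 : ℕ) : ℤ) - 1 - ((c + 1 : ℕ) : ℤ)) * m) =
          q ^ (-δ * ((M : ℤ) - m)) * (q ^ (δ * (((M + 1 : ℕ) : ℤ) - 1 - ((c + 1 : ℕ) : ℤ)) *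
            ((m + 1 : ℕ) : ℤ)) * q ^ (δ * ((c : ℤ) + 1))) := by
        rw [← zpow_add₀ hq, ← zpow_add₀ hq, ← zpow_add₀ hq]
        congr 1
        push_cast
        ring
      have p2 : q ^ (-δ * ((M : ℤ) - m)) * (q ^ (δ * (((M + 1 : ℕ) : ℤ) - 1 - ((c + 1 : ℕ) : ℤ)) *
            ((m + 1 : ℕ) : ℤ)) * q ^ (-δ * (((a + m : ℕ) : ℤ) - c))) =
          q ^ (-δ * ((a : ℤ) + 1)) * q ^ (δ * ((M : ℤ) - 1 - c) * m) := by
        rw [← zpow_add₀ hq, ← zpow_add₀ hq, ← zpow_add₀ hq]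
        congr 1
        push_cast
        ring
      rw [pow_succ]
      linear_combination ((-1) ^ m * qb q (a + m) (c + 1) * qb q M m) * p1 -
        ((-1) ^ m * qb q (a + m) c * qb q M m) * p2
    rw [Finset.sum_congr rfl e1, ← Finset.mul_sum, ih c (by omega) (by omega)]
    have e2 : c + 1 - (M + 1) = c - M := by omega
    have p3 : q ^ (-δ * (((M + 1 : ℕ) : ℤ) * ((a : ℤ) + 1))) =
        q ^ (-δ * ((a : ℤ) + 1)) * q ^ (-δ * ((M : ℤ) * ((a : ℤ) + 1))) := by
      rw [← zpow_add₀ hq]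
      congr 1
      push_cast
      ring
    rw [e2, p3, pow_succ]
    ring

private theorem LE_tri {n N : ℕ} {q : ℂ} (hg : Gen q n N) {j k m : ℕ} (hj : j ≤ N)
    (hm : k + m ≤ j) :
    qb q (k + m) k * LE q (k + m) j = qb q j k * (qb q (j - k) m * qb q (j + k + m) j) := by
  have hq := hg.1
  have f1 := qb_fac q hq (k + m) k (by omega)
  have f2 := qb_fac q hq j (k + m) (by omega)
  have f3 := qb_fac q hq (j + (k + m)) (k + m) (by omega)
  have f4 := qb_fac q hq j k (by omega)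
  have f5 := qb_fac q hq (j - k) m (by omega)
  have f6 := qb_fac q hq (j + k + m) j (by omega)
  have g1 : k + m - k = m := by omega
  have g3 : j + (k + m) - (k + m) = j := by omega
  have g5 : j - k - m = j - (k + m) := by omega
  have g6 : j + k + m - j = k + m := by omega
  rw [g1] at f1
  rw [g3, ← add_assoc] at f3
  rw [g5] at f5
  rw [g6] at f6
  have n1 : qf q k ≠ 0 := qf_ne' hg (by omega)
  have n2 : qf q m ≠ 0 := qf_ne' hg (by omega)
  have n3 : qf q (k + m) ≠ 0 := qf_ne' hg (by omega)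
  have n4 : qf q (j - (k + m)) ≠ 0 := qf_ne' hg (by omega)
  have n5 : qf q j ≠ 0 := qf_ne' hg (by omega)
  have n6 : qf q (j - k) ≠ 0 := qf_ne' hg (by omega)
  have e1 : qb q (j + k + m) (k + m) = qb q (j + k + m) j := by
    apply mul_right_cancel₀ (mul_ne_zero n3 n5)
    linear_combination f3 - f6
  have e2 : qb q (k + m) k * qb q j (k + m) = qb q j k * qb q (j - k) m := by
    apply mul_right_cancel₀ (mul_ne_zero (mul_ne_zero n1 n2) n4)
    apply mul_right_cancel₀ n3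
    apply mul_right_cancel₀ n6
    linear_combination (qb q j (k + m) * qf q (k + m) * qf q (j - (k + m)) * qf q (j - k)) * f1 +
      (qf q (k + m) * qf q (j - k)) * f2 - (qf q (k + m) * qf q (j - k)) * f4 -
      (qb q j k * qf q k * qf q (k + m) * qf q (j - k)) * f5
  unfold LE
  rw [← add_assoc, e1]
  linear_combination (qb q (j + k + m) j) * e2

theorem twS_LE {n N : ℕ} {q : ℂ} (hg : Gen q n N) {ε : ℤ} (hε : ε = 1 ∨ ε = -1) {k j : ℕ}
    (hk : k ≤ N) (hj : j ≤ N) :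
    twS q j ^ ε * LE q k j = ∑ i ∈ Finset.range (N + 1),
      (-1) ^ i * q ^ (ε * (k + 1) * i) * qb q i k * LE q i j := by
  have hq := hg.1
  have hz : ∀ i, j < i → LE q i j = 0 := fun i hi => by
    unfold LE
    rw [qb_lt q j i hi, zero_mul]
  rcases Nat.lt_or_ge j k with hjk | hjk
  · rw [hz k hjk, mul_zero]
    symm
    refine Finset.sum_eq_zero fun i _ => ?_
    rcases Nat.lt_or_ge i k with h | h
    · rw [qb_lt q i k h, mul_zero, zero_mul]
    · rw [hz i (by omega), mul_zero]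
  · have hS : ∑ i ∈ Finset.range (N + 1),
        (-1) ^ i * q ^ (ε * (k + 1) * i) * qb q i k * LE q i j =
        ∑ m ∈ Finset.range (j - k + 1),
          (-1) ^ (k + m) * q ^ (ε * (k + 1) * ((k + m : ℕ) : ℤ)) * qb q (k + m) k *
            LE q (k + m) j := by
      have hN : N + 1 = k + (j - k + 1) + (N - j) := by omega
      rw [hN, Finset.sum_range_add, Finset.sum_range_add]
      have z1 : ∑ i ∈ Finset.range k,
          (-1) ^ i * q ^ (ε * (k + 1) * (i : ℤ)) * qb q i k * LE q i j = 0 :=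
        Finset.sum_eq_zero fun i hi => by
          rw [qb_lt q i k (Finset.mem_range.1 hi), mul_zero, zero_mul]
      have z2 : ∑ x ∈ Finset.range (N - j),
          (-1) ^ (k + (j - k + 1) + x) * q ^ (ε * (k + 1) * ((k + (j - k + 1) + x : ℕ) : ℤ)) *
            qb q (k + (j - k + 1) + x) k * LE q (k + (j - k + 1) + x) j = 0 :=
        Finset.sum_eq_zero fun i _ => by
          rw [hz _ (by omega), mul_zero]
      rw [z1, z2, zero_add, add_zero]
    have hD := qb_dif hg (δ := -ε) (by rcases hε with rfl | rfl <;> simp) (j + k) (j - k) j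
      (by omega) (by omega)
    have e2 : j - (j - k) = k := by omega
    rw [e2] at hD
    have hT : ∑ m ∈ Finset.range (j - k + 1),
          (-1) ^ (k + m) * q ^ (ε * (k + 1) * ((k + m : ℕ) : ℤ)) * qb q (k + m) k *
            LE q (k + m) j = ((-1) ^ k * q ^ (ε * ((k : ℤ) * (k + 1))) * qb q j k) *
          ∑ m ∈ Finset.range (j - k + 1), (-1) ^ m *
            q ^ (-ε * (((j - k : ℕ) : ℤ) - 1 - j) * m) * qb q (j + k + m) j * qb q (j - k) m := by
      rw [Finset.mul_sum]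
      refine Finset.sum_congr rfl fun m hm => ?_
      rw [Finset.mem_range] at hm
      have h1 := LE_tri hg hj (k := k) (m := m) (by omega)
      have p1 : q ^ (ε * (k + 1) * ((k + m : ℕ) : ℤ)) = q ^ (ε * ((k : ℤ) * (k + 1))) *
          q ^ (-ε * (((j - k : ℕ) : ℤ) - 1 - j) * m) := by
        rw [← zpow_add₀ hq]
        congr 1
        push_cast [Nat.cast_sub hjk]
        ring
      rw [p1, pow_add]
      linear_combination ((-1) ^ k * (-1) ^ m * (q ^ (ε * ((k : ℤ) * (k + 1))) *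
          q ^ (-ε * (((j - k : ℕ) : ℤ) - 1 - j) * m))) * h1
    rw [hS, hT, hD]
    have hw : twS q j ^ ε = (-1) ^ j * q ^ (ε * ((j : ℤ) * (j + 1))) := by
      unfold twS
      rcases hε with rfl | rfl
      · rw [zpow_one, one_mul]
      · rw [zpow_neg_one, mul_inv, ← inv_pow, ← zpow_neg]
        congr 2
        · norm_num
        · ring
    have p2 : q ^ (ε * ((j : ℤ) * (j + 1))) = q ^ (ε * ((k : ℤ) * (k + 1))) *
        q ^ (- -ε * (((j - k : ℕ) : ℤ) * (((j + k : ℕ) : ℤ) + 1))) := by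
      rw [← zpow_add₀ hq]
      congr 1
      push_cast [Nat.cast_sub hjk]
      ring
    have p3 : (-1 : ℂ) ^ j = (-1) ^ k * (-1) ^ (j - k) := by
      rw [← pow_add]
      congr 1
      omega
    rw [hw, p2, p3]
    unfold LE
    ring

end Pool.Agent.S4
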