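import Pool.Agent.S4.B.St

/-! # The function of a chain -/

namespace Pool.Agent.S4

open Pool.Agent.H63.VC7 Pool.Agent.H63.VC8 Pool.Agent.H63.VC11 Pool.Agent.H63.VC12

theorem six_zero {n N : ℕ} {q : ℂ} (a : ℤ) (j : ℕ) : six n q N a j 0 = 1 := by
  unfold six
  rw [Finset.prod_range_zero, one_mul, Finset.sum_range_succ', Finset.sum_eq_zero]
  · simp [pa, ps]
  · intro t _
    have h : pa q n (t + 1) 0 = 0 := by
      unfold pa
      refine Finset.prod_eq_zero (Finset.mem_range.2 (Nat.succ_pos t)) ?_
      have h0 : br q (((0 : ℕ) : ℤ) - ((0 : ℕ) : ℤ)) = 0 := by simp [br]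
      rw [h0, mul_zero]
    rw [h, zero_mul, mul_zero, zero_div]

private theorem B_Mf_sixn_zero (q : ℂ) (n N X : ℕ) : sixn n q N X 0 = 1 := by
  unfold sixn
  rw [Finset.sum_range_succ', Finset.sum_eq_zero]
  · simp
  · intro t _
    rw [Finset.prod_eq_zero (Finset.mem_range.2 (Nat.succ_pos t)), mul_zero]
    have : br q (((0 : ℕ) : ℤ) - ((0 : ℕ) : ℤ)) = 0 := by
      simp [br]
    rw [this]
    simp

private theorem B_Mf_Ph_smul (q : ℂ) (n N : ℕ) (hg : Gen q n N) (hn : 2 ≤ n) (c : ℂ)
    (f : ℕ → ℂ) (X : ℕ) : Ph q n N (fun Y => c * f Y) X = c * Ph q n N f X := by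
  have h := Ph_sum q n N hg hn (Finset.univ : Finset Unit) (fun _ => c) (fun _ => f) X
  simpa using h

private theorem B_Mf_hfg_smul (q : ℂ) (n N : ℕ) (hg : Gen q n N) (hn : 2 ≤ n) (c : ℂ)
    (f : ℕ → ℂ) (l : List ℤ) (X : ℕ) :
    hfg q n N l (fun Y => c * f Y) X = c * hfg q n N l f X := by
  induction l generalizing X with
  | nil => rfl
  | cons a l ih =>
    show Ph q n N (fun Y => tt q n Y ^ a * hfg q n N l (fun Y => c * f Y) Y) X =
      c * Ph q n N (fun Y => tt q n Y ^ a * hfg q n N l f Y) X
    rw [← B_Mf_Ph_smul q n N hg hn]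
    congr 1
    funext Y
    rw [ih]
    ring

private theorem B_Mf_hf_append (q : ℂ) (n N : ℕ) (l1 l2 : List ℤ) (X : ℕ) :
    hf q n N (l1 ++ l2) X = hfg q n N l1 (hf q n N l2) X := by
  induction l1 generalizing X with
  | nil => rfl
  | cons a l ih =>
    show Ph q n N (fun Y => tt q n Y ^ a * hf q n N (l ++ l2) Y) X =
      Ph q n N (fun Y => tt q n Y ^ a * hfg q n N l (hf q n N l2) Y) X
    congr 1
    funext Y
    rw [ih]

private theorem B_Mf_twA_ne {q : ℂ} (hq : q ≠ 0) (n X : ℕ) : twA q n X ≠ 0 :=
  mul_ne_zero (pow_ne_zero _ (by norm_num)) (zpow_ne_zero _ hq)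

private theorem B_Mf_ka_ne {q : ℂ} (hq : q ≠ 0) (n N : ℕ) : ka q n N ≠ 0 :=
  mul_ne_zero (pow_ne_zero _ (by norm_num)) (zpow_ne_zero _ hq)

private theorem B_Mf_tt {q : ℂ} (hq : q ≠ 0) (n X : ℕ) (r : ℤ) :
    twA q n X ^ (2 * r) = tt q n X ^ r := by
  rw [zpow_mul]
  congr 1
  unfold twA tt
  rw [mul_zpow, ← zpow_mul, zpow_ofNat, ← pow_mul, mul_comm X 2, pow_mul]
  norm_num
  congr 1
  ring

/-- The head of a chain with antiparallel strands, for both kinds of the strands to the left. -/
private theorem B_Mf_step {q : ℂ} (hq : q ≠ 0) (n N X : ℕ) {b e k : ℤ} (hd : (2 : ℤ) ∣ b - e - k)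
    (K h : ℂ) : twA q n X ^ (-e) * (twA q n X ^ b * (K * (twA q n X ^ (-k) * h))) =
      K * (tt q n X ^ ((b - e - k) / 2) * h) := by
  have h1 : twA q n X ^ (-e) * twA q n X ^ b * twA q n X ^ (-k) = tt q n X ^ ((b - e - k) / 2) := by
    rw [← B_Mf_tt hq, ← zpow_add₀ (B_Mf_twA_ne hq n X), ← zpow_add₀ (B_Mf_twA_ne hq n X)]
    congr 1
    omega
  rw [← h1]
  ring

theorem mf_exr {n N : ℕ} {q : ℂ} (hg : Gen q n N) (hn : 2 ≤ n) {a : ℤ} (ha : IsA n N a)
    (L : List (Bool × ℤ)) (h : OkL 0 L) {X : ℕ} (hX : X ≤ N) :
    mf n q N a L false X = ka q n N ^ ((L.filter (fun x => x.1)).map Prod.snd).sum *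
      (twA q n X ^ (-hs L) * hf q n N (exr 0 L) X) := by
  have hq : q ≠ 0 := hg.1
  -- the tail after an antiparallel head
  have key : ∀ (l : List (Bool × ℤ)) (b e : ℤ), ((2 : ℤ) ∣ b - e - hs l) →
      (∀ Y ≤ N, mf n q N a l false Y = ka q n N ^ ((l.filter (fun x => x.1)).map Prod.snd).sum *
        (twA q n Y ^ (-hs l) * hf q n N (exr 0 l) Y)) → ∀ X,
      Ph q n N (fun Y => twA q n Y ^ (-e) * (twA q n Y ^ b * mf n q N a l false Y)) X =
        ka q n N ^ ((l.filter (fun x => x.1)).map Prod.snd).sum *
          hf q n N ((b - e - hs l) / 2 :: exr 0 l) X := by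
    intro l b e hd ih X
    have h1 : Ph q n N (fun Y => twA q n Y ^ (-e) * (twA q n Y ^ b * mf n q N a l false Y)) X =
        Ph q n N (fun Y => ka q n N ^ ((l.filter (fun x => x.1)).map Prod.snd).sum *
          (tt q n Y ^ ((b - e - hs l) / 2) * hf q n N (exr 0 l) Y)) X := by
      refine Ph_congr q n N hg hn _ _ (fun Y hY => ?_) X
      rw [ih Y hY]
      exact B_Mf_step hq n N Y hd _ _
    rw [h1, B_Mf_Ph_smul q n N hg hn]
    rfl
  induction hL : L.length using Nat.strong_induction_on generalizing L X with
  | _ k ih =>
    subst hL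
    rcases L with _ | ⟨⟨P, c⟩, l⟩
    · show (1 : ℂ) = ka q n N ^ (0 : ℤ) * (twA q n X ^ (-0 : ℤ) * 1)
      simp
    · cases P with
      | false =>
        obtain ⟨h1, h2⟩ : ((2 : ℤ) ∣ c - 0 - hs l) ∧ OkL 0 l := h
        have ih' := fun Y (hY : Y ≤ N) => ih l.length (by simp) l h2 hY rfl
        have e1 : mf n q N a ((false, c) :: l) false X =
            Ph q n N (fun Y => twA q n Y ^ (-0 : ℤ) * (twA q n Y ^ c * mf n q N a l false Y)) X := by
          rw [Ph_eq q n N hg hn]
          show ∑ Y ∈ Finset.range (N + 1), sixn n q N X Y *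
            (dimA n q Y / dimS n N q * twA q n Y ^ c * mf n q N a l false Y) = _
          refine Finset.sum_congr rfl fun Y _ => ?_
          rw [neg_zero, zpow_zero]
          ring
        rw [e1, key l c 0 h1 ih' X]
        have e2 : hs ((false, c) :: l) = 0 := rfl
        have e3 : exr 0 ((false, c) :: l) = (c - 0 - hs l) / 2 :: exr 0 l := rfl
        have e4 : (((false, c) :: l).filter (fun x => x.1)) = l.filter (fun x => x.1) := rfl
        rw [e2, e3, e4, neg_zero, zpow_zero, one_mul]
      | true =>
        obtain ⟨hc, hne, h2⟩ : c ≠ 0 ∧ (∀ c' l', l ≠ (true, c') :: l') ∧ OkL c.sign l := h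
        have hε : c.sign = 1 ∨ c.sign = -1 := by
          rcases lt_trichotomy c 0 with h | h | h
          · exact Or.inr (Int.sign_eq_neg_one_of_neg h)
          · exact absurd h hc
          · exact Or.inl (Int.sign_eq_one_of_pos h)
        have hd : 1 ≤ c.natAbs := by omega
        have hcd : c.sign * (c.natAbs : ℤ) = c := Int.sign_mul_natAbs c
        have e1 : mf n q N a ((true, c) :: l) false X =
            Ro n q N a (fun j => twS q j ^ c * mf n q N a l true j) X := by
          show ∑ Y ∈ Finset.range (N + 1), six n q N a Y X *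
            (dimT n N q Y / dimS n N q * twS q Y ^ c * mf n q N a l true Y) = _
          unfold Ro
          refine Finset.sum_congr rfl fun Y _ => ?_
          ring
        have e2 : hs ((true, c) :: l) = c.sign := rfl
        have e3 : exr 0 ((true, c) :: l) = List.replicate (c.natAbs - 1) (-c.sign) ++
          exr c.sign l := rfl
        have e4 : ((((true, c) :: l).filter (fun x => x.1)).map Prod.snd).sum =
            c + ((l.filter (fun x => x.1)).map Prod.snd).sum := rfl
        rcases l with _ | ⟨⟨P', b⟩, l'⟩
        · -- the chain ends here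
          have hS := dimS_ne q n N hg hn
          have e5 : ∀ j, mf n q N a [] true j =
              Rt n q N a (fun Y => if Y = 0 then dimS n N q else 0) j := by
            intro j
            show (1 : ℂ) = _
            unfold Rt
            rw [Finset.sum_eq_single_of_mem 0 (Finset.mem_range.2 (Nat.succ_pos N))]
            · simp only [if_true]
              rw [six_zero]
              have e6 : dimA n q 0 = 1 := by
                unfold dimA
                rw [Finset.prod_range_zero, mul_one]
                have e7 : ((n : ℤ) + 2 * ((0 : ℕ) : ℤ) - 1) = (n : ℤ) - 1 := by simp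
                rw [e7]
                exact div_self (hg.br_ne (by omega) (by omega))
              rw [e6]
              field_simp
            · intro b _ hb
              simp only [if_neg hb, mul_zero]
          have e8 : (fun j => twS q j ^ c * mf n q N a [] true j) =
              fun j => twS q j ^ (c.sign * (c.natAbs : ℤ)) *
                Rt n q N a (fun Y => if Y = 0 then dimS n N q else 0) j := by
            funext j
            rw [hcd, e5]
          have e9 : Ph q n N (fun Y => twA q n Y ^ (-c.sign) *
              (if Y = 0 then dimS n N q else 0)) = hf q n N [] := by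
            funext Y
            rw [Ph_eq q n N hg hn]
            show _ = (1 : ℂ)
            rw [Finset.sum_eq_single_of_mem 0 (Finset.mem_range.2 (Nat.succ_pos N))]
            · simp only [if_true]
              rw [B_Mf_sixn_zero]
              have e6 : dimA n q 0 = 1 := by
                unfold dimA
                rw [Finset.prod_range_zero, mul_one]
                have e7 : ((n : ℤ) + 2 * ((0 : ℕ) : ℤ) - 1) = (n : ℤ) - 1 := by simp
                rw [e7]
                exact div_self (hg.br_ne (by omega) (by omega))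
              have e7 : twA q n 0 = 1 := by simp [twA]
              rw [e6, e7, one_zpow]
              field_simp
            · intro b _ hb
              simp only [if_neg hb, mul_zero]
          rw [e1, e8, stP hg hn ha hε hd _ hX, e9, ← B_Mf_hf_append, hcd, e2, e3, e4]
          have e10 : exr c.sign [] = [] := rfl
          have e11 : (((([] : List (Bool × ℤ))).filter (fun x => x.1)).map Prod.snd).sum =
            (0 : ℤ) := rfl
          rw [e10, e11, add_zero]
        · cases P' with
          | true => exact absurd rfl (hne b l')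
          | false =>
            obtain ⟨h3, h4⟩ : ((2 : ℤ) ∣ b - c.sign - hs l') ∧ OkL 0 l' := h2
            have ih' := fun Y (hY : Y ≤ N) => ih l'.length (by
              simp only [List.length_cons]; omega) l' h4 hY rfl
            have e5 : ∀ j, mf n q N a ((false, b) :: l') true j =
                Rt n q N a (fun Y => twA q n Y ^ b * mf n q N a l' false Y) j := by
              intro j
              show ∑ Y ∈ Finset.range (N + 1), six n q N a j Y *
                (dimA n q Y / dimS n N q * twA q n Y ^ b * mf n q N a l' false Y) = _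
              unfold Rt
              refine Finset.sum_congr rfl fun Y _ => ?_
              ring
            have e8 : (fun j => twS q j ^ c * mf n q N a ((false, b) :: l') true j) =
                fun j => twS q j ^ (c.sign * (c.natAbs : ℤ)) *
                  Rt n q N a (fun Y => twA q n Y ^ b * mf n q N a l' false Y) j := by
              funext j
              rw [hcd, e5]
            have e9 : Ph q n N (fun Y => twA q n Y ^ (-c.sign) *
                (twA q n Y ^ b * mf n q N a l' false Y)) = fun Y =>
                ka q n N ^ ((l'.filter (fun x => x.1)).map Prod.snd).sum *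
                  hf q n N ((b - c.sign - hs l') / 2 :: exr 0 l') Y := by
              funext Y
              exact key l' b c.sign h3 ih' Y
            rw [e1, e8, stP hg hn ha hε hd _ hX, e9, B_Mf_hfg_smul q n N hg hn, ← B_Mf_hf_append,
              hcd, e2, e3, e4]
            have e10 : exr c.sign ((false, b) :: l') = (b - c.sign - hs l') / 2 :: exr 0 l' := rfl
            have e11 : (((false, b) :: l').filter (fun x => x.1)) =
              l'.filter (fun x => x.1) := rfl
            rw [e10, e11, zpow_add₀ (B_Mf_ka_ne hq n N)]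
            ring

end Pool.Agent.S4
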