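import Pool.Agent.S4.Defs

/-! # A sum of products of binomial coefficients -/

namespace Pool.Agent.S4

open Pool.Agent.H63.VC7 Pool.Agent.H63.VC8 Pool.Agent.H63.VC11 Pool.Agent.H63.VC12

private theorem B_Four_pascal {q : ℂ} {n N : ℕ} (hg : Gen q n N) (hn : 2 ≤ n) {σ : ℤ}
    (hσ : σ = 1 ∨ σ = -1) (m k : ℕ) (hm : m + 1 ≤ N) :
    qb q (m + 1) (k + 1) = q ^ (σ * ((k : ℤ) + 1)) * qb q m (k + 1) +
      q ^ (-(σ * ((m : ℤ) - k))) * qb q m k := by
  rcases hσ with rfl | rfl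
  · rw [one_mul, one_mul]
    rfl
  · have h := qb_succ' q hg.1 (by simpa using hg.2 1 le_rfl (by omega)) m k
      (fun j hj => hg.qf_ne (by omega) (by omega))
    rw [h]
    congr 3
    · ring
    · ring

private theorem B_Four_symm {q : ℂ} {n N : ℕ} (hg : Gen q n N) (hn : 2 ≤ n) (m k : ℕ)
    (hm : m ≤ N) (hk : k ≤ m) : qb q m k = qb q m (m - k) := by
  have h1 := qb_fac q hg.1 m k hk
  have h2 := qb_fac q hg.1 m (m - k) (Nat.sub_le _ _)
  have e : m - (m - k) = k := by omega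
  rw [e] at h2
  have n1 : qf q k * qf q (m - k) ≠ 0 :=
    mul_ne_zero (hg.qf_ne (by omega) (by omega)) (hg.qf_ne (by omega) (by omega))
  apply mul_right_cancel₀ n1
  rw [h1, mul_comm (qf q k), h2]

private noncomputable def B_Four_F (q : ℂ) (ε : ℤ) (t N k : ℕ) : ℂ :=
  ∑ u ∈ Finset.range (t + 1), (-1) ^ u * qb q t u * qb q (N - u) k *
    q ^ (ε * ((u : ℤ) * ((t : ℤ) - k - 1)))

private theorem B_Four_rec {q : ℂ} {n N : ℕ} (hg : Gen q n N) (hn : 2 ≤ n) {ε : ℤ}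
    (hε : ε = 1 ∨ ε = -1) (t N' k : ℕ) (ht : t + 1 ≤ N') (hN : N' ≤ N) :
    B_Four_F q ε (t + 1) N' k = B_Four_F q ε t N' k -
      q ^ (ε * (2 * (t : ℤ) - k)) * B_Four_F q ε t (N' - 1) k := by
  have hσ : -ε = 1 ∨ -ε = -1 := by rcases hε with rfl | rfl <;> simp
  have hP := fun u => B_Four_pascal hg hn hσ t u (by omega)
  have h1 : B_Four_F q ε t N' k = ∑ u ∈ Finset.range (t + 1 + 1), (-1) ^ u * qb q t u *
      qb q (N' - u) k * q ^ (ε * ((u : ℤ) * ((t : ℤ) - k - 1))) := by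
    rw [Finset.sum_range_succ, qb_lt q t (t + 1) (by omega)]
    unfold B_Four_F
    ring
  unfold B_Four_F at h1 ⊢
  rw [h1, Finset.sum_range_succ', Finset.sum_range_succ' _ (t + 1), Finset.mul_sum]
  rw [qb_zero_right, qb_zero_right]
  have h2 : ∀ u ∈ Finset.range (t + 1),
      (-1 : ℂ) ^ (u + 1) * qb q (t + 1) (u + 1) * qb q (N' - (u + 1)) k *
        q ^ (ε * (((u + 1 : ℕ) : ℤ) * (((t + 1 : ℕ) : ℤ) - k - 1))) =
      (-1 : ℂ) ^ (u + 1) * qb q t (u + 1) * qb q (N' - (u + 1)) k *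
        q ^ (ε * (((u + 1 : ℕ) : ℤ) * ((t : ℤ) - k - 1))) -
      q ^ (ε * (2 * (t : ℤ) - k)) * ((-1 : ℂ) ^ u * qb q t u * qb q (N' - 1 - u) k *
        q ^ (ε * ((u : ℤ) * ((t : ℤ) - k - 1)))) := by
    intro u _
    rw [hP u]
    have e1 : N' - (u + 1) = N' - 1 - u := by omega
    rw [e1]
    have z1 : q ^ (-ε * ((u : ℤ) + 1)) * q ^ (ε * (((u + 1 : ℕ) : ℤ) * (((t + 1 : ℕ) : ℤ) - k - 1))) =
        q ^ (ε * (((u + 1 : ℕ) : ℤ) * ((t : ℤ) - k - 1))) := by
      rw [← zpow_add₀ hg.1]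
      congr 1
      push_cast
      ring
    have z2 : q ^ (-(-ε * ((t : ℤ) - u))) *
        q ^ (ε * (((u + 1 : ℕ) : ℤ) * (((t + 1 : ℕ) : ℤ) - k - 1))) =
        q ^ (ε * (2 * (t : ℤ) - k)) * q ^ (ε * ((u : ℤ) * ((t : ℤ) - k - 1))) := by
      rw [← zpow_add₀ hg.1, ← zpow_add₀ hg.1]
      congr 1
      push_cast
      ring
    rw [pow_succ]
    linear_combination ((-1 : ℂ) ^ u * -1 * qb q t (u + 1) * qb q (N' - 1 - u) k) * z1 +
      ((-1 : ℂ) ^ u * -1 * qb q t u * qb q (N' - 1 - u) k) * z2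
  rw [Finset.sum_congr rfl h2, Finset.sum_sub_distrib]
  simp only [Nat.cast_zero, zero_mul]
  ring

private theorem B_Four_eval {q : ℂ} {n N : ℕ} (hg : Gen q n N) (hn : 2 ≤ n) {ε : ℤ}
    (hε : ε = 1 ∨ ε = -1) (t : ℕ) : ∀ N' k : ℕ, N' ≤ N → t ≤ N' → k ≤ N' →
    B_Four_F q ε t N' k = q ^ (ε * ((t : ℤ) * ((N' : ℤ) - k))) * qb q (N' - t) (N' - k) := by
  induction t with
  | zero =>
    intro N' k hN _ hk
    unfold B_Four_F
    simp only [zero_add, Finset.range_one, Finset.sum_singleton, pow_zero, Nat.cast_zero, zero_mul,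
      mul_zero, zpow_zero, mul_one, Nat.sub_zero, one_mul]
    rw [qb_zero_right, one_mul]
    exact B_Four_symm hg hn N' k hN hk
  | succ t ih =>
    intro N' k hN ht hk
    rw [B_Four_rec hg hn hε t N' k ht hN, ih N' k hN (by omega) hk]
    rcases Nat.lt_or_ge k N' with hk' | hk'
    · rw [ih (N' - 1) k (by omega) (by omega) (by omega)]
      obtain ⟨a, ha⟩ : ∃ a, N' - k = a + 1 := ⟨N' - k - 1, by omega⟩
      obtain ⟨m, hm⟩ : ∃ m, N' - t = m + 1 := ⟨N' - t - 1, by omega⟩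
      have e1 : N' - 1 - t = m := by omega
      have e2 : N' - 1 - k = a := by omega
      have e3 : N' - (t + 1) = m := by omega
      have c1 : (N' : ℤ) = k + a + 1 := by omega
      have c2 : (m : ℤ) = k + a - t := by omega
      rw [e1, e2, e3, ha, hm, B_Four_pascal hg hn hε m a (by omega)]
      have c3 : ((N' - 1 : ℕ) : ℤ) = k + a := by omega
      have z1 : q ^ (ε * ((t : ℤ) * ((N' : ℤ) - k))) * q ^ (ε * ((a : ℤ) + 1)) =
          q ^ (ε * (((t + 1 : ℕ) : ℤ) * ((N' : ℤ) - k))) := by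
        rw [← zpow_add₀ hg.1, c1]
        congr 1
        push_cast
        ring
      have z2 : q ^ (ε * ((t : ℤ) * ((N' : ℤ) - k))) * q ^ (-(ε * ((m : ℤ) - a))) =
          q ^ (ε * (2 * (t : ℤ) - k)) * q ^ (ε * ((t : ℤ) * (((N' - 1 : ℕ) : ℤ) - k))) := by
        rw [← zpow_add₀ hg.1, ← zpow_add₀ hg.1, c1, c2, c3]
        congr 1
        ring
      linear_combination qb q m (a + 1) * z1 + qb q m a * z2
    · obtain rfl : k = N' := by omega
      have h0 : B_Four_F q ε t (k - 1) k = 0 := by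
        unfold B_Four_F
        refine Finset.sum_eq_zero fun u _ => ?_
        rw [qb_lt q (k - 1 - u) k (by omega)]
        ring
      rw [h0, mul_zero, sub_zero, Nat.sub_self, qb_zero_right, qb_zero_right, sub_self]
      simp only [mul_zero]

theorem b4 {n N : ℕ} {q : ℂ} (hg : Gen q n N) (hn : 2 ≤ n) {ε : ℤ} (hε : ε = 1 ∨ ε = -1)
    {k t : ℕ} (hk : k ≤ N) (ht : t ≤ N) :
    ∑ i ∈ Finset.range (N + 1), (-1) ^ i * q ^ (ε * (k + 1) * i) * qb q i k *
      (qb q t (N - i) * q ^ (ε * (((N : ℤ) - t) * (i + N + n - 1) - i * N))) =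
    ka q n N ^ ε * (qb q (N - t) (N - k) * q ^ (-ε * ((t : ℤ) * (k + N + n - 1) - k * N))) := by
  have h1 := Finset.sum_range_reflect (fun i => (-1) ^ i * q ^ (ε * (k + 1) * i) * qb q i k *
      (qb q t (N - i) * q ^ (ε * (((N : ℤ) - t) * (i + N + n - 1) - i * N)))) (N + 1)
  rw [← h1]
  have h2 : ∀ u ∈ Finset.range (N + 1), (-1 : ℂ) ^ (N + 1 - 1 - u) *
      q ^ (ε * (k + 1) * ((N + 1 - 1 - u : ℕ) : ℤ)) * qb q (N + 1 - 1 - u) k *
      (qb q t (N - (N + 1 - 1 - u)) * q ^ (ε * (((N : ℤ) - t) *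
        (((N + 1 - 1 - u : ℕ) : ℤ) + N + n - 1) - ((N + 1 - 1 - u : ℕ) : ℤ) * N))) =
      ((-1) ^ N * q ^ (ε * ((k : ℤ) * N + N * N + N * n - 2 * N * t - t * n + t))) *
        ((-1) ^ u * qb q t u * qb q (N - u) k * q ^ (ε * ((u : ℤ) * ((t : ℤ) - k - 1)))) := by
    intro u hu
    have hu' := Finset.mem_range.1 hu
    have e1 : N + 1 - 1 - u = N - u := by omega
    have e2 : N - (N - u) = u := by omega
    have c1 : ((N - u : ℕ) : ℤ) = N - u := by omega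
    rw [e1, e2, c1]
    have s1 : (-1 : ℂ) ^ (N - u) = (-1) ^ N * (-1) ^ u := by
      have h3 : (-1 : ℂ) ^ N = (-1) ^ (N - u) * (-1) ^ u := by
        rw [← pow_add]
        congr 1
        omega
      rw [h3, mul_assoc, ← pow_add, ← two_mul, pow_mul]
      norm_num
    have z1 : q ^ (ε * (k + 1) * ((N : ℤ) - u)) * q ^ (ε * (((N : ℤ) - t) *
        ((N : ℤ) - u + N + n - 1) - ((N : ℤ) - u) * N)) =
        q ^ (ε * ((k : ℤ) * N + N * N + N * n - 2 * N * t - t * n + t)) *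
          q ^ (ε * ((u : ℤ) * ((t : ℤ) - k - 1))) := by
      rw [← zpow_add₀ hg.1, ← zpow_add₀ hg.1]
      congr 1
      ring
    rw [s1]
    linear_combination ((-1 : ℂ) ^ N * (-1) ^ u * qb q (N - u) k * qb q t u) * z1
  rw [Finset.sum_congr rfl h2, ← Finset.mul_sum]
  have h3 : ∑ u ∈ Finset.range (N + 1), (-1 : ℂ) ^ u * qb q t u * qb q (N - u) k *
      q ^ (ε * ((u : ℤ) * ((t : ℤ) - k - 1))) = B_Four_F q ε t N k := by
    unfold B_Four_F
    symm
    refine Finset.sum_subset ?_ ?_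
    · intro u hu
      rw [Finset.mem_range] at hu ⊢
      omega
    · intro u _ hu
      rw [Finset.mem_range] at hu
      rw [qb_lt q t u (by omega)]
      ring
  rw [h3, B_Four_eval hg hn hε t N k le_rfl ht hk]
  have hka : ka q n N ^ ε = (-1) ^ N * q ^ (ε * ((N : ℤ) * ((N : ℤ) + n))) := by
    unfold ka
    rcases hε with rfl | rfl
    · rw [zpow_one, one_mul]
    · rw [zpow_neg_one, mul_inv, ← zpow_neg]
      congr 1
      · rw [← inv_pow]
        norm_num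
      · congr 1
        ring
  rw [hka]
  have z2 : q ^ (ε * ((k : ℤ) * N + N * N + N * n - 2 * N * t - t * n + t)) *
      q ^ (ε * ((t : ℤ) * ((N : ℤ) - k))) =
      q ^ (ε * ((N : ℤ) * ((N : ℤ) + n))) *
        q ^ (-ε * ((t : ℤ) * (k + N + n - 1) - k * N)) := by
    rw [← zpow_add₀ hg.1, ← zpow_add₀ hg.1]
    congr 1
    ring
  linear_combination ((-1 : ℂ) ^ N * qb q (N - t) (N - k)) * z2

end Pool.Agent.S4
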