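import Pool.Agent.S4.Defs

/-! # The q-Saalschütz sum and the function `wk` -/

namespace Pool.Agent.S4

open Pool.Agent.H63.VC7 Pool.Agent.H63.VC8 Pool.Agent.H63.VC11 Pool.Agent.H63.VC12

private theorem B_Saal_brk {q : ℂ} (hq : q ≠ 0) (a b t : ℤ) :
    br q a * br q b - br q (a - t) * br q (b - t) = br q t * br q (a + b - t) := by
  unfold br
  have e : ∀ m : ℤ, q ^ (-m) = (q ^ m)⁻¹ := fun m => zpow_neg q m
  simp only [e, zpow_sub₀ hq, zpow_add₀ hq]
  have ha : q ^ a ≠ 0 := zpow_ne_zero _ hq
  have hb : q ^ b ≠ 0 := zpow_ne_zero _ hq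
  have ht : q ^ t ≠ 0 := zpow_ne_zero _ hq
  field_simp
  ring

/-- The terms of the sum. -/
private noncomputable def B_Saal_F (q : ℂ) (l c y u v : ℤ) (t : ℕ) : ℂ :=
  (-1) ^ t * ∏ i ∈ Finset.range t,
      (br q (l - i) * br q (c + l - 1 + i) * br q (y + i) /
        (br q ((i : ℤ) + 1) * br q (u + i) * br q (v + i)))

private theorem B_Saal_step {q : ℂ} (hq : q ≠ 0) (l c y u v : ℤ) (t : ℕ)
    (hb : ∀ i : ℕ, i ≤ t → br q ((i : ℤ) + 1) ≠ 0)
    (hu : ∀ i : ℕ, i ≤ t → br q (u + i) ≠ 0) (hv : ∀ i : ℕ, i ≤ t → br q (v + i) ≠ 0) :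
    B_Saal_F q (l + 1) c y u v (t + 1) = B_Saal_F q l c y u v (t + 1) -
      br q (2 * l + c) * br q y / (br q u * br q v) *
        B_Saal_F q l (c + 1) (y + 1) (u + 1) (v + 1) t := by
  unfold B_Saal_F
  simp only [Finset.prod_div_distrib, Finset.prod_mul_distrib]
  have s1 : ∏ i ∈ Finset.range (t + 1), br q (l + 1 - i) =
      br q (l + 1) * ∏ i ∈ Finset.range t, br q (l - i) := by
    rw [Finset.prod_range_succ', mul_comm]
    congr 1
    · push_cast
      rw [sub_zero]
    · refine Finset.prod_congr rfl fun i _ => ?_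
      congr 1
      push_cast
      ring
  have s2 : ∏ i ∈ Finset.range (t + 1), br q (c + (l + 1) - 1 + i) =
      (∏ i ∈ Finset.range t, br q (c + l + i)) * br q (c + l + t) := by
    rw [Finset.prod_range_succ]
    congr 1
    · refine Finset.prod_congr rfl fun i _ => ?_
      congr 1
      ring
    · congr 1
      ring
  have s3 : ∏ i ∈ Finset.range (t + 1), br q (l - i) =
      (∏ i ∈ Finset.range t, br q (l - i)) * br q (l - t) := Finset.prod_range_succ _ _
  have s4 : ∏ i ∈ Finset.range (t + 1), br q (c + l - 1 + i) =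
      br q (c + l - 1) * ∏ i ∈ Finset.range t, br q (c + l + i) := by
    rw [Finset.prod_range_succ', mul_comm]
    congr 1
    · push_cast
      rw [add_zero]
    · refine Finset.prod_congr rfl fun i _ => ?_
      congr 1
      push_cast
      ring
  have s5 : ∀ z : ℤ, ∏ i ∈ Finset.range (t + 1), br q (z + i) =
      br q z * ∏ i ∈ Finset.range t, br q (z + 1 + i) := by
    intro z
    rw [Finset.prod_range_succ', mul_comm]
    congr 1
    · push_cast
      rw [add_zero]
    · refine Finset.prod_congr rfl fun i _ => ?_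
      congr 1
      push_cast
      ring
  have s6 : ∏ i ∈ Finset.range (t + 1), br q ((i : ℤ) + 1) =
      (∏ i ∈ Finset.range t, br q ((i : ℤ) + 1)) * br q ((t : ℤ) + 1) :=
    Finset.prod_range_succ _ _
  have s7 : ∏ i ∈ Finset.range t, br q (c + 1 + l - 1 + i) =
      ∏ i ∈ Finset.range t, br q (c + l + i) := by
    refine Finset.prod_congr rfl fun i _ => ?_
    congr 1
    ring
  rw [s1, s2, s3, s4, s5 y, s5 u, s5 v, s6, s7]
  have n1 : ∏ i ∈ Finset.range t, br q ((i : ℤ) + 1) ≠ 0 :=
    Finset.prod_ne_zero_iff.2 fun i hi => hb i (Finset.mem_range.1 hi).le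
  have n2 : br q ((t : ℤ) + 1) ≠ 0 := hb t le_rfl
  have n3 : br q u ≠ 0 := by simpa using hu 0 (Nat.zero_le _)
  have n4 : br q v ≠ 0 := by simpa using hv 0 (Nat.zero_le _)
  have n5 : ∏ i ∈ Finset.range t, br q (u + 1 + i) ≠ 0 :=
    Finset.prod_ne_zero_iff.2 fun i hi => by
      have := hu (i + 1) (Finset.mem_range.1 hi)
      push_cast at this
      rwa [show u + 1 + (i : ℤ) = u + (i + 1) by ring]
  have n6 : ∏ i ∈ Finset.range t, br q (v + 1 + i) ≠ 0 :=
    Finset.prod_ne_zero_iff.2 fun i hi => by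
      have := hv (i + 1) (Finset.mem_range.1 hi)
      push_cast at this
      rwa [show v + 1 + (i : ℤ) = v + (i + 1) by ring]
  have key := B_Saal_brk hq (l + 1) (c + l + t) (t + 1)
  rw [show l + 1 - ((t : ℤ) + 1) = l - t by ring, show c + l + t - ((t : ℤ) + 1) = c + l - 1 by ring,
    show l + 1 + (c + l + t) - ((t : ℤ) + 1) = 2 * l + c by ring] at key
  generalize (∏ i ∈ Finset.range t, br q (l - i)) = A
  generalize (∏ i ∈ Finset.range t, br q (c + l + i)) = B
  generalize (∏ i ∈ Finset.range t, br q (y + 1 + i)) = Y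
  generalize (∏ i ∈ Finset.range t, br q ((i : ℤ) + 1)) = D at n1 ⊢
  generalize (∏ i ∈ Finset.range t, br q (u + 1 + i)) = U at n5 ⊢
  generalize (∏ i ∈ Finset.range t, br q (v + 1 + i)) = W at n6 ⊢
  have e1 : br q (l + 1) * br q (c + l + t) =
      br q (l - t) * br q (c + l - 1) + br q ((t : ℤ) + 1) * br q (2 * l + c) := by
    linear_combination key
  rw [show br q (l + 1) * A * (B * br q (c + l + t)) * (br q y * Y) =
    (br q (l + 1) * br q (c + l + t)) * (A * B * (br q y * Y)) by ring, e1]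
  field_simp
  ring

/-- The q-Saalschütz sum. -/
theorem saal {q : ℂ} (hq : q ≠ 0) (l : ℕ) (hb : ∀ i : ℕ, 1 ≤ i → i ≤ l → br q i ≠ 0) (c y u v : ℤ)
    (hv : v = c + y - u) (hu0 : ∀ i : ℕ, i < l → br q (u + i) ≠ 0)
    (hv0 : ∀ i : ℕ, i < l → br q (v + i) ≠ 0) :
    ∑ t ∈ Finset.range (l + 1), (-1) ^ t * ∏ i ∈ Finset.range t,
      (br q ((l : ℤ) - i) * br q (c + l - 1 + i) * br q (y + i) /
        (br q ((i : ℤ) + 1) * br q (u + i) * br q (v + i))) =
    ∏ i ∈ Finset.range l, (br q (u - c - i) * br q (y - u - i) / (br q (u + i) * br q (v + i))) := by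
  change ∑ t ∈ Finset.range (l + 1), B_Saal_F q l c y u v t = _
  induction l generalizing c y u v with
  | zero => simp [B_Saal_F]
  | succ l ih =>
    have h1 := ih (fun i h1 h2 => hb i h1 (by omega)) c y u v hv (fun i hi => hu0 i (by omega))
      (fun i hi => hv0 i (by omega))
    have h2 := ih (fun i h1 h2 => hb i h1 (by omega)) (c + 1) (y + 1) (u + 1) (v + 1)
      (by rw [hv]; ring)
      (fun i hi => by
        have := hu0 (i + 1) (by omega)
        push_cast at this
        rwa [show u + 1 + (i : ℤ) = u + (i + 1) by ring])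
      (fun i hi => by
        have := hv0 (i + 1) (by omega)
        push_cast at this
        rwa [show v + 1 + (i : ℤ) = v + (i + 1) by ring])
    have h3 : ∑ t ∈ Finset.range (l + 1 + 1), B_Saal_F q ((l + 1 : ℕ) : ℤ) c y u v t =
        ∑ t ∈ Finset.range (l + 1 + 1), B_Saal_F q l c y u v t -
        br q (2 * l + c) * br q y / (br q u * br q v) *
          ∑ t ∈ Finset.range (l + 1), B_Saal_F q l (c + 1) (y + 1) (u + 1) (v + 1) t := by
      rw [Finset.sum_range_succ', Finset.sum_range_succ' (fun t => B_Saal_F q l c y u v t),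
        Finset.mul_sum]
      have e0 : B_Saal_F q ((l + 1 : ℕ) : ℤ) c y u v 0 = B_Saal_F q l c y u v 0 := by
        simp [B_Saal_F]
      have e1 : ∑ t ∈ Finset.range (l + 1), B_Saal_F q ((l + 1 : ℕ) : ℤ) c y u v (t + 1) =
          ∑ t ∈ Finset.range (l + 1), (B_Saal_F q l c y u v (t + 1) -
            br q (2 * l + c) * br q y / (br q u * br q v) *
              B_Saal_F q l (c + 1) (y + 1) (u + 1) (v + 1) t) := by
        refine Finset.sum_congr rfl fun t ht => ?_
        have ht' := Finset.mem_range.1 ht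
        push_cast
        refine B_Saal_step hq l c y u v t (fun i hi => ?_) (fun i hi => hu0 i (by omega))
          (fun i hi => hv0 i (by omega))
        have := hb (i + 1) (by omega) (by omega)
        push_cast at this
        exact this
      rw [e0, e1, Finset.sum_sub_distrib]
      ring
    have h4 : B_Saal_F q l c y u v (l + 1) = 0 := by
      unfold B_Saal_F
      rw [Finset.prod_range_succ, sub_self]
      simp [br]
    rw [h3, Finset.sum_range_succ, h4, add_zero, h1, h2, Finset.prod_range_succ]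
    have n1 : ∀ i : ℕ, i ≤ l → br q (u + i) ≠ 0 := fun i hi => hu0 i (by omega)
    have n2 : ∀ i : ℕ, i ≤ l → br q (v + i) ≠ 0 := fun i hi => hv0 i (by omega)
    have e2 : ∏ i ∈ Finset.range l, (br q (u + 1 - (c + 1) - i) * br q (y + 1 - (u + 1) - i) /
        (br q (u + 1 + i) * br q (v + 1 + i))) =
        (∏ i ∈ Finset.range l, (br q (u - c - i) * br q (y - u - i) /
          (br q (u + i) * br q (v + i)))) *
          (br q u * br q v / (br q (u + l) * br q (v + l))) := by
      have tel : ∀ z : ℤ, (∀ i : ℕ, i ≤ l → br q (z + i) ≠ 0) →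
          (∏ i ∈ Finset.range l, br q (z + 1 + i)) * br q z =
            (∏ i ∈ Finset.range l, br q (z + i)) * br q (z + l) := by
        intro z hz
        have a1 : ∏ i ∈ Finset.range (l + 1), br q (z + i) =
            (∏ i ∈ Finset.range l, br q (z + i)) * br q (z + l) := Finset.prod_range_succ _ _
        rw [← a1, Finset.prod_range_succ']
        congr 1
        · refine Finset.prod_congr rfl fun i _ => ?_
          congr 1
          push_cast
          ring
        · push_cast
          rw [add_zero]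
      simp only [Finset.prod_div_distrib, Finset.prod_mul_distrib]
      have t1 := tel u n1
      have t2 := tel v n2
      have m1 : ∏ i ∈ Finset.range l, br q (u + i) ≠ 0 :=
        Finset.prod_ne_zero_iff.2 fun i hi => n1 i (Finset.mem_range.1 hi).le
      have m2 : ∏ i ∈ Finset.range l, br q (v + i) ≠ 0 :=
        Finset.prod_ne_zero_iff.2 fun i hi => n2 i (Finset.mem_range.1 hi).le
      have m3 : ∏ i ∈ Finset.range l, br q (u + 1 + i) ≠ 0 :=
        Finset.prod_ne_zero_iff.2 fun i hi => by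
          have := n1 (i + 1) (Finset.mem_range.1 hi)
          push_cast at this
          rwa [show u + 1 + (i : ℤ) = u + (i + 1) by ring]
      have m4 : ∏ i ∈ Finset.range l, br q (v + 1 + i) ≠ 0 :=
        Finset.prod_ne_zero_iff.2 fun i hi => by
          have := n2 (i + 1) (Finset.mem_range.1 hi)
          push_cast at this
          rwa [show v + 1 + (i : ℤ) = v + (i + 1) by ring]
      have m5 := n1 l le_rfl
      have m6 := n2 l le_rfl
      have c1 : ∏ i ∈ Finset.range l, br q (u + 1 - (c + 1) - i) =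
          ∏ i ∈ Finset.range l, br q (u - c - i) :=
        Finset.prod_congr rfl fun i _ => by congr 1; ring
      have c2 : ∏ i ∈ Finset.range l, br q (y + 1 - (u + 1) - i) =
          ∏ i ∈ Finset.range l, br q (y - u - i) :=
        Finset.prod_congr rfl fun i _ => by congr 1; ring
      rw [c1, c2]
      generalize (∏ i ∈ Finset.range l, br q (u - c - i)) = A
      generalize (∏ i ∈ Finset.range l, br q (y - u - i)) = B
      generalize (∏ i ∈ Finset.range l, br q (u + i)) = U at t1 m1 ⊢
      generalize (∏ i ∈ Finset.range l, br q (v + i)) = W at t2 m2 ⊢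
      generalize (∏ i ∈ Finset.range l, br q (u + 1 + i)) = U' at t1 m3 ⊢
      generalize (∏ i ∈ Finset.range l, br q (v + 1 + i)) = W' at t2 m4 ⊢
      rw [div_mul_div_comm, div_eq_div_iff (mul_ne_zero m3 m4)
        (mul_ne_zero (mul_ne_zero m1 m2) (mul_ne_zero m5 m6))]
      linear_combination (-(A * B) * (br q v * W')) * t1 - (A * B * (U * br q (u + l))) * t2
    rw [e2]
    generalize (∏ i ∈ Finset.range l, (br q (u - c - i) * br q (y - u - i) /
          (br q (u + i) * br q (v + i)))) = P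
    have key := B_Saal_brk hq (u + l) (v + l) (2 * l + c)
    rw [show u + (l : ℤ) - (2 * l + c) = u - c - l by ring,
      show v + (l : ℤ) - (2 * l + c) = y - u - l by rw [hv]; ring,
      show u + (l : ℤ) + (v + l) - (2 * l + c) = y by rw [hv]; ring] at key
    have m5 := n1 l le_rfl
    have m6 := n2 l le_rfl
    have m7 : br q u ≠ 0 := by simpa using n1 0 (Nat.zero_le _)
    have m8 : br q v ≠ 0 := by simpa using n2 0 (Nat.zero_le _)
    have e3 : br q (u - c - l) * br q (y - u - l) =
        br q (u + l) * br q (v + l) - br q (2 * l + c) * br q y := by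
      linear_combination -key
    rw [e3]
    field_simp

/-- The product of the brackets. -/
private noncomputable def B_Saal_bf (q : ℂ) (m : ℕ) : ℂ := ∏ i ∈ Finset.range m, br q ((i : ℤ) + 1)

private theorem B_Saal_bf_succ (q : ℂ) (m : ℕ) :
    B_Saal_bf q (m + 1) = B_Saal_bf q m * br q ((m : ℤ) + 1) := Finset.prod_range_succ _ _

private theorem B_Saal_qf {q : ℂ} (h1 : br q 1 ≠ 0) (m : ℕ) :
    qf q m * br q 1 ^ m = B_Saal_bf q m := by
  induction m with
  | zero => simp [qf, B_Saal_bf]
  | succ m ih =>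
    rw [qf_succ, B_Saal_bf_succ, ← ih, pow_succ]
    unfold qn
    field_simp

private theorem B_Saal_bf_ne {q : ℂ} {n N : ℕ} (hg : Gen q n N) {m : ℕ} (hm : m ≤ 4 * N + 2 * n) :
    B_Saal_bf q m ≠ 0 :=
  Finset.prod_ne_zero_iff.2 fun i hi => by
    have := hg.2 (i + 1) (by omega) (by have := Finset.mem_range.1 hi; omega)
    push_cast at this
    exact this

private theorem B_Saal_qb {q : ℂ} (hq : q ≠ 0) (h1 : br q 1 ≠ 0) {m k : ℕ} (h : k ≤ m) :
    qb q m k * (B_Saal_bf q k * B_Saal_bf q (m - k)) = B_Saal_bf q m := by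
  rw [← B_Saal_qf h1 k, ← B_Saal_qf h1 (m - k), ← B_Saal_qf h1 m, ← qb_fac q hq m k h]
  have e : br q 1 ^ m = br q 1 ^ k * br q 1 ^ (m - k) := by
    rw [← pow_add]
    congr 1
    omega
  rw [e]
  ring

private theorem B_Saal_desc (q : ℂ) (M k : ℕ) (h : k ≤ M) :
    (∏ i ∈ Finset.range k, br q ((M : ℤ) - i)) * B_Saal_bf q (M - k) = B_Saal_bf q M := by
  induction k with
  | zero => simp
  | succ k ih =>
    rw [← ih (by omega), Finset.prod_range_succ]
    have e : M - k = (M - (k + 1)) + 1 := by omega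
    have e1 : (((M - (k + 1) : ℕ) : ℤ) + 1) = (M : ℤ) - k := by omega
    rw [e, B_Saal_bf_succ, e1]
    ring

private theorem B_Saal_asc (q : ℂ) (m k : ℕ) (z : ℤ) (hz : z = m + 1) :
    B_Saal_bf q m * ∏ i ∈ Finset.range k, br q (z + i) = B_Saal_bf q (m + k) := by
  subst hz
  induction k with
  | zero => simp
  | succ k ih =>
    rw [Finset.prod_range_succ, ← mul_assoc, ih, ← add_assoc, B_Saal_bf_succ]
    congr 2
    push_cast
    ring

theorem wk_eq {n N : ℕ} {q : ℂ} (hg : Gen q n N) (hn : 2 ≤ n) {k l : ℕ} (hk : k ≤ N) (hl : l ≤ N) :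
    wk q n N k l = (-1) ^ l * dimS n N q *
      (∏ i ∈ Finset.range k, (br q ((N : ℤ) - i) * br q ((N : ℤ) + n + i) /
        (br q ((i : ℤ) + 1) * br q ((n : ℤ) + i)))) *
      ∏ i ∈ Finset.range l, (br q ((k : ℤ) - i) / br q ((n : ℤ) + k + i)) := by
  unfold wk
  split_ifs with h
  · have h1 : br q 1 ≠ 0 := by simpa using hg.2 1 le_rfl (by omega)
    have hq := hg.1
    have a1 := B_Saal_qb hq h1 (m := N - l) (k := k - l) (by omega)
    have a2 := B_Saal_qb hq h1 (m := N + n + k - 1) (k := N - l) (by omega)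
    have a3 := B_Saal_asc q (n - 1) N n (by omega)
    have a4 := B_Saal_desc q N k hk
    have a5 := B_Saal_asc q (N + n - 1) k (N + n) (by omega)
    have a6 := B_Saal_asc q (n - 1) k n (by omega)
    have a7 := B_Saal_desc q k l h
    have a8 := B_Saal_asc q (n + k - 1) l (n + k) (by omega)
    rw [show N - l - (k - l) = N - k by omega] at a1
    rw [show N + n + k - 1 - (N - l) = n + k + l - 1 by omega] at a2
    rw [show n - 1 + N = N + n - 1 by omega] at a3
    rw [show N + n - 1 + k = N + n + k - 1 by omega] at a5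
    rw [show n - 1 + k = n + k - 1 by omega] at a6
    rw [show n + k - 1 + l = n + k + l - 1 by omega] at a8
    unfold dimS
    simp only [Finset.prod_div_distrib, Finset.prod_mul_distrib]
    have b1 : ∏ i ∈ Finset.range N, br q ((i : ℤ) + 1) = B_Saal_bf q N := rfl
    have b2 : ∏ i ∈ Finset.range k, br q ((i : ℤ) + 1) = B_Saal_bf q k := rfl
    rw [b1, b2]
    have n1 : B_Saal_bf q (k - l) ≠ 0 := B_Saal_bf_ne hg (by omega)
    have n2 : B_Saal_bf q (N - k) ≠ 0 := B_Saal_bf_ne hg (by omega)
    have n3 : B_Saal_bf q (N - l) ≠ 0 := B_Saal_bf_ne hg (by omega)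
    have n4 : B_Saal_bf q (n + k + l - 1) ≠ 0 := B_Saal_bf_ne hg (by omega)
    have n5 : B_Saal_bf q (n - 1) ≠ 0 := B_Saal_bf_ne hg (by omega)
    have n6 : B_Saal_bf q (N + n - 1) ≠ 0 := B_Saal_bf_ne hg (by omega)
    have n7 : B_Saal_bf q (n + k - 1) ≠ 0 := B_Saal_bf_ne hg (by omega)
    have n8 : B_Saal_bf q N ≠ 0 := B_Saal_bf_ne hg (by omega)
    have n9 : B_Saal_bf q k ≠ 0 := B_Saal_bf_ne hg (by omega)
    rw [← eq_div_iff (mul_ne_zero n1 n2)] at a1
    rw [← eq_div_iff (mul_ne_zero n3 n4)] at a2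
    rw [mul_comm, ← eq_div_iff n5] at a3
    rw [← eq_div_iff n2] at a4
    rw [mul_comm, ← eq_div_iff n6] at a5
    rw [mul_comm, ← eq_div_iff n5] at a6
    rw [← eq_div_iff n1] at a7
    rw [mul_comm, ← eq_div_iff n7] at a8
    rw [a1, a2, a3, a4, a5, a6, a7, a8]
    field_simp
  · have e : ∏ i ∈ Finset.range l, (br q ((k : ℤ) - i) / br q ((n : ℤ) + k + i)) = 0 := by
      refine Finset.prod_eq_zero (Finset.mem_range.2 (not_le.1 h)) ?_
      rw [sub_self]
      simp [br]
    rw [e, mul_zero]

end Pool.Agent.S4
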