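import Pool.Agent.S4.B.TSum
import Pool.Agent.S4.B.Saal

/-! # The transform of the basis functions, second form -/

namespace Pool.Agent.S4

open Pool.Agent.H63.VC7 Pool.Agent.H63.VC8 Pool.Agent.H63.VC11 Pool.Agent.H63.VC12

private theorem B_K1m_neg (q : ℂ) (a : ℤ) : br q (-a) = -br q a := by
  simp [br]

/-- Shift of a product of consecutive factors. -/
private theorem B_K1m_shift (f : ℕ → ℂ) (a b : ℕ) :
    (∏ i ∈ Finset.range a, f (b + i)) * ∏ i ∈ Finset.range b, f i =
      (∏ i ∈ Finset.range b, f (a + i)) * ∏ i ∈ Finset.range a, f i := by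
  have h1 := Finset.prod_range_add f b a
  have h2 := Finset.prod_range_add f a b
  rw [add_comm] at h2
  rw [mul_comm, ← h1, mul_comm (∏ i ∈ Finset.range b, f (a + i)), ← h2]

private theorem B_K1m_refl (q : ℂ) (a : ℤ) (t : ℕ) :
    ∏ i ∈ Finset.range t, br q (a - t + i + 1) = ∏ i ∈ Finset.range t, br q (a - i) := by
  rw [← Finset.prod_range_reflect]
  refine Finset.prod_congr rfl fun i hi => ?_
  have hi' := Finset.mem_range.1 hi
  congr 1
  have : ((t - 1 - i : ℕ) : ℤ) = (t : ℤ) - 1 - i := by omega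
  rw [this]
  ring

private theorem B_K1m_dimT {n N t j : ℕ} (hn : 2 ≤ n) (ht : t ≤ N) {q : ℂ}
    (H : ∀ i : ℕ, 1 ≤ i → i ≤ n + t → br q (i : ℤ) ≠ 0) :
    dimT n N q j * ps q (-(N : ℤ)) t j =
      (∏ i ∈ Finset.range t, (br q ((n : ℤ) + i) * br q ((n : ℤ) - 1 + i))) *
        dimT (n + t) (N - t) q j := by
  obtain ⟨m, rfl⟩ : ∃ m, n = m + 2 := ⟨n - 2, by omega⟩
  have h1 : m + 2 - 2 = m := by omega
  have h2 : m + 2 + t - 2 = t + m := by omega
  have h3 : m + 2 - 1 = m + 1 := by omega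
  have h4 : m + 2 + t - 1 = m + 1 + t := by omega
  have hN : ((N - t : ℕ) : ℤ) = (N : ℤ) - t := by omega
  unfold dimT ps
  rw [h1, h2, h3, h4, hN, Finset.prod_range_add _ t m, Finset.prod_range_add _ (m + 1) t,
    add_comm t m, Finset.prod_range_add _ m t]
  have e1 : ∏ x ∈ Finset.range t,
      (br q ((N : ℤ) - t + j + x + 2) * br q ((N : ℤ) - t - j + x + 1)) =
      ∏ i ∈ Finset.range t, (br q (-(N : ℤ) + j + i) * br q (-(N : ℤ) - j - 1 + i)) := by
    rw [Finset.prod_mul_distrib, Finset.prod_mul_distrib]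
    have a1 : ∏ x ∈ Finset.range t, br q ((N : ℤ) - t + j + x + 2) =
        ∏ i ∈ Finset.range t, br q ((N : ℤ) + j + 1 - i) := by
      rw [← B_K1m_refl q ((N : ℤ) + j + 1) t]
      refine Finset.prod_congr rfl fun x _ => ?_
      congr 1
      ring
    have a2 : ∏ x ∈ Finset.range t, br q ((N : ℤ) - t - j + x + 1) =
        ∏ i ∈ Finset.range t, br q ((N : ℤ) - j - i) := by
      rw [← B_K1m_refl q ((N : ℤ) - j) t]
      refine Finset.prod_congr rfl fun x _ => ?_
      congr 1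
      ring
    rw [a1, a2, ← Finset.prod_mul_distrib, ← Finset.prod_mul_distrib]
    refine Finset.prod_congr rfl fun x _ => ?_
    have b1 : -(N : ℤ) + j + x = -((N : ℤ) - j - x) := by ring
    have b2 : -(N : ℤ) - j - 1 + x = -((N : ℤ) + j + 1 - x) := by ring
    rw [b1, b2, B_K1m_neg, B_K1m_neg]
    ring
  have e0 : ∏ x ∈ Finset.range m,
      (br q ((N : ℤ) - t + j + ((t + x : ℕ) : ℤ) + 2) *
        br q ((N : ℤ) - t - j + ((t + x : ℕ) : ℤ) + 1)) =
      ∏ x ∈ Finset.range m, (br q ((N : ℤ) + j + x + 2) * br q ((N : ℤ) - j + x + 1)) := by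
    refine Finset.prod_congr rfl fun x _ => ?_
    congr 2 <;> (push_cast; ring)
  rw [e1, e0]
  have e2 : ∏ x ∈ Finset.range t, br q (((m + 1 + x : ℕ) : ℤ) + 1) =
      ∏ i ∈ Finset.range t, br q (((m + 2 : ℕ) : ℤ) + i) := by
    refine Finset.prod_congr rfl fun x _ => ?_
    congr 1
    push_cast
    ring
  have e3 : ∏ x ∈ Finset.range t, br q (((m + x : ℕ) : ℤ) + 1) =
      ∏ i ∈ Finset.range t, br q (((m + 2 : ℕ) : ℤ) - 1 + i) := by
    refine Finset.prod_congr rfl fun x _ => ?_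
    congr 1
    push_cast
    ring
  rw [e2, e3, Finset.prod_mul_distrib (f := fun i : ℕ => br q (((m + 2 : ℕ) : ℤ) + i))]
  have n1 : ∏ i ∈ Finset.range t, br q (((m + 2 : ℕ) : ℤ) + i) ≠ 0 := by
    refine Finset.prod_ne_zero_iff.2 fun i hi => ?_
    have := H (m + 2 + i) (by omega) (by have := Finset.mem_range.1 hi; omega)
    exact_mod_cast this
  have n2 : ∏ i ∈ Finset.range t, br q (((m + 2 : ℕ) : ℤ) - 1 + i) ≠ 0 := by
    refine Finset.prod_ne_zero_iff.2 fun i hi => ?_
    have := H (m + 1 + i) (by omega) (by have := Finset.mem_range.1 hi; omega)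
    convert this using 2
    push_cast
    ring
  have n3 : ∏ i ∈ Finset.range (m + 1), br q ((i : ℤ) + 1) ≠ 0 := by
    refine Finset.prod_ne_zero_iff.2 fun i hi => ?_
    have := H (i + 1) (by omega) (by have := Finset.mem_range.1 hi; omega)
    exact_mod_cast this
  have n4 : ∏ i ∈ Finset.range m, br q ((i : ℤ) + 1) ≠ 0 := by
    refine Finset.prod_ne_zero_iff.2 fun i hi => ?_
    have := H (i + 1) (by omega) (by have := Finset.mem_range.1 hi; omega)
    exact_mod_cast this
  generalize (∏ i ∈ Finset.range t, br q (((m + 2 : ℕ) : ℤ) + i)) = A at *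
  generalize (∏ i ∈ Finset.range t, br q (((m + 2 : ℕ) : ℤ) - 1 + i)) = B at *
  generalize (∏ i ∈ Finset.range (m + 1), br q ((i : ℤ) + 1)) = C at *
  generalize (∏ i ∈ Finset.range m, br q ((i : ℤ) + 1)) = D at *
  field_simp

private theorem B_K1m_ps_zero {N t j : ℕ} (q : ℂ) (hj : j ≤ N) (h : N - t < j) :
    ps q (-(N : ℤ)) t j = 0 := by
  unfold ps
  refine Finset.prod_eq_zero (i := N - j) (Finset.mem_range.2 (by omega)) ?_
  have : -(N : ℤ) + j + ((N - j : ℕ) : ℤ) = 0 := by omega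
  rw [this]
  simp [br]

private theorem B_K1m_dimS {n N t : ℕ} (ht : t ≤ N) (hn : 2 ≤ n) {q : ℂ}
    (H : ∀ i : ℕ, 1 ≤ i → i ≤ n + N + t → br q (i : ℤ) ≠ 0) :
    dimS (n + t) (N - t) q = dimS n N q *
      ∏ i ∈ Finset.range t, (br q ((N : ℤ) - i) / br q ((n : ℤ) + i)) := by
  unfold dimS
  rw [Finset.prod_div_distrib, Finset.prod_div_distrib, Finset.prod_div_distrib]
  obtain ⟨s, rfl⟩ : ∃ s, N = t + s := ⟨N - t, by omega⟩
  have h0 : t + s - t = s := by omega
  rw [h0, Finset.prod_range_add _ t s]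
  have e1 : ∏ i ∈ Finset.range s, br q (((n + t : ℕ) : ℤ) + i) =
      ∏ i ∈ Finset.range s, br q ((n : ℤ) + ((t + i : ℕ) : ℤ)) := by
    refine Finset.prod_congr rfl fun x _ => ?_
    congr 1
    push_cast
    ring
  have e2 : ∏ i ∈ Finset.range (t + s), br q ((i : ℤ) + 1) =
      (∏ i ∈ Finset.range s, br q ((i : ℤ) + 1)) *
        ∏ i ∈ Finset.range t, br q (((t + s : ℕ) : ℤ) - i) := by
    rw [add_comm t s, Finset.prod_range_add _ s t, ← B_K1m_refl]
    congr 1
    refine Finset.prod_congr rfl fun x _ => ?_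
    congr 1
    push_cast
    ring
  rw [e1, e2]
  have n1 : ∏ i ∈ Finset.range t, br q ((n : ℤ) + i) ≠ 0 := by
    refine Finset.prod_ne_zero_iff.2 fun i hi => ?_
    have := H (n + i) (by omega) (by have := Finset.mem_range.1 hi; omega)
    exact_mod_cast this
  have n2 : ∏ i ∈ Finset.range s, br q ((i : ℤ) + 1) ≠ 0 := by
    refine Finset.prod_ne_zero_iff.2 fun i hi => ?_
    have := H (i + 1) (by omega) (by have := Finset.mem_range.1 hi; omega)
    exact_mod_cast this
  have n3 : ∏ i ∈ Finset.range t, br q (((t + s : ℕ) : ℤ) - i) ≠ 0 := by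
    refine Finset.prod_ne_zero_iff.2 fun i hi => ?_
    have hi' := Finset.mem_range.1 hi
    have := H (t + s - i) (by omega) (by omega)
    have e : (((t + s - i : ℕ)) : ℤ) = ((t + s : ℕ) : ℤ) - i := by omega
    rwa [e] at this
  generalize (∏ i ∈ Finset.range t, br q ((n : ℤ) + i)) = A at *
  generalize (∏ i ∈ Finset.range s, br q ((i : ℤ) + 1)) = B at *
  generalize (∏ i ∈ Finset.range t, br q (((t + s : ℕ) : ℤ) - i)) = C at *
  field_simp

private theorem B_K1m_kprod {n N t k : ℕ} (ht : t ≤ N) (hn : 2 ≤ n) {q : ℂ}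
    (H : ∀ i : ℕ, 1 ≤ i → i ≤ n + N + t + k → br q (i : ℤ) ≠ 0) :
    ∏ i ∈ Finset.range k, (br q (((N - t : ℕ) : ℤ) - i) *
        br q (((N - t : ℕ) : ℤ) + ((n + t : ℕ) : ℤ) + i) /
        (br q ((i : ℤ) + 1) * br q (((n + t : ℕ) : ℤ) + i))) =
    (∏ i ∈ Finset.range k, (br q ((N : ℤ) - i) * br q ((N : ℤ) + n + i) /
        (br q ((i : ℤ) + 1) * br q ((n : ℤ) + i)))) *
      ∏ i ∈ Finset.range t, ((br q ((N : ℤ) - k - i) / br q ((N : ℤ) - i)) *
        (br q ((n : ℤ) + i) / br q ((n : ℤ) + k + i))) := by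
  simp only [Finset.prod_div_distrib, Finset.prod_mul_distrib]
  have h1 := B_K1m_shift (fun i => br q ((n : ℤ) + i)) k t
  have h2 := B_K1m_shift (fun i => br q ((N : ℤ) - i)) k t
  have e1 : ∏ i ∈ Finset.range k, br q (((n + t : ℕ) : ℤ) + i) =
      ∏ i ∈ Finset.range k, br q ((n : ℤ) + ((t + i : ℕ) : ℤ)) := by
    refine Finset.prod_congr rfl fun x _ => ?_
    congr 1
    push_cast
    ring
  have e2 : ∏ i ∈ Finset.range t, br q ((n : ℤ) + k + i) =
      ∏ i ∈ Finset.range t, br q ((n : ℤ) + ((k + i : ℕ) : ℤ)) := by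
    refine Finset.prod_congr rfl fun x _ => ?_
    congr 1
    push_cast
    ring
  have e3 : ∏ i ∈ Finset.range k, br q (((N - t : ℕ) : ℤ) - i) =
      ∏ i ∈ Finset.range k, br q ((N : ℤ) - ((t + i : ℕ) : ℤ)) := by
    refine Finset.prod_congr rfl fun x _ => ?_
    congr 1
    omega
  have e4 : ∏ i ∈ Finset.range t, br q ((N : ℤ) - k - i) =
      ∏ i ∈ Finset.range t, br q ((N : ℤ) - ((k + i : ℕ) : ℤ)) := by
    refine Finset.prod_congr rfl fun x _ => ?_
    congr 1
    push_cast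
    ring
  have e5 : ∏ i ∈ Finset.range k, br q (((N - t : ℕ) : ℤ) + ((n + t : ℕ) : ℤ) + i) =
      ∏ i ∈ Finset.range k, br q ((N : ℤ) + n + i) := by
    refine Finset.prod_congr rfl fun x _ => ?_
    congr 1
    omega
  rw [e1, e2, e3, e4, e5]
  have n1 : ∀ s : ℕ, s ≤ k + t → ∏ i ∈ Finset.range s, br q ((n : ℤ) + i) ≠ 0 := by
    intro s hs
    refine Finset.prod_ne_zero_iff.2 fun i hi => ?_
    have := H (n + i) (by omega) (by have := Finset.mem_range.1 hi; omega)
    exact_mod_cast this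
  have n2 : ∏ i ∈ Finset.range t, br q ((N : ℤ) - i) ≠ 0 := by
    refine Finset.prod_ne_zero_iff.2 fun i hi => ?_
    have hi' := Finset.mem_range.1 hi
    have := H (N - i) (by omega) (by omega)
    have e : (((N - i : ℕ)) : ℤ) = (N : ℤ) - i := by omega
    rwa [e] at this
  have n3 : ∏ i ∈ Finset.range k, br q ((i : ℤ) + 1) ≠ 0 := by
    refine Finset.prod_ne_zero_iff.2 fun i hi => ?_
    have := H (i + 1) (by omega) (by have := Finset.mem_range.1 hi; omega)
    exact_mod_cast this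
  have n4 : ∏ i ∈ Finset.range k, br q ((n : ℤ) + ((t + i : ℕ) : ℤ)) ≠ 0 := by
    refine Finset.prod_ne_zero_iff.2 fun i hi => ?_
    have := H (n + (t + i)) (by omega) (by have := Finset.mem_range.1 hi; omega)
    exact_mod_cast this
  have n5 : ∏ i ∈ Finset.range t, br q ((n : ℤ) + ((k + i : ℕ) : ℤ)) ≠ 0 := by
    refine Finset.prod_ne_zero_iff.2 fun i hi => ?_
    have := H (n + (k + i)) (by omega) (by have := Finset.mem_range.1 hi; omega)
    exact_mod_cast this
  have m1 := n1 k (by omega)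
  have m2 := n1 t (by omega)
  have m3 := n2
  beta_reduce at h1 h2
  generalize (∏ i ∈ Finset.range k, br q ((n : ℤ) + i)) = A1 at *
  generalize (∏ i ∈ Finset.range t, br q ((n : ℤ) + i)) = A2 at *
  generalize (∏ i ∈ Finset.range k, br q ((n : ℤ) + ((t + i : ℕ) : ℤ))) = A3 at *
  generalize (∏ i ∈ Finset.range t, br q ((n : ℤ) + ((k + i : ℕ) : ℤ))) = A4 at *
  generalize (∏ i ∈ Finset.range k, br q ((N : ℤ) - i)) = B1 at *
  generalize (∏ i ∈ Finset.range t, br q ((N : ℤ) - i)) = B2 at *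
  generalize (∏ i ∈ Finset.range k, br q ((N : ℤ) - ((t + i : ℕ) : ℤ))) = B3 at *
  generalize (∏ i ∈ Finset.range t, br q ((N : ℤ) - ((k + i : ℕ) : ℤ))) = B4 at *
  generalize (∏ i ∈ Finset.range k, br q ((i : ℤ) + 1)) = C at *
  generalize (∏ i ∈ Finset.range k, br q ((N : ℤ) + n + i)) = D at *
  have a3 : A3 = A4 * A1 / A2 := by
    rw [eq_div_iff m2]; exact h1
  have b3 : B3 = B4 * B1 / B2 := by
    rw [eq_div_iff m3]; exact h2
  rw [a3, b3]
  field_simp

theorem k1m {n N : ℕ} {q : ℂ} (hg : Gen q n N) (hn : 2 ≤ n) {k l : ℕ} (hk : k ≤ N) (hl : l ≤ N) :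
    Ro n q N (-(N : ℤ)) (LE q k) l = wk q n N k l := by
  obtain ⟨hq, hb⟩ := hg
  have hS : dimS n N q ≠ 0 := by
    unfold dimS
    refine Finset.prod_ne_zero_iff.2 fun i hi => ?_
    have hi' := Finset.mem_range.1 hi
    refine div_ne_zero ?_ ?_
    · have := hb (n + i) (by omega) (by omega)
      exact_mod_cast this
    · have := hb (i + 1) (by omega) (by omega)
      exact_mod_cast this
  have hNi : ∀ i : ℕ, i < N → br q ((N : ℤ) - i) ≠ 0 := by
    intro i hi
    have := hb (N - i) (by omega) (by omega)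
    have e : (((N - i : ℕ)) : ℤ) = (N : ℤ) - i := by omega
    rwa [e] at this
  have hneg : ∀ i : ℕ, br q (-(N : ℤ) + i) = -br q ((N : ℤ) - i) := by
    intro i
    rw [← B_K1m_neg]
    congr 1
    ring
  -- the sum over `j` for every `t`
  have key : ∀ t ≤ N, ∑ j ∈ Finset.range (N + 1),
      dimT n N q j * ps q (-(N : ℤ)) t j * LE q k j =
      dimS n N q ^ 2 * (∏ i ∈ Finset.range k, (br q ((N : ℤ) - i) * br q ((N : ℤ) + n + i) /
        (br q ((i : ℤ) + 1) * br q ((n : ℤ) + i)))) *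
      ∏ i ∈ Finset.range t, (br q ((n : ℤ) - 1 + i) * br q ((N : ℤ) - i) *
        br q ((N : ℤ) - k - i) / br q ((n : ℤ) + k + i)) := by
    intro t ht
    have h0 : ∑ j ∈ Finset.range (N + 1), dimT n N q j * ps q (-(N : ℤ)) t j * LE q k j =
        ∑ j ∈ Finset.range (N - t + 1), dimT n N q j * ps q (-(N : ℤ)) t j * LE q k j := by
      symm
      refine Finset.sum_subset (Finset.range_mono (by omega)) ?_
      intro j hj hj2
      rw [Finset.mem_range] at hj hj2
      rw [B_K1m_ps_zero q (by omega) (by omega), mul_zero, zero_mul]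
    have h1 : ∑ j ∈ Finset.range (N - t + 1), dimT n N q j * ps q (-(N : ℤ)) t j * LE q k j =
        (∏ i ∈ Finset.range t, (br q ((n : ℤ) + i) * br q ((n : ℤ) - 1 + i))) *
          ∑ j ∈ Finset.range (N - t + 1), dimT (n + t) (N - t) q j * LE q k j := by
      rw [Finset.mul_sum]
      refine Finset.sum_congr rfl fun j _ => ?_
      rw [B_K1m_dimT hn ht (fun i h1 h2 => hb i h1 (by omega)), mul_assoc]
    rw [h0, h1, t_sum (by omega : 2 ≤ n + t) hq k (fun i h1 h2 => hb i h1 (by omega)),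
      B_K1m_dimS ht hn (fun i h1 h2 => hb i h1 (by omega)),
      B_K1m_kprod ht hn (fun i h1 h2 => hb i h1 (by omega)), mul_pow, ← Finset.prod_pow]
    have h2 : ∏ i ∈ Finset.range t, (br q ((n : ℤ) - 1 + i) * br q ((N : ℤ) - i) *
        br q ((N : ℤ) - k - i) / br q ((n : ℤ) + k + i)) =
        (∏ i ∈ Finset.range t, (br q ((n : ℤ) + i) * br q ((n : ℤ) - 1 + i))) *
        (∏ i ∈ Finset.range t, (br q ((N : ℤ) - i) / br q ((n : ℤ) + i)) ^ 2) *
        ∏ i ∈ Finset.range t, ((br q ((N : ℤ) - k - i) / br q ((N : ℤ) - i)) *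
          (br q ((n : ℤ) + i) / br q ((n : ℤ) + k + i))) := by
      rw [← Finset.prod_mul_distrib, ← Finset.prod_mul_distrib]
      refine Finset.prod_congr rfl fun i hi => ?_
      have hi' := Finset.mem_range.1 hi
      have x1 : br q ((n : ℤ) + i) ≠ 0 := by
        have := hb (n + i) (by omega) (by omega)
        exact_mod_cast this
      have x2 : br q ((N : ℤ) - i) ≠ 0 := hNi i (by omega)
      have x3 : br q ((n : ℤ) + k + i) ≠ 0 := by
        have := hb (n + k + i) (by omega) (by omega)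
        exact_mod_cast this
      field_simp
    rw [h2]
    ring
  -- exchange the sums
  have hRo : Ro n q N (-(N : ℤ)) (LE q k) l =
      (∏ i ∈ Finset.range l, (br q (-(N : ℤ) + i) / br q ((n : ℤ) - -(N : ℤ) + i))) /
        dimS n N q * ∑ t ∈ Finset.range (N + 1), (-1) ^ t * pa q n t l /
          (∏ i ∈ Finset.range t, (br q ((i : ℤ) + 1) * br q ((n : ℤ) + i - 1) *
            br q (-(N : ℤ) + i) ^ 2)) *
          ∑ j ∈ Finset.range (N + 1), dimT n N q j * ps q (-(N : ℤ)) t j * LE q k j := by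
    unfold Ro six
    simp only [Finset.mul_sum, Finset.sum_mul]
    rw [Finset.sum_comm]
    refine Finset.sum_congr rfl fun t _ => Finset.sum_congr rfl fun j _ => ?_
    ring
  have hterm : ∀ t ∈ Finset.range (N + 1), (-1) ^ t * pa q n t l /
          (∏ i ∈ Finset.range t, (br q ((i : ℤ) + 1) * br q ((n : ℤ) + i - 1) *
            br q (-(N : ℤ) + i) ^ 2)) *
          ∑ j ∈ Finset.range (N + 1), dimT n N q j * ps q (-(N : ℤ)) t j * LE q k j =
      dimS n N q ^ 2 * (∏ i ∈ Finset.range k, (br q ((N : ℤ) - i) * br q ((N : ℤ) + n + i) /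
        (br q ((i : ℤ) + 1) * br q ((n : ℤ) + i)))) *
      ((-1) ^ t * ∏ i ∈ Finset.range t,
      (br q ((l : ℤ) - i) * br q ((n : ℤ) + l - 1 + i) * br q ((k : ℤ) - N + i) /
        (br q ((i : ℤ) + 1) * br q (-(N : ℤ) + i) * br q ((n : ℤ) + k + i)))) := by
    intro t ht
    have ht' := Finset.mem_range.1 ht
    rw [key t (by omega)]
    have h3 : ∏ i ∈ Finset.range t,
      (br q ((l : ℤ) - i) * br q ((n : ℤ) + l - 1 + i) * br q ((k : ℤ) - N + i) /
        (br q ((i : ℤ) + 1) * br q (-(N : ℤ) + i) * br q ((n : ℤ) + k + i))) =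
        pa q n t l / (∏ i ∈ Finset.range t, (br q ((i : ℤ) + 1) * br q ((n : ℤ) + i - 1) *
            br q (-(N : ℤ) + i) ^ 2)) *
        ∏ i ∈ Finset.range t, (br q ((n : ℤ) - 1 + i) * br q ((N : ℤ) - i) *
        br q ((N : ℤ) - k - i) / br q ((n : ℤ) + k + i)) := by
      unfold pa
      rw [← Finset.prod_div_distrib, ← Finset.prod_mul_distrib]
      refine Finset.prod_congr rfl fun i hi => ?_
      have hi' := Finset.mem_range.1 hi
      have x1 : br q ((n : ℤ) - 1 + i) ≠ 0 := by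
        have := hb (n - 1 + i) (by omega) (by omega)
        have e : (((n - 1 + i : ℕ)) : ℤ) = (n : ℤ) - 1 + i := by omega
        rwa [e] at this
      have x2 : br q ((N : ℤ) - i) ≠ 0 := hNi i (by omega)
      have x3 : br q ((n : ℤ) + k + i) ≠ 0 := by
        have := hb (n + k + i) (by omega) (by omega)
        exact_mod_cast this
      have x4 : br q ((i : ℤ) + 1) ≠ 0 := by
        have := hb (i + 1) (by omega) (by omega)
        exact_mod_cast this
      have y1 : (n : ℤ) + i - 1 = (n : ℤ) - 1 + i := by ring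
      have y2 : (n : ℤ) + l + i - 1 = (n : ℤ) + l - 1 + i := by ring
      have y3 : (k : ℤ) - N + i = -((N : ℤ) - k - i) := by ring
      rw [y1, y2, y3, hneg, B_K1m_neg]
      field_simp
    rw [h3]
    ring
  rw [hRo, Finset.sum_congr rfl hterm, ← Finset.mul_sum]
  -- only `t ≤ l` contributes
  have hsum : ∑ t ∈ Finset.range (N + 1), ((-1 : ℂ) ^ t * ∏ i ∈ Finset.range t,
      (br q ((l : ℤ) - i) * br q ((n : ℤ) + l - 1 + i) * br q ((k : ℤ) - N + i) /
        (br q ((i : ℤ) + 1) * br q (-(N : ℤ) + i) * br q ((n : ℤ) + k + i)))) =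
      ∏ i ∈ Finset.range l, (br q (-(N : ℤ) - n - i) * br q ((k : ℤ) - i) /
        (br q (-(N : ℤ) + i) * br q ((n : ℤ) + k + i))) := by
    have hs := saal hq l (fun i h1 h2 => hb i h1 (by omega)) (n : ℤ) ((k : ℤ) - N)
      (-(N : ℤ)) ((n : ℤ) + k) (by ring)
      (fun i hi => by
        rw [hneg]
        exact neg_ne_zero.2 (hNi i (by omega)))
      (fun i hi => by
        have := hb (n + k + i) (by omega) (by omega)
        exact_mod_cast this)
    have e1 : ∏ i ∈ Finset.range l, (br q (-(N : ℤ) - n - i) * br q ((k : ℤ) - N - -(N : ℤ) - i) /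
        (br q (-(N : ℤ) + i) * br q ((n : ℤ) + k + i))) =
        ∏ i ∈ Finset.range l, (br q (-(N : ℤ) - n - i) * br q ((k : ℤ) - i) /
        (br q (-(N : ℤ) + i) * br q ((n : ℤ) + k + i))) := by
      refine Finset.prod_congr rfl fun i _ => ?_
      have z2 : (k : ℤ) - N - -(N : ℤ) - i = (k : ℤ) - i := by ring
      rw [z2]
    rw [← e1, ← hs]
    symm
    refine Finset.sum_subset (Finset.range_mono (by omega)) ?_
    intro t _ ht2
    have hlt : l < t := by
      rw [Finset.mem_range] at ht2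
      omega
    have hz : ∏ i ∈ Finset.range t,
      (br q ((l : ℤ) - i) * br q ((n : ℤ) + l - 1 + i) * br q ((k : ℤ) - N + i) /
        (br q ((i : ℤ) + 1) * br q (-(N : ℤ) + i) * br q ((n : ℤ) + k + i))) = 0 := by
      refine Finset.prod_eq_zero (Finset.mem_range.2 hlt) ?_
      simp [br]
    rw [hz, mul_zero]
  rw [hsum, wk_eq ⟨hq, hb⟩ hn hk hl]
  have hpre : (∏ i ∈ Finset.range l, (br q (-(N : ℤ) + i) / br q ((n : ℤ) - -(N : ℤ) + i))) *
      ∏ i ∈ Finset.range l, (br q (-(N : ℤ) - n - i) * br q ((k : ℤ) - i) /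
        (br q (-(N : ℤ) + i) * br q ((n : ℤ) + k + i))) =
      (-1) ^ l * ∏ i ∈ Finset.range l, (br q ((k : ℤ) - i) / br q ((n : ℤ) + k + i)) := by
    rw [← Finset.prod_mul_distrib]
    have : ((-1 : ℂ)) ^ l = ∏ _i ∈ Finset.range l, (-1 : ℂ) := by simp
    rw [this, ← Finset.prod_mul_distrib]
    refine Finset.prod_congr rfl fun i hi => ?_
    have hi' := Finset.mem_range.1 hi
    have x2 : br q ((N : ℤ) + n + i) ≠ 0 := by
      have := hb (N + n + i) (by omega) (by omega)
      exact_mod_cast this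
    have x3 : br q ((n : ℤ) + k + i) ≠ 0 := by
      have := hb (n + k + i) (by omega) (by omega)
      exact_mod_cast this
    have x4 : br q ((N : ℤ) - i) ≠ 0 := hNi i (by omega)
    have z1 : (n : ℤ) - -(N : ℤ) + i = (N : ℤ) + n + i := by ring
    have z2 : -(N : ℤ) - n - i = -((N : ℤ) + n + i) := by ring
    rw [z1, z2, hneg, B_K1m_neg]
    field_simp
  have hfin : ∀ P S K R W : ℂ, S ≠ 0 → P * R = (-1) ^ l * W →
      P / S * (S ^ 2 * K * R) = (-1) ^ l * S * K * W := by
    intro P S K R W hS h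
    field_simp
    linear_combination K * h
  exact hfin _ _ _ _ _ hS hpre

end Pool.Agent.S4
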