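import Pool.Agent.S4.B.TSum
import Pool.Agent.S4.B.Saal

/-! # The transform of the basis functions, first form -/

namespace Pool.Agent.S4

open Pool.Agent.H63.VC7 Pool.Agent.H63.VC8 Pool.Agent.H63.VC11 Pool.Agent.H63.VC12

private theorem B_K1p_neg (q : ℂ) (a : ℤ) : br q (-a) = -br q a := by
  simp [br]

private theorem B_K1p_dimT {n N t j : ℕ} (hn : 2 ≤ n) {q : ℂ}
    (H : ∀ i : ℕ, 1 ≤ i → i ≤ n + t → br q (i : ℤ) ≠ 0) :
    dimT n N q j * ps q ((N : ℤ) + n) t j =
      (∏ i ∈ Finset.range t, (br q ((n : ℤ) + i) * br q ((n : ℤ) - 1 + i))) *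
        dimT (n + t) N q j := by
  obtain ⟨m, rfl⟩ : ∃ m, n = m + 2 := ⟨n - 2, by omega⟩
  have h1 : m + 2 - 2 = m := by omega
  have h2 : m + 2 + t - 2 = m + t := by omega
  have h3 : m + 2 - 1 = m + 1 := by omega
  have h4 : m + 2 + t - 1 = m + 1 + t := by omega
  unfold dimT ps
  rw [h1, h2, h3, h4, Finset.prod_range_add _ m t, Finset.prod_range_add _ (m + 1) t,
    Finset.prod_range_add _ m t]
  have e1 : ∀ x ∈ Finset.range t,
      br q ((N : ℤ) + j + ((m + x : ℕ) : ℤ) + 2) * br q ((N : ℤ) - j + ((m + x : ℕ) : ℤ) + 1) =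
      br q ((N : ℤ) + ((m + 2 : ℕ) : ℤ) + j + x) *
        br q ((N : ℤ) + ((m + 2 : ℕ) : ℤ) - j - 1 + x) := by
    intro x _
    congr 2 <;> (push_cast; ring)
  rw [Finset.prod_congr rfl e1]
  have e2 : ∏ x ∈ Finset.range t, br q (((m + 1 + x : ℕ) : ℤ) + 1) =
      ∏ i ∈ Finset.range t, br q (((m + 2 : ℕ) : ℤ) + i) := by
    refine Finset.prod_congr rfl fun x _ => ?_
    congr 1
    push_cast
    ring
  have e3 : ∏ x ∈ Finset.range t, br q (((m + x : ℕ) : ℤ) + 1) =
      ∏ i ∈ Finset.range t, br q (((m + 2 : ℕ) : ℤ) - 1 + i) := by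
    refine Finset.prod_congr rfl fun x _ => ?_
    congr 1
    push_cast
    ring
  rw [e2, e3, Finset.prod_mul_distrib (f := fun i : ℕ => br q (((m + 2 : ℕ) : ℤ) + i))]
  have n1 : ∏ i ∈ Finset.range t, br q (((m + 2 : ℕ) : ℤ) + i) ≠ 0 := by
    refine Finset.prod_ne_zero_iff.2 fun i hi => ?_
    have := H (m + 2 + i) (by omega) (by have := Finset.mem_range.1 hi; omega)
    exact_mod_cast this
  have n2 : ∏ i ∈ Finset.range t, br q (((m + 2 : ℕ) : ℤ) - 1 + i) ≠ 0 := by
    refine Finset.prod_ne_zero_iff.2 fun i hi => ?_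
    have := H (m + 1 + i) (by omega) (by have := Finset.mem_range.1 hi; omega)
    convert this using 2
    push_cast
    ring
  have n3 : ∏ i ∈ Finset.range (m + 1), br q ((i : ℤ) + 1) ≠ 0 := by
    refine Finset.prod_ne_zero_iff.2 fun i hi => ?_
    have := H (i + 1) (by omega) (by have := Finset.mem_range.1 hi; omega)
    exact_mod_cast this
  have n4 : ∏ i ∈ Finset.range m, br q ((i : ℤ) + 1) ≠ 0 := by
    refine Finset.prod_ne_zero_iff.2 fun i hi => ?_
    have := H (i + 1) (by omega) (by have := Finset.mem_range.1 hi; omega)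
    exact_mod_cast this
  generalize (∏ i ∈ Finset.range t, br q (((m + 2 : ℕ) : ℤ) + i)) = A at *
  generalize (∏ i ∈ Finset.range t, br q (((m + 2 : ℕ) : ℤ) - 1 + i)) = B at *
  generalize (∏ i ∈ Finset.range (m + 1), br q ((i : ℤ) + 1)) = C at *
  generalize (∏ i ∈ Finset.range m, br q ((i : ℤ) + 1)) = D at *
  field_simp

/-- Shift of a product of consecutive factors. -/
private theorem B_K1p_shift (f : ℕ → ℂ) (a b : ℕ) :
    (∏ i ∈ Finset.range a, f (b + i)) * ∏ i ∈ Finset.range b, f i =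
      (∏ i ∈ Finset.range b, f (a + i)) * ∏ i ∈ Finset.range a, f i := by
  have h1 := Finset.prod_range_add f b a
  have h2 := Finset.prod_range_add f a b
  rw [add_comm] at h2
  rw [mul_comm, ← h1, mul_comm (∏ i ∈ Finset.range b, f (a + i)), ← h2]

private theorem B_K1p_dimS {n N t : ℕ} (hn : 2 ≤ n) {q : ℂ}
    (H : ∀ i : ℕ, 1 ≤ i → i ≤ n + N + t → br q (i : ℤ) ≠ 0) :
    dimS (n + t) N q = dimS n N q *
      ∏ i ∈ Finset.range t, (br q ((N : ℤ) + n + i) / br q ((n : ℤ) + i)) := by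
  unfold dimS
  rw [Finset.prod_div_distrib, Finset.prod_div_distrib, Finset.prod_div_distrib]
  have h := B_K1p_shift (fun i => br q ((n : ℤ) + i)) N t
  have e1 : ∏ i ∈ Finset.range N, br q (((n + t : ℕ) : ℤ) + i) =
      ∏ i ∈ Finset.range N, br q ((n : ℤ) + ((t + i : ℕ) : ℤ)) := by
    refine Finset.prod_congr rfl fun x _ => ?_
    congr 1
    push_cast
    ring
  have e2 : ∏ i ∈ Finset.range t, br q ((N : ℤ) + n + i) =
      ∏ i ∈ Finset.range t, br q ((n : ℤ) + ((N + i : ℕ) : ℤ)) := by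
    refine Finset.prod_congr rfl fun x _ => ?_
    congr 1
    push_cast
    ring
  rw [e1, e2]
  have n1 : ∏ i ∈ Finset.range t, br q ((n : ℤ) + i) ≠ 0 := by
    refine Finset.prod_ne_zero_iff.2 fun i hi => ?_
    have := H (n + i) (by omega) (by have := Finset.mem_range.1 hi; omega)
    exact_mod_cast this
  have n2 : ∏ i ∈ Finset.range N, br q ((i : ℤ) + 1) ≠ 0 := by
    refine Finset.prod_ne_zero_iff.2 fun i hi => ?_
    have := H (i + 1) (by omega) (by have := Finset.mem_range.1 hi; omega)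
    exact_mod_cast this
  rw [div_mul_div_comm, div_eq_div_iff n2 (mul_ne_zero n2 n1)]
  linear_combination (∏ i ∈ Finset.range N, br q ((i : ℤ) + 1)) * h

private theorem B_K1p_kprod {n N t k : ℕ} (hn : 2 ≤ n) {q : ℂ}
    (H : ∀ i : ℕ, 1 ≤ i → i ≤ n + N + t + k → br q (i : ℤ) ≠ 0) :
    ∏ i ∈ Finset.range k, (br q ((N : ℤ) - i) * br q ((N : ℤ) + ((n + t : ℕ) : ℤ) + i) /
        (br q ((i : ℤ) + 1) * br q (((n + t : ℕ) : ℤ) + i))) =
    (∏ i ∈ Finset.range k, (br q ((N : ℤ) - i) * br q ((N : ℤ) + n + i) /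
        (br q ((i : ℤ) + 1) * br q ((n : ℤ) + i)))) *
      ∏ i ∈ Finset.range t, ((br q ((N : ℤ) + n + k + i) / br q ((N : ℤ) + n + i)) *
        (br q ((n : ℤ) + i) / br q ((n : ℤ) + k + i))) := by
  simp only [Finset.prod_div_distrib, Finset.prod_mul_distrib]
  have h1 := B_K1p_shift (fun i => br q ((n : ℤ) + i)) k t
  have h2 := B_K1p_shift (fun i => br q ((N : ℤ) + n + i)) k t
  have e1 : ∏ i ∈ Finset.range k, br q (((n + t : ℕ) : ℤ) + i) =
      ∏ i ∈ Finset.range k, br q ((n : ℤ) + ((t + i : ℕ) : ℤ)) := by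
    refine Finset.prod_congr rfl fun x _ => ?_
    congr 1
    push_cast
    ring
  have e2 : ∏ i ∈ Finset.range t, br q ((n : ℤ) + k + i) =
      ∏ i ∈ Finset.range t, br q ((n : ℤ) + ((k + i : ℕ) : ℤ)) := by
    refine Finset.prod_congr rfl fun x _ => ?_
    congr 1
    push_cast
    ring
  have e3 : ∏ i ∈ Finset.range k, br q ((N : ℤ) + ((n + t : ℕ) : ℤ) + i) =
      ∏ i ∈ Finset.range k, br q ((N : ℤ) + n + ((t + i : ℕ) : ℤ)) := by
    refine Finset.prod_congr rfl fun x _ => ?_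
    congr 1
    push_cast
    ring
  have e4 : ∏ i ∈ Finset.range t, br q ((N : ℤ) + n + k + i) =
      ∏ i ∈ Finset.range t, br q ((N : ℤ) + n + ((k + i : ℕ) : ℤ)) := by
    refine Finset.prod_congr rfl fun x _ => ?_
    congr 1
    push_cast
    ring
  rw [e1, e2, e3, e4]
  have n1 : ∀ s : ℕ, s ≤ k + t → ∏ i ∈ Finset.range s, br q ((n : ℤ) + i) ≠ 0 := by
    intro s hs
    refine Finset.prod_ne_zero_iff.2 fun i hi => ?_
    have := H (n + i) (by omega) (by have := Finset.mem_range.1 hi; omega)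
    exact_mod_cast this
  have n2 : ∀ s : ℕ, s ≤ k + t → ∏ i ∈ Finset.range s, br q ((N : ℤ) + n + i) ≠ 0 := by
    intro s hs
    refine Finset.prod_ne_zero_iff.2 fun i hi => ?_
    have := H (N + n + i) (by omega) (by have := Finset.mem_range.1 hi; omega)
    exact_mod_cast this
  have n3 : ∏ i ∈ Finset.range k, br q ((i : ℤ) + 1) ≠ 0 := by
    refine Finset.prod_ne_zero_iff.2 fun i hi => ?_
    have := H (i + 1) (by omega) (by have := Finset.mem_range.1 hi; omega)
    exact_mod_cast this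
  have n4 : ∏ i ∈ Finset.range k, br q ((n : ℤ) + ((t + i : ℕ) : ℤ)) ≠ 0 := by
    refine Finset.prod_ne_zero_iff.2 fun i hi => ?_
    have := H (n + (t + i)) (by omega) (by have := Finset.mem_range.1 hi; omega)
    exact_mod_cast this
  have n5 : ∏ i ∈ Finset.range t, br q ((n : ℤ) + ((k + i : ℕ) : ℤ)) ≠ 0 := by
    refine Finset.prod_ne_zero_iff.2 fun i hi => ?_
    have := H (n + (k + i)) (by omega) (by have := Finset.mem_range.1 hi; omega)
    exact_mod_cast this
  have m1 := n1 k (by omega)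
  have m2 := n1 t (by omega)
  have m3 := n2 t (by omega)
  beta_reduce at h1 h2
  generalize (∏ i ∈ Finset.range k, br q ((n : ℤ) + i)) = A1 at *
  generalize (∏ i ∈ Finset.range t, br q ((n : ℤ) + i)) = A2 at *
  generalize (∏ i ∈ Finset.range k, br q ((n : ℤ) + ((t + i : ℕ) : ℤ))) = A3 at *
  generalize (∏ i ∈ Finset.range t, br q ((n : ℤ) + ((k + i : ℕ) : ℤ))) = A4 at *
  generalize (∏ i ∈ Finset.range k, br q ((N : ℤ) + n + i)) = B1 at *
  generalize (∏ i ∈ Finset.range t, br q ((N : ℤ) + n + i)) = B2 at *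
  generalize (∏ i ∈ Finset.range k, br q ((N : ℤ) + n + ((t + i : ℕ) : ℤ))) = B3 at *
  generalize (∏ i ∈ Finset.range t, br q ((N : ℤ) + n + ((k + i : ℕ) : ℤ))) = B4 at *
  generalize (∏ i ∈ Finset.range k, br q ((i : ℤ) + 1)) = C at *
  generalize (∏ i ∈ Finset.range k, br q ((N : ℤ) - i)) = D at *
  have a3 : A3 = A4 * A1 / A2 := by
    rw [eq_div_iff m2]; exact h1
  have b3 : B3 = B4 * B1 / B2 := by
    rw [eq_div_iff m3]; exact h2
  rw [a3, b3]
  field_simp

theorem k1p {n N : ℕ} {q : ℂ} (hg : Gen q n N) (hn : 2 ≤ n) {k l : ℕ} (hk : k ≤ N) (hl : l ≤ N) :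
    Ro n q N ((N : ℤ) + n) (LE q k) l = wk q n N k l := by
  obtain ⟨hq, hb⟩ := hg
  have hS : dimS n N q ≠ 0 := by
    unfold dimS
    refine Finset.prod_ne_zero_iff.2 fun i hi => ?_
    have hi' := Finset.mem_range.1 hi
    refine div_ne_zero ?_ ?_
    · have := hb (n + i) (by omega) (by omega)
      exact_mod_cast this
    · have := hb (i + 1) (by omega) (by omega)
      exact_mod_cast this
  -- the sum over `j` for every `t`
  have key : ∀ t ≤ N, ∑ j ∈ Finset.range (N + 1),
      dimT n N q j * ps q ((N : ℤ) + n) t j * LE q k j =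
      dimS n N q ^ 2 * (∏ i ∈ Finset.range k, (br q ((N : ℤ) - i) * br q ((N : ℤ) + n + i) /
        (br q ((i : ℤ) + 1) * br q ((n : ℤ) + i)))) *
      ∏ i ∈ Finset.range t, (br q ((n : ℤ) - 1 + i) * br q ((N : ℤ) + n + i) *
        br q ((N : ℤ) + n + k + i) / br q ((n : ℤ) + k + i)) := by
    intro t ht
    have h1 : ∑ j ∈ Finset.range (N + 1), dimT n N q j * ps q ((N : ℤ) + n) t j * LE q k j =
        (∏ i ∈ Finset.range t, (br q ((n : ℤ) + i) * br q ((n : ℤ) - 1 + i))) *
          ∑ j ∈ Finset.range (N + 1), dimT (n + t) N q j * LE q k j := by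
      rw [Finset.mul_sum]
      refine Finset.sum_congr rfl fun j _ => ?_
      rw [B_K1p_dimT hn (fun i h1 h2 => hb i h1 (by omega)), mul_assoc]
    rw [h1, t_sum (by omega : 2 ≤ n + t) hq k (fun i h1 h2 => hb i h1 (by omega)),
      B_K1p_dimS hn (fun i h1 h2 => hb i h1 (by omega)),
      B_K1p_kprod hn (fun i h1 h2 => hb i h1 (by omega)), mul_pow, ← Finset.prod_pow]
    have h2 : ∏ i ∈ Finset.range t, (br q ((n : ℤ) - 1 + i) * br q ((N : ℤ) + n + i) *
        br q ((N : ℤ) + n + k + i) / br q ((n : ℤ) + k + i)) =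
        (∏ i ∈ Finset.range t, (br q ((n : ℤ) + i) * br q ((n : ℤ) - 1 + i))) *
        (∏ i ∈ Finset.range t, (br q ((N : ℤ) + n + i) / br q ((n : ℤ) + i)) ^ 2) *
        ∏ i ∈ Finset.range t, ((br q ((N : ℤ) + n + k + i) / br q ((N : ℤ) + n + i)) *
          (br q ((n : ℤ) + i) / br q ((n : ℤ) + k + i))) := by
      rw [← Finset.prod_mul_distrib, ← Finset.prod_mul_distrib]
      refine Finset.prod_congr rfl fun i hi => ?_
      have hi' := Finset.mem_range.1 hi
      have x1 : br q ((n : ℤ) + i) ≠ 0 := by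
        have := hb (n + i) (by omega) (by omega)
        exact_mod_cast this
      have x2 : br q ((N : ℤ) + n + i) ≠ 0 := by
        have := hb (N + n + i) (by omega) (by omega)
        exact_mod_cast this
      have x3 : br q ((n : ℤ) + k + i) ≠ 0 := by
        have := hb (n + k + i) (by omega) (by omega)
        exact_mod_cast this
      field_simp
    rw [h2]
    ring
  -- exchange the sums
  have hRo : Ro n q N ((N : ℤ) + n) (LE q k) l =
      (∏ i ∈ Finset.range l, (br q ((N : ℤ) + n + i) / br q ((n : ℤ) - ((N : ℤ) + n) + i))) /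
        dimS n N q * ∑ t ∈ Finset.range (N + 1), (-1) ^ t * pa q n t l /
          (∏ i ∈ Finset.range t, (br q ((i : ℤ) + 1) * br q ((n : ℤ) + i - 1) *
            br q ((N : ℤ) + n + i) ^ 2)) *
          ∑ j ∈ Finset.range (N + 1), dimT n N q j * ps q ((N : ℤ) + n) t j * LE q k j := by
    unfold Ro six
    simp only [Finset.mul_sum, Finset.sum_mul]
    rw [Finset.sum_comm]
    refine Finset.sum_congr rfl fun t _ => Finset.sum_congr rfl fun j _ => ?_
    ring
  have hterm : ∀ t ∈ Finset.range (N + 1), (-1) ^ t * pa q n t l /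
          (∏ i ∈ Finset.range t, (br q ((i : ℤ) + 1) * br q ((n : ℤ) + i - 1) *
            br q ((N : ℤ) + n + i) ^ 2)) *
          ∑ j ∈ Finset.range (N + 1), dimT n N q j * ps q ((N : ℤ) + n) t j * LE q k j =
      dimS n N q ^ 2 * (∏ i ∈ Finset.range k, (br q ((N : ℤ) - i) * br q ((N : ℤ) + n + i) /
        (br q ((i : ℤ) + 1) * br q ((n : ℤ) + i)))) *
      ((-1) ^ t * ∏ i ∈ Finset.range t,
      (br q ((l : ℤ) - i) * br q ((n : ℤ) + l - 1 + i) * br q ((N : ℤ) + n + k + i) /
        (br q ((i : ℤ) + 1) * br q ((N : ℤ) + n + i) * br q ((n : ℤ) + k + i)))) := by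
    intro t ht
    have ht' := Finset.mem_range.1 ht
    rw [key t (by omega)]
    have h3 : ∏ i ∈ Finset.range t,
      (br q ((l : ℤ) - i) * br q ((n : ℤ) + l - 1 + i) * br q ((N : ℤ) + n + k + i) /
        (br q ((i : ℤ) + 1) * br q ((N : ℤ) + n + i) * br q ((n : ℤ) + k + i))) =
        pa q n t l / (∏ i ∈ Finset.range t, (br q ((i : ℤ) + 1) * br q ((n : ℤ) + i - 1) *
            br q ((N : ℤ) + n + i) ^ 2)) *
        ∏ i ∈ Finset.range t, (br q ((n : ℤ) - 1 + i) * br q ((N : ℤ) + n + i) *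
        br q ((N : ℤ) + n + k + i) / br q ((n : ℤ) + k + i)) := by
      unfold pa
      rw [← Finset.prod_div_distrib, ← Finset.prod_mul_distrib]
      refine Finset.prod_congr rfl fun i hi => ?_
      have hi' := Finset.mem_range.1 hi
      have x1 : br q ((n : ℤ) - 1 + i) ≠ 0 := by
        have := hb (n - 1 + i) (by omega) (by omega)
        have e : (((n - 1 + i : ℕ)) : ℤ) = (n : ℤ) - 1 + i := by omega
        rwa [e] at this
      have x2 : br q ((N : ℤ) + n + i) ≠ 0 := by
        have := hb (N + n + i) (by omega) (by omega)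
        exact_mod_cast this
      have x3 : br q ((n : ℤ) + k + i) ≠ 0 := by
        have := hb (n + k + i) (by omega) (by omega)
        exact_mod_cast this
      have x4 : br q ((i : ℤ) + 1) ≠ 0 := by
        have := hb (i + 1) (by omega) (by omega)
        exact_mod_cast this
      have y1 : (n : ℤ) + i - 1 = (n : ℤ) - 1 + i := by ring
      have y2 : (n : ℤ) + l + i - 1 = (n : ℤ) + l - 1 + i := by ring
      rw [y1, y2]
      field_simp
    rw [h3]
    ring
  rw [hRo, Finset.sum_congr rfl hterm, ← Finset.mul_sum]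
  -- only `t ≤ l` contributes
  have hsum : ∑ t ∈ Finset.range (N + 1), ((-1 : ℂ) ^ t * ∏ i ∈ Finset.range t,
      (br q ((l : ℤ) - i) * br q ((n : ℤ) + l - 1 + i) * br q ((N : ℤ) + n + k + i) /
        (br q ((i : ℤ) + 1) * br q ((N : ℤ) + n + i) * br q ((n : ℤ) + k + i)))) =
      ∏ i ∈ Finset.range l, (br q ((N : ℤ) - i) * br q ((k : ℤ) - i) /
        (br q ((N : ℤ) + n + i) * br q ((n : ℤ) + k + i))) := by
    have hs := saal hq l (fun i h1 h2 => hb i h1 (by omega)) (n : ℤ) ((N : ℤ) + n + k)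
      ((N : ℤ) + n) ((n : ℤ) + k) (by ring)
      (fun i hi => by
        have := hb (N + n + i) (by omega) (by omega)
        exact_mod_cast this)
      (fun i hi => by
        have := hb (n + k + i) (by omega) (by omega)
        exact_mod_cast this)
    have e1 : ∏ i ∈ Finset.range l, (br q ((N : ℤ) + n - n - i) * br q ((N : ℤ) + n + k - ((N : ℤ) + n) - i) /
        (br q ((N : ℤ) + n + i) * br q ((n : ℤ) + k + i))) =
        ∏ i ∈ Finset.range l, (br q ((N : ℤ) - i) * br q ((k : ℤ) - i) /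
        (br q ((N : ℤ) + n + i) * br q ((n : ℤ) + k + i))) := by
      refine Finset.prod_congr rfl fun i _ => ?_
      have z1 : (N : ℤ) + n - n - i = (N : ℤ) - i := by ring
      have z2 : (N : ℤ) + n + k - ((N : ℤ) + n) - i = (k : ℤ) - i := by ring
      rw [z1, z2]
    rw [← e1, ← hs]
    symm
    refine Finset.sum_subset (Finset.range_mono (by omega)) ?_
    intro t _ ht2
    have hlt : l < t := by
      rw [Finset.mem_range] at ht2
      omega
    have hz : ∏ i ∈ Finset.range t,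
      (br q ((l : ℤ) - i) * br q ((n : ℤ) + l - 1 + i) * br q ((N : ℤ) + n + k + i) /
        (br q ((i : ℤ) + 1) * br q ((N : ℤ) + n + i) * br q ((n : ℤ) + k + i))) = 0 := by
      refine Finset.prod_eq_zero (Finset.mem_range.2 hlt) ?_
      simp [br]
    rw [hz, mul_zero]
  rw [hsum, wk_eq ⟨hq, hb⟩ hn hk hl]
  have hpre : (∏ i ∈ Finset.range l, (br q ((N : ℤ) + n + i) / br q ((n : ℤ) - ((N : ℤ) + n) + i))) *
      ∏ i ∈ Finset.range l, (br q ((N : ℤ) - i) * br q ((k : ℤ) - i) /
        (br q ((N : ℤ) + n + i) * br q ((n : ℤ) + k + i))) =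
      (-1) ^ l * ∏ i ∈ Finset.range l, (br q ((k : ℤ) - i) / br q ((n : ℤ) + k + i)) := by
    rw [← Finset.prod_mul_distrib]
    have : ((-1 : ℂ)) ^ l = ∏ _i ∈ Finset.range l, (-1 : ℂ) := by simp
    rw [this, ← Finset.prod_mul_distrib]
    refine Finset.prod_congr rfl fun i hi => ?_
    have hi' := Finset.mem_range.1 hi
    have x2 : br q ((N : ℤ) + n + i) ≠ 0 := by
      have := hb (N + n + i) (by omega) (by omega)
      exact_mod_cast this
    have x3 : br q ((n : ℤ) + k + i) ≠ 0 := by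
      have := hb (n + k + i) (by omega) (by omega)
      exact_mod_cast this
    have x4 : br q ((N : ℤ) - i) ≠ 0 := by
      have := hb (N - i) (by omega) (by omega)
      have e : (((N - i : ℕ)) : ℤ) = (N : ℤ) - i := by omega
      rwa [e] at this
    have z1 : (n : ℤ) - ((N : ℤ) + n) + i = -((N : ℤ) - i) := by ring
    rw [z1, B_K1p_neg]
    field_simp
  have hfin : ∀ P S K R W : ℂ, S ≠ 0 → P * R = (-1) ^ l * W →
      P / S * (S ^ 2 * K * R) = (-1) ^ l * S * K * W := by
    intro P S K R W hS h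
    field_simp
    linear_combination K * h
  exact hfin _ _ _ _ _ hS hpre

end Pool.Agent.S4
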