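import Pool.Agent.S4.Defs

/-! # Half twists of antiparallel strands -/

namespace Pool.Agent.S4

open Pool.Agent.H63.VC7 Pool.Agent.H63.VC8 Pool.Agent.H63.VC11 Pool.Agent.H63.VC12

private theorem B_TwA_pas (q : ℂ) (hq : q ≠ 0) (h1 : br q 1 ≠ 0) {ε : ℤ} (hε : ε = 1 ∨ ε = -1)
    (m k : ℕ) (hf : ∀ j ≤ m + 1, qf q j ≠ 0) :
    qb q (m + 1) (k + 1) = q ^ (-(ε * ((k : ℤ) + 1))) * qb q m (k + 1) +
      q ^ (ε * ((m : ℤ) - k)) * qb q m k := by
  rcases hε with rfl | rfl
  · rw [one_mul, one_mul]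
    exact qb_succ' q hq h1 m k hf
  · rw [show -(-1 * ((k : ℤ) + 1)) = (k : ℤ) + 1 by ring,
      show -1 * ((m : ℤ) - k) = -((m : ℤ) - k) by ring]
    rfl

/-- The `q`-Vandermonde identity. -/
private theorem B_TwA_vand (q : ℂ) (hq : q ≠ 0) (h1 : br q 1 ≠ 0) {ε : ℤ} (hε : ε = 1 ∨ ε = -1)
    (A B : ℕ) : ∀ r : ℕ, (∀ j ≤ A + B, qf q j ≠ 0) →
    ∑ t ∈ Finset.range (r + 1), q ^ (ε * (((r : ℤ) - t) * B - t * A)) *
      (qb q A (r - t) * qb q B t) = qb q (A + B) r := by
  induction A with
  | zero =>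
    intro r _
    rw [Finset.sum_eq_single_of_mem r (Finset.mem_range.2 (Nat.lt_succ_self r))]
    · rw [Nat.sub_self, qb_zero_right, Nat.zero_add,
        show ε * (((r : ℤ) - r) * B - r * ((0 : ℕ) : ℤ)) = 0 by push_cast; ring, zpow_zero]
      ring
    · intro t ht hne
      have h2 := Finset.mem_range.1 ht
      rw [qb_lt q 0 (r - t) (by omega)]
      ring
  | succ A ih =>
    intro r hf
    rcases r with _ | r
    · rw [Finset.sum_range_one, Nat.sub_self, qb_zero_right, qb_zero_right, qb_zero_right]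
      rw [show ε * ((((0 : ℕ) : ℤ) - ((0 : ℕ) : ℤ)) * B - ((0 : ℕ) : ℤ) * ((A + 1 : ℕ) : ℤ)) = 0 by
        push_cast; ring, zpow_zero]
      ring
    · have hf' : ∀ j ≤ A + B, qf q j ≠ 0 := fun j hj => hf j (by omega)
      have i1 := ih (r + 1) hf'
      have i2 := ih r hf'
      rw [show A + 1 + B = A + B + 1 by ring,
        B_TwA_pas q hq h1 hε (A + B) r (fun j hj => hf j (by omega)), ← i1, ← i2,
        Finset.sum_range_succ, Finset.sum_range_succ _ (r + 1)]
      rw [mul_add, Finset.mul_sum, Finset.mul_sum, add_right_comm, ← Finset.sum_add_distrib]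
      congr 1
      · refine Finset.sum_congr rfl fun t ht => ?_
        have ht' : t ≤ r := Nat.lt_succ_iff.1 (Finset.mem_range.1 ht)
        rw [show r + 1 - t = (r - t) + 1 by omega,
          B_TwA_pas q hq h1 hε A (r - t) (fun j hj => hf j (by omega))]
        have c1 : ((r - t : ℕ) : ℤ) = (r : ℤ) - t := by omega
        have e1 : q ^ (ε * ((((r + 1 : ℕ) : ℤ) - t) * B - t * ((A + 1 : ℕ) : ℤ))) *
            q ^ (-(ε * (((r - t : ℕ) : ℤ) + 1))) =
            q ^ (-(ε * ((r : ℤ) + 1))) * q ^ (ε * ((((r + 1 : ℕ) : ℤ) - t) * B - t * A)) := by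
          rw [← zpow_add₀ hq, ← zpow_add₀ hq, c1]
          congr 1
          push_cast
          ring
        have e2 : q ^ (ε * ((((r + 1 : ℕ) : ℤ) - t) * B - t * ((A + 1 : ℕ) : ℤ))) *
            q ^ (ε * ((A : ℤ) - ((r - t : ℕ) : ℤ))) =
            q ^ (ε * (((A + B : ℕ) : ℤ) - r)) * q ^ (ε * (((r : ℤ) - t) * B - t * A)) := by
          rw [← zpow_add₀ hq, ← zpow_add₀ hq, c1]
          congr 1
          push_cast
          ring
        linear_combination (qb q A (r - t + 1) * qb q B t) * e1 + (qb q A (r - t) * qb q B t) * e2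
      · rw [Nat.sub_self, qb_zero_right, qb_zero_right, one_mul, ← mul_assoc, ← zpow_add₀ hq]
        congr 2
        push_cast
        ring

private theorem B_TwA_step (q : ℂ) (hq : q ≠ 0) (m k : ℕ) (hk : k ≤ m)
    (hf : ∀ j ≤ m, qf q j ≠ 0) :
    qb q m (k + 1) * qn q ((k : ℤ) + 1) = qb q m k * qn q ((m : ℤ) - k) := by
  rcases hk.lt_or_eq with h | rfl
  · have i1 := qb_fac q hq m (k + 1) (by omega)
    have i2 := qb_fac q hq m k (by omega)
    have e2 : m - k = (m - (k + 1)) + 1 := by omega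
    have e3 : (((m - (k + 1) : ℕ) : ℤ) + 1) = (m : ℤ) - k := by omega
    rw [e2, qf_succ, e3] at i2
    rw [qf_succ] at i1
    have n1 := hf k (by omega)
    have n2 := hf (m - (k + 1)) (by omega)
    apply mul_right_cancel₀ (mul_ne_zero n1 n2)
    linear_combination i1 - i2
  · rw [qb_lt q k (k + 1) (by omega), sub_self, zero_mul]
    have : qn q 0 = 0 := by
      unfold qn br
      simp
    rw [this, mul_zero]

/-- The basis functions as products of `q`-binomial coefficients. -/
private theorem B_TwA_EE {n N : ℕ} {q : ℂ} (hg : Gen q n N) (hn : 2 ≤ n) {l : ℕ} (hl : l ≤ N)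
    (t : ℕ) : EE q n N t l = qb q (N - l) t * qb q (N + l + n - 1) t := by
  have nf : ∀ k : ℕ, k ≤ 4 * N + 2 * n → qf q k ≠ 0 := fun k hk => hg.qf_ne (by omega) hk
  induction t with
  | zero => simp [EE, qb_zero_right]
  | succ t ih =>
    have h1 : EE q n N (t + 1) l = EE q n N t l * (E1 q n (N - t) l / qn q ((t : ℤ) + 1) ^ 2) := by
      unfold EE
      rw [Finset.prod_range_succ]
    rw [h1, ih]
    rcases Nat.lt_or_ge (N - l) t with h2 | h2
    · rw [qb_lt q (N - l) t h2, qb_lt q (N - l) (t + 1) (by omega)]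
      ring
    · have n7 : qn q ((t : ℤ) + 1) ≠ 0 ∨ t = N := by
        rcases Nat.lt_or_ge t N with h3 | h3
        · exact Or.inl (hg.qn_ne (by omega) (by omega) (by omega))
        · exact Or.inr (by omega)
      have s1 := B_TwA_step q hg.1 (N - l) t h2 fun j hj => nf j (by omega)
      have s2 := B_TwA_step q hg.1 (N + l + n - 1) t (by omega) fun j hj => nf j (by omega)
      have c1 : ((N - l : ℕ) : ℤ) - t = (N : ℤ) - l - t := by omega
      have c2 : ((N + l + n - 1 : ℕ) : ℤ) - t = (N : ℤ) + l + n - 1 - t := by omega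
      have c3 : ((N - t : ℕ) : ℤ) = (N : ℤ) - t := by omega
      rw [c1] at s1
      rw [c2] at s2
      have hE : E1 q n (N - t) l = qn q ((N : ℤ) - l - t) * qn q ((N : ℤ) + l + n - 1 - t) := by
        unfold E1
        rw [c3]
        congr 2 <;> ring
      have n8 : qn q ((t : ℤ) + 1) ≠ 0 := hg.qn_ne (by omega) (by omega) (by omega)
      rw [hE, ← mul_div_assoc, div_eq_iff (pow_ne_zero 2 n8)]
      linear_combination (-(qb q (N + l + n - 1) t * qn q ((N : ℤ) + l + n - 1 - t))) * s1 -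
        (qb q (N - l) (t + 1) * qn q ((t : ℤ) + 1)) * s2

/-- A product of two `q`-binomial coefficients. -/
private theorem B_TwA_mul (q : ℂ) (hq : q ≠ 0) (A s t : ℕ) (hs : s ≤ A) (ht : t ≤ A)
    (hf : ∀ j ≤ A, qf q j ≠ 0) :
    qb q t s * qb q A t = qb q A s * qb q (A - s) (A - t) := by
  rcases Nat.lt_or_ge t s with h | h
  · rw [qb_lt q t s h, qb_lt q (A - s) (A - t) (by omega)]
    ring
  · have i1 := qb_fac q hq A t ht
    have i2 := qb_fac q hq t s h
    have i3 := qb_fac q hq A s hs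
    have i4 := qb_fac q hq (A - s) (A - t) (by omega)
    rw [show A - s - (A - t) = t - s by omega] at i4
    have n1 := hf s hs
    have n2 := hf (t - s) (by omega)
    have n3 := hf (A - t) (by omega)
    apply mul_right_cancel₀ (mul_ne_zero (mul_ne_zero n1 n2) n3)
    linear_combination (qb q A t * qf q (A - t)) * i2 + i1 - i3 - (qb q A s * qf q s) * i4

theorem twA_wk {n N : ℕ} {q : ℂ} (hg : Gen q n N) (hn : 2 ≤ n) {ε : ℤ} (hε : ε = 1 ∨ ε = -1)
    {k l : ℕ} (hk : k ≤ N) (hl : l ≤ N) :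
    twA q n l ^ ε * wk q n N k l = ∑ t ∈ Finset.range (N + 1),
      qb q t (N - k) * q ^ (ε * (((N : ℤ) - t) * (k + N + n - 1) - k * N)) * EE q n N t l := by
  have nf : ∀ k : ℕ, k ≤ 4 * N + 2 * n → qf q k ≠ 0 := fun k hk => hg.qf_ne (by omega) hk
  have hq := hg.1
  have hb1 : br q 1 ≠ 0 := by
    have := hg.2 1 le_rfl (by omega)
    simpa using this
  simp only [B_TwA_EE hg hn hl]
  rcases Nat.lt_or_ge k l with hkl | hkl
  · -- both sides are zero
    rw [wk, if_neg (by omega), mul_zero]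
    symm
    refine Finset.sum_eq_zero fun t _ => ?_
    rcases Nat.lt_or_ge t (N - k) with h | h
    · rw [qb_lt q t (N - k) h]
      ring
    · rw [qb_lt q (N - l) t (by omega)]
      ring
  · -- the signs
    have hs : ((-1 : ℂ) ^ l) ^ ε = (-1) ^ l := by
      rcases hε with rfl | rfl
      · exact zpow_one _
      · rw [zpow_neg_one]
        rcases neg_one_pow_eq_or ℂ l with h | h <;> rw [h] <;> norm_num
    have hs2 : (-1 : ℂ) ^ l * (-1) ^ l = 1 := by
      rw [← mul_pow]
      norm_num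
    rw [wk, if_pos hkl, twA, mul_zpow, hs, ← zpow_mul]
    have hsub : Finset.range (N - l + 1) ⊆ Finset.range (N + 1) := by
      intro t ht
      rw [Finset.mem_range] at ht ⊢
      omega
    rw [← Finset.sum_subset hsub]
    · have hv := B_TwA_vand q hq hb1 hε (N - l - (N - k)) (N + l + n - 1) (N - l)
        (fun j hj => nf j (by omega))
      rw [show N - l - (N - k) + (N + l + n - 1) = N + n + k - 1 by omega] at hv
      have hsym : qb q (N - l) (k - l) = qb q (N - l) (N - k) := by
        have i1 := qb_fac q hq (N - l) (k - l) (by omega)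
        have i2 := qb_fac q hq (N - l) (N - k) (by omega)
        rw [show N - l - (k - l) = N - k by omega] at i1
        rw [show N - l - (N - k) = k - l by omega] at i2
        have n1 := nf (N - k) (by omega)
        have n2 := nf (k - l) (by omega)
        apply mul_right_cancel₀ (mul_ne_zero n1 n2)
        linear_combination i1 - i2
      rw [hsym, ← hv, Finset.mul_sum]
      have hterm : ∀ t ∈ Finset.range (N - l + 1),
          qb q t (N - k) * q ^ (ε * (((N : ℤ) - t) * (k + N + n - 1) - k * N)) *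
            (qb q (N - l) t * qb q (N + l + n - 1) t) =
          (-1) ^ l * q ^ ((l : ℤ) * ((l : ℤ) + n - 1) * ε) * ((-1) ^ l * qb q (N - l) (N - k) *
            (q ^ (ε * ((((N - l : ℕ) : ℤ) - t) * ((N + l + n - 1 : ℕ) : ℤ) -
              t * ((N - l - (N - k) : ℕ) : ℤ))) *
              (qb q (N - l - (N - k)) (N - l - t) * qb q (N + l + n - 1) t))) := by
        intro t ht
        have ht' : t ≤ N - l := Nat.lt_succ_iff.1 (Finset.mem_range.1 ht)
        have m1 := B_TwA_mul q hq (N - l) (N - k) t (by omega) ht' fun j hj => nf j (by omega)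
        have e1 : q ^ (ε * (((N : ℤ) - t) * (k + N + n - 1) - k * N)) =
            q ^ ((l : ℤ) * ((l : ℤ) + n - 1) * ε) *
            q ^ (ε * ((((N - l : ℕ) : ℤ) - t) * ((N + l + n - 1 : ℕ) : ℤ) -
              t * ((N - l - (N - k) : ℕ) : ℤ))) := by
          rw [← zpow_add₀ hq]
          congr 1
          have c1 : ((N - l : ℕ) : ℤ) = (N : ℤ) - l := by omega
          have c2 : ((N + l + n - 1 : ℕ) : ℤ) = (N : ℤ) + l + n - 1 := by omega
          have c3 : ((N - l - (N - k) : ℕ) : ℤ) = (k : ℤ) - l := by omega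
          rw [c1, c2, c3]
          ring
        rw [e1]
        linear_combination (q ^ ((l : ℤ) * ((l : ℤ) + n - 1) * ε) *
            q ^ (ε * ((((N - l : ℕ) : ℤ) - t) * ((N + l + n - 1 : ℕ) : ℤ) -
              t * ((N - l - (N - k) : ℕ) : ℤ))) * qb q (N + l + n - 1) t) * m1 -
          (q ^ ((l : ℤ) * ((l : ℤ) + n - 1) * ε) *
            q ^ (ε * ((((N - l : ℕ) : ℤ) - t) * ((N + l + n - 1 : ℕ) : ℤ) -
              t * ((N - l - (N - k) : ℕ) : ℤ))) * qb q (N + l + n - 1) t *
            qb q (N - l) (N - k) * qb q (N - l - (N - k)) (N - l - t)) * hs2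
      rw [Finset.sum_congr rfl hterm, Finset.mul_sum]
    · intro t _ ht
      rw [Finset.mem_range, not_lt] at ht
      rw [qb_lt q (N - l) t (by omega)]
      ring

end Pool.Agent.S4
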