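import Pool.Agent.H63.VC12.PhPh12
import Pool.Agent.S4.B.Four
import Pool.Agent.S4.B.K1m
import Pool.Agent.S4.B.K1p
import Pool.Agent.S4.B.TwA
import Pool.Agent.S4.B.TwS

/-! # The hexagon equation -/

namespace Pool.Agent.S4

open Pool.Agent.H63.VC7 Pool.Agent.H63.VC8 Pool.Agent.H63.VC11 Pool.Agent.H63.VC12

private theorem B_Hex_Ro_sum {n N : ℕ} {q : ℂ} {a : ℤ} {ι : Type*} (s : Finset ι) (c : ι → ℂ)
    (F : ι → ℕ → ℂ) (l : ℕ) :
    Ro n q N a (fun j => ∑ i ∈ s, c i * F i j) l = ∑ i ∈ s, c i * Ro n q N a (F i) l := by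
  simp only [Ro, Finset.mul_sum]
  rw [Finset.sum_comm]
  refine Finset.sum_congr rfl fun i _ => Finset.sum_congr rfl fun Y _ => ?_
  ring

private theorem B_Hex_Ro_congr {n N : ℕ} {q : ℂ} {a : ℤ} {f g : ℕ → ℂ} (h : ∀ j ≤ N, f j = g j)
    (l : ℕ) : Ro n q N a f l = Ro n q N a g l := by
  simp only [Ro]
  refine Finset.sum_congr rfl fun Y hY => ?_
  rw [h Y (Nat.lt_succ_iff.1 (Finset.mem_range.1 hY))]

private theorem B_Hex_Ro_LE {n N : ℕ} {q : ℂ} (hg : Gen q n N) (hn : 2 ≤ n) {a : ℤ}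
    (ha : IsA n N a) {k l : ℕ} (hk : k ≤ N) (hl : l ≤ N) :
    Ro n q N a (LE q k) l = wk q n N k l := by
  rcases ha with rfl | rfl
  · exact k1p hg hn hk hl
  · exact k1m hg hn hk hl

private theorem B_Hex_Ph_EE {q : ℂ} {n N j X : ℕ} (hg : Gen q n N) (hn : 2 ≤ n) (hj : j ≤ N) :
    Ph q n N (EE q n N j) X = EE q n N (N - j) X := by
  rw [Ph_eq q n N hg hn, sixn_EE q n N j X hg hn hj]

/-- The left side for a basis function. -/
private theorem B_Hex_left {n N : ℕ} {q : ℂ} (hg : Gen q n N) (hn : 2 ≤ n) {a : ℤ} (ha : IsA n N a)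
    {ε : ℤ} (hε : ε = 1 ∨ ε = -1) {k l : ℕ} (hk : k ≤ N) (hl : l ≤ N) :
    twA q n l ^ ε * Ro n q N a (fun j => twS q j ^ ε * LE q k j) l =
      ∑ t ∈ Finset.range (N + 1), ka q n N ^ ε *
        (qb q (N - t) (N - k) * q ^ (-ε * ((t : ℤ) * (k + N + n - 1) - k * N))) *
          EE q n N t l := by
  rw [B_Hex_Ro_congr (fun j hj => twS_LE hg hε hk hj), B_Hex_Ro_sum, Finset.mul_sum]
  have e1 : ∀ i ∈ Finset.range (N + 1), twA q n l ^ ε *
      ((-1) ^ i * q ^ (ε * (k + 1) * i) * qb q i k * Ro n q N a (LE q i) l) =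
      ∑ t ∈ Finset.range (N + 1), (-1) ^ i * q ^ (ε * (k + 1) * i) * qb q i k *
        (qb q t (N - i) * q ^ (ε * (((N : ℤ) - t) * (i + N + n - 1) - i * N))) * EE q n N t l := by
    intro i hi
    have hi' : i ≤ N := Nat.lt_succ_iff.1 (Finset.mem_range.1 hi)
    rw [B_Hex_Ro_LE hg hn ha hi' hl]
    have e2 := twA_wk hg hn hε hi' hl
    calc twA q n l ^ ε * ((-1) ^ i * q ^ (ε * (k + 1) * i) * qb q i k * wk q n N i l)
        = (-1) ^ i * q ^ (ε * (k + 1) * i) * qb q i k * (twA q n l ^ ε * wk q n N i l) := by ring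
      _ = _ := by
        rw [e2, Finset.mul_sum]
        exact Finset.sum_congr rfl fun t _ => by ring
  rw [Finset.sum_congr rfl e1, Finset.sum_comm]
  refine Finset.sum_congr rfl fun t ht => ?_
  rw [← Finset.sum_mul, b4 hg hn hε hk (Nat.lt_succ_iff.1 (Finset.mem_range.1 ht))]

/-- The right side for a basis function. -/
private theorem B_Hex_right {n N : ℕ} {q : ℂ} (hg : Gen q n N) (hn : 2 ≤ n) {a : ℤ}
    (ha : IsA n N a) {ε : ℤ} (hε : ε = 1 ∨ ε = -1) {k l : ℕ} (hk : k ≤ N) :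
    Ph q n N (fun l => twA q n l ^ (-ε) * Ro n q N a (LE q k) l) l =
      ∑ t ∈ Finset.range (N + 1),
        (qb q (N - t) (N - k) * q ^ (-ε * ((t : ℤ) * (k + N + n - 1) - k * N))) *
          EE q n N t l := by
  have hε' : -ε = 1 ∨ -ε = -1 := by omega
  rw [Ph_congr q n N hg hn _ _ (fun Y hY => by
    rw [B_Hex_Ro_LE hg hn ha hk hY, twA_wk hg hn hε' hk hY]), Ph_sum q n N hg hn]
  rw [← Finset.sum_range_reflect]
  refine Finset.sum_congr rfl fun t ht => ?_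
  have ht' : t ≤ N := Nat.lt_succ_iff.1 (Finset.mem_range.1 ht)
  rw [show N + 1 - 1 - t = N - t by omega, B_Hex_Ph_EE hg hn (Nat.sub_le N t),
    Nat.sub_sub_self ht', Nat.cast_sub ht', sub_sub_cancel]

theorem hexa {n N : ℕ} {q : ℂ} (hg : Gen q n N) (hn : 2 ≤ n) {a : ℤ} (ha : IsA n N a) {ε : ℤ}
    (hε : ε = 1 ∨ ε = -1) (f : ℕ → ℂ) {l : ℕ} (hl : l ≤ N) :
    Ro n q N a (fun j => twS q j ^ ε * f j) l = ka q n N ^ ε * (twA q n l ^ (-ε) *
      Ph q n N (fun l => twA q n l ^ (-ε) * Ro n q N a f l) l) := by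
  obtain ⟨c, hc⟩ := le_span hg f
  have h0 : twA q n l ≠ 0 := by
    unfold twA
    exact mul_ne_zero (pow_ne_zero _ (neg_ne_zero.2 one_ne_zero)) (zpow_ne_zero _ hg.1)
  have hL : twA q n l ^ ε * Ro n q N a (fun j => twS q j ^ ε * f j) l =
      ∑ k ∈ Finset.range (N + 1), c k *
        (twA q n l ^ ε * Ro n q N a (fun j => twS q j ^ ε * LE q k j) l) := by
    rw [B_Hex_Ro_congr (g := fun j => ∑ k ∈ Finset.range (N + 1), c k * (twS q j ^ ε * LE q k j))
      (fun j hj => by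
        rw [hc j hj, Finset.mul_sum]
        exact Finset.sum_congr rfl fun k _ => by ring),
      B_Hex_Ro_sum (Finset.range (N + 1)) c (fun k j => twS q j ^ ε * LE q k j), Finset.mul_sum]
    exact Finset.sum_congr rfl fun k _ => by ring
  have hR : Ph q n N (fun l => twA q n l ^ (-ε) * Ro n q N a f l) l =
      ∑ k ∈ Finset.range (N + 1), c k *
        Ph q n N (fun l => twA q n l ^ (-ε) * Ro n q N a (LE q k) l) l := by
    rw [← Ph_sum q n N hg hn]
    refine Ph_congr q n N hg hn _ _ (fun Y _ => ?_) l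
    rw [B_Hex_Ro_congr hc, B_Hex_Ro_sum, Finset.mul_sum]
    exact Finset.sum_congr rfl fun k _ => by ring
  have key : twA q n l ^ ε * Ro n q N a (fun j => twS q j ^ ε * f j) l =
      ka q n N ^ ε * Ph q n N (fun l => twA q n l ^ (-ε) * Ro n q N a f l) l := by
    rw [hL, hR, Finset.mul_sum]
    refine Finset.sum_congr rfl fun k hk => ?_
    have hk' : k ≤ N := Nat.lt_succ_iff.1 (Finset.mem_range.1 hk)
    rw [B_Hex_left hg hn ha hε hk' hl, B_Hex_right hg hn ha hε hk', Finset.mul_sum,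
      Finset.mul_sum, Finset.mul_sum]
    exact Finset.sum_congr rfl fun t _ => by ring
  rw [zpow_neg]
  have h1 : twA q n l ^ ε ≠ 0 := zpow_ne_zero _ h0
  field_simp
  linear_combination key

end Pool.Agent.S4
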