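import Pool.Agent.H63.VC12.PhPh12
import Pool.Agent.S4.B.K1m
import Pool.Agent.S4.B.K1p

/-! # Orthogonality -/

namespace Pool.Agent.S4

open Pool.Agent.H63.VC7 Pool.Agent.H63.VC8 Pool.Agent.H63.VC11 Pool.Agent.H63.VC12

/-- The factorial. -/
private noncomputable def B_Orth_bf (q : ℂ) (k : ℕ) : ℂ := ∏ i ∈ Finset.range k, br q ((i : ℤ) + 1)

private theorem B_Orth_succ (q : ℂ) (k : ℕ) :
    B_Orth_bf q (k + 1) = B_Orth_bf q k * br q ((k : ℤ) + 1) := by
  unfold B_Orth_bf
  rw [Finset.prod_range_succ]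

private theorem B_Orth_ne {n N : ℕ} {q : ℂ} (hg : Gen q n N) {k : ℕ} (hk : k ≤ 4 * N + 2 * n) :
    B_Orth_bf q k ≠ 0 := by
  unfold B_Orth_bf
  rw [Finset.prod_ne_zero_iff]
  intro i hi
  have := Finset.mem_range.1 hi
  exact hg.br_ne (by omega) (by omega)

private theorem B_Orth_up (q : ℂ) (m l : ℕ) (x : ℤ) (hx : x = (m : ℤ) + 1) :
    (∏ i ∈ Finset.range l, br q (x + i)) * B_Orth_bf q m = B_Orth_bf q (m + l) := by
  subst hx
  induction l with
  | zero => simp
  | succ l ih =>
    rw [Finset.prod_range_succ, ← add_assoc, B_Orth_succ, ← ih]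
    rw [show (((m + l : ℕ) : ℤ) + 1) = (m : ℤ) + 1 + l by push_cast; ring]
    ring

private theorem B_Orth_down (q : ℂ) (m l : ℕ) (h : l ≤ m) :
    (∏ i ∈ Finset.range l, br q ((m : ℤ) - i)) * B_Orth_bf q (m - l) = B_Orth_bf q m := by
  induction l with
  | zero => simp
  | succ l ih =>
    have ih' := ih (by omega)
    have e1 : m - l = (m - (l + 1)) + 1 := by omega
    have e2 : (((m - (l + 1) : ℕ) : ℤ) + 1) = (m : ℤ) - l := by omega
    rw [e1, B_Orth_succ, e2] at ih'
    rw [Finset.prod_range_succ, ← ih']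
    ring

private theorem B_Orth_qf {q : ℂ} (h1 : br q 1 ≠ 0) (k : ℕ) :
    qf q k * br q 1 ^ k = B_Orth_bf q k := by
  induction k with
  | zero => simp [qf_zero, B_Orth_bf]
  | succ k ih =>
    rw [qf_succ, B_Orth_succ, ← ih]
    unfold qn
    field_simp
    ring

private theorem B_Orth_qb {q : ℂ} (hq : q ≠ 0) (h1 : br q 1 ≠ 0) {m k : ℕ} (h : k ≤ m) :
    qb q m k * (B_Orth_bf q k * B_Orth_bf q (m - k)) = B_Orth_bf q m := by
  rw [← B_Orth_qf h1, ← B_Orth_qf h1, ← B_Orth_qf h1, ← qb_fac q hq m k h]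
  have : br q 1 ^ m = br q 1 ^ k * br q 1 ^ (m - k) := by
    rw [← pow_add]
    congr 1
    omega
  rw [this]
  ring

private theorem B_Orth_dimS {r N : ℕ} {q : ℂ} (hg : Gen q (r + 2) N) :
    dimS (r + 2) N q * (B_Orth_bf q (r + 1) * B_Orth_bf q N) = B_Orth_bf q (N + r + 1) := by
  unfold dimS
  rw [Finset.prod_div_distrib]
  have h1 := B_Orth_up q (r + 1) N (((r + 2 : ℕ) : ℤ)) (by push_cast; ring)
  have h2 : (∏ i ∈ Finset.range N, br q ((i : ℤ) + 1)) = B_Orth_bf q N := rfl
  have h3 : B_Orth_bf q N ≠ 0 := B_Orth_ne hg (by omega)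
  rw [show N + r + 1 = r + 1 + N by ring, ← h1, h2]
  field_simp

private theorem B_Orth_dimA {r N l : ℕ} {q : ℂ} (hg : Gen q (r + 2) N) (hl : l ≤ N) :
    dimA (r + 2) q l * (br q ((r : ℤ) + 1) * (B_Orth_bf q r * B_Orth_bf q l) ^ 2) =
      br q ((r : ℤ) + 2 * l + 1) * B_Orth_bf q (r + l) ^ 2 := by
  unfold dimA
  rw [Finset.prod_pow, Finset.prod_div_distrib]
  have h0 : ∀ i : ℕ, br q (((r + 2 : ℕ) : ℤ) + i - 1) = br q ((r : ℤ) + 1 + i) := by
    intro i
    congr 1
    push_cast
    ring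
  simp only [h0]
  have h1 := B_Orth_up q r l ((r : ℤ) + 1) rfl
  have h2 : (∏ i ∈ Finset.range l, br q ((i : ℤ) + 1)) = B_Orth_bf q l := rfl
  have h3 : B_Orth_bf q l ≠ 0 := B_Orth_ne hg (by omega)
  have h4 : br q ((r : ℤ) + 1) ≠ 0 := hg.br_ne (by omega) (by push_cast; omega)
  have h5 : br q (((r + 2 : ℕ) : ℤ) - 1) = br q ((r : ℤ) + 1) := by
    congr 1
    push_cast
    ring
  have h6 : br q (((r + 2 : ℕ) : ℤ) + 2 * l - 1) = br q ((r : ℤ) + 2 * l + 1) := by
    congr 1
    push_cast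
    ring
  rw [← h1, h2, h5, h6]
  field_simp

/-- The value on the diagonal. -/
private theorem B_Orth_diag {n N : ℕ} {q : ℂ} (hg : Gen q n N) (hn : 2 ≤ n) {a : ℤ}
    (ha : IsA n N a) {l : ℕ} (hl : l ≤ N) :
    (∏ i ∈ Finset.range l, (br q (a + i) / br q ((n : ℤ) - a + i))) *
      ((-1) ^ l * pa q n l l / (∏ i ∈ Finset.range l,
        (br q ((i : ℤ) + 1) * br q ((n : ℤ) + i - 1) * br q (a + i) ^ 2)) *
        ((-1) ^ l * ∏ i ∈ Finset.range l, br q ((i : ℤ) + 1) ^ 2)) * wk q n N l l *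
      dimA n q l = dimS n N q := by
  obtain ⟨r, rfl⟩ : ∃ r, n = r + 2 := ⟨n - 2, by omega⟩
  have hb1 := hg.br_one (by omega)
  -- the signs and the two forms of `a`
  have hprod : (∏ i ∈ Finset.range l, (br q (a + i) / br q (((r + 2 : ℕ) : ℤ) - a + i))) *
      ((-1) ^ l * pa q (r + 2) l l / (∏ i ∈ Finset.range l,
        (br q ((i : ℤ) + 1) * br q (((r + 2 : ℕ) : ℤ) + i - 1) * br q (a + i) ^ 2)) *
        ((-1) ^ l * ∏ i ∈ Finset.range l, br q ((i : ℤ) + 1) ^ 2)) =
      (-1) ^ l * ((∏ i ∈ Finset.range l, br q ((i : ℤ) + 1)) *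
        (∏ i ∈ Finset.range l, br q (((r + l : ℕ) : ℤ) + 1 + i)) *
        (∏ i ∈ Finset.range l, br q ((l : ℤ) - i))) /
        ((∏ i ∈ Finset.range l, br q ((r : ℤ) + 1 + i)) *
        (∏ i ∈ Finset.range l, br q (((N + r + 1 : ℕ) : ℤ) + 1 + i)) *
        (∏ i ∈ Finset.range l, br q ((N : ℤ) - i))) := by
    have hs : ((-1 : ℂ) ^ l) * (-1) ^ l = 1 := by
      rw [← mul_pow]
      norm_num
    have e1 : ((-1 : ℂ) ^ l) = ∏ i ∈ Finset.range l, (-1 : ℂ) := by
      rw [Finset.prod_const, Finset.card_range]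
    unfold pa
    calc _ = (∏ i ∈ Finset.range l, (br q (a + i) / br q (((r + 2 : ℕ) : ℤ) - a + i))) *
          ((∏ i ∈ Finset.range l, (br q (((r + 2 : ℕ) : ℤ) + l + i - 1) * br q ((l : ℤ) - i))) /
          (∏ i ∈ Finset.range l,
            (br q ((i : ℤ) + 1) * br q (((r + 2 : ℕ) : ℤ) + i - 1) * br q (a + i) ^ 2)) *
          ∏ i ∈ Finset.range l, br q ((i : ℤ) + 1) ^ 2) := by
          rw [mul_div_assoc]
          linear_combination ((∏ i ∈ Finset.range l,
            (br q (a + i) / br q (((r + 2 : ℕ) : ℤ) - a + i))) *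
          ((∏ i ∈ Finset.range l, (br q (((r + 2 : ℕ) : ℤ) + l + i - 1) * br q ((l : ℤ) - i))) /
          (∏ i ∈ Finset.range l,
            (br q ((i : ℤ) + 1) * br q (((r + 2 : ℕ) : ℤ) + i - 1) * br q (a + i) ^ 2)) *
          ∏ i ∈ Finset.range l, br q ((i : ℤ) + 1) ^ 2)) * hs
      _ = _ := by
          rw [e1, ← Finset.prod_mul_distrib, ← Finset.prod_mul_distrib, ← Finset.prod_mul_distrib,
            ← Finset.prod_mul_distrib, ← Finset.prod_mul_distrib, ← Finset.prod_div_distrib,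
            ← Finset.prod_div_distrib, ← Finset.prod_mul_distrib, ← Finset.prod_mul_distrib]
          refine Finset.prod_congr rfl fun i hi => ?_
          have hi' := Finset.mem_range.1 hi
          have f1 : br q ((i : ℤ) + 1) ≠ 0 := hg.br_ne (by omega) (by push_cast; omega)
          have f2 : br q (((r + 2 : ℕ) : ℤ) + i - 1) = br q ((r : ℤ) + 1 + i) := by
            congr 1
            push_cast
            ring
          have f3 : br q (((r + 2 : ℕ) : ℤ) + l + i - 1) = br q (((r + l : ℕ) : ℤ) + 1 + i) := by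
            congr 1
            push_cast
            ring
          have f4 : br q ((r : ℤ) + 1 + i) ≠ 0 := hg.br_ne (by omega) (by push_cast; omega)
          have f5 : br q (((N + r + 1 : ℕ) : ℤ) + 1 + i) ≠ 0 :=
            hg.br_ne (by push_cast; omega) (by push_cast; omega)
          have f6 : br q ((N : ℤ) - i) ≠ 0 := hg.br_ne (by omega) (by push_cast; omega)
          rw [f2, f3]
          rcases ha with rfl | rfl
          · have g1 : br q ((N : ℤ) + ((r + 2 : ℕ) : ℤ) + i) =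
                br q (((N + r + 1 : ℕ) : ℤ) + 1 + i) := by
              congr 1
            have g2 : br q (((r + 2 : ℕ) : ℤ) - ((N : ℤ) + ((r + 2 : ℕ) : ℤ)) + i) =
                -br q ((N : ℤ) - i) := by
              rw [← Pool.Agent.H63.VC10.br_neg]
              congr 1
              push_cast
              ring
            rw [g1, g2]
            field_simp
          · have g1 : br q (-(N : ℤ) + i) = -br q ((N : ℤ) - i) := by
              rw [← Pool.Agent.H63.VC10.br_neg]
              congr 1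
              ring
            have g2 : br q (((r + 2 : ℕ) : ℤ) - -(N : ℤ) + i) =
                br q (((N + r + 1 : ℕ) : ℤ) + 1 + i) := by
              congr 1
              push_cast
              ring
            rw [g1, g2]
            field_simp
  rw [hprod]
  have h1 := B_Orth_up q (r + l) l (((r + l : ℕ) : ℤ) + 1) rfl
  have h2 := B_Orth_down q l l le_rfl
  have h3 := B_Orth_up q r l ((r : ℤ) + 1) rfl
  have h4 := B_Orth_up q (N + r + 1) l (((N + r + 1 : ℕ) : ℤ) + 1) rfl
  have h5 := B_Orth_down q N l hl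
  have h6 : (∏ i ∈ Finset.range l, br q ((i : ℤ) + 1)) = B_Orth_bf q l := rfl
  have hz : B_Orth_bf q (l - l) = 1 := by
    rw [Nat.sub_self]
    rfl
  rw [hz, mul_one] at h2
  have hS := B_Orth_dimS hg
  have hA := B_Orth_dimA hg hl
  have hqb := B_Orth_qb hg.1 hb1 (m := N + r + 1 + l) (k := N - l) (by omega)
  have hw : wk q (r + 2) N l l = (-1) ^ l * qb q (N + r + 1 + l) (N - l) := by
    unfold wk
    rw [if_pos le_rfl, Nat.sub_self, qb_zero_right, mul_one]
    congr 2
    omega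
  have e3 : N + r + 1 + l - (N - l) = (r + l + l) + 1 := by omega
  rw [e3, B_Orth_succ] at hqb
  have e4 : (((r + l + l : ℕ) : ℤ) + 1) = (r : ℤ) + 2 * l + 1 := by
    push_cast
    ring
  rw [e4] at hqb
  have n1 : B_Orth_bf q l ≠ 0 := B_Orth_ne hg (by omega)
  have n2 : B_Orth_bf q (r + l) ≠ 0 := B_Orth_ne hg (by omega)
  have n3 : B_Orth_bf q r ≠ 0 := B_Orth_ne hg (by omega)
  have n4 : B_Orth_bf q (N + r + 1) ≠ 0 := B_Orth_ne hg (by omega)
  have n5 : B_Orth_bf q (N - l) ≠ 0 := B_Orth_ne hg (by omega)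
  have n6 : B_Orth_bf q N ≠ 0 := B_Orth_ne hg (by omega)
  have n7 : B_Orth_bf q (r + l + l) ≠ 0 := B_Orth_ne hg (by omega)
  have n8 : B_Orth_bf q (N + r + 1 + l) ≠ 0 := B_Orth_ne hg (by omega)
  have n9 : br q ((r : ℤ) + 1) ≠ 0 := hg.br_ne (by omega) (by push_cast; omega)
  have n10 : br q ((r : ℤ) + 2 * l + 1) ≠ 0 := hg.br_ne (by omega) (by push_cast; omega)
  rw [B_Orth_succ] at hS
  have p1 : (∏ i ∈ Finset.range l, br q (((r + l : ℕ) : ℤ) + 1 + i)) =
      B_Orth_bf q (r + l + l) / B_Orth_bf q (r + l) := by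
    rw [eq_div_iff n2, h1]
  have p3 : (∏ i ∈ Finset.range l, br q ((r : ℤ) + 1 + i)) =
      B_Orth_bf q (r + l) / B_Orth_bf q r := by
    rw [eq_div_iff n3, h3]
  have p4 : (∏ i ∈ Finset.range l, br q (((N + r + 1 : ℕ) : ℤ) + 1 + i)) =
      B_Orth_bf q (N + r + 1 + l) / B_Orth_bf q (N + r + 1) := by
    rw [eq_div_iff n4, h4]
  have p5 : (∏ i ∈ Finset.range l, br q ((N : ℤ) - i)) =
      B_Orth_bf q N / B_Orth_bf q (N - l) := by
    rw [eq_div_iff n5, h5]
  have p6 : qb q (N + r + 1 + l) (N - l) = B_Orth_bf q (N + r + 1 + l) /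
      (B_Orth_bf q (N - l) * (B_Orth_bf q (r + l + l) * br q ((r : ℤ) + 2 * l + 1))) := by
    rw [eq_div_iff (mul_ne_zero n5 (mul_ne_zero n7 n10)), hqb]
  have p7 : dimA (r + 2) q l = br q ((r : ℤ) + 2 * l + 1) * B_Orth_bf q (r + l) ^ 2 /
      (br q ((r : ℤ) + 1) * (B_Orth_bf q r * B_Orth_bf q l) ^ 2) := by
    rw [eq_div_iff (mul_ne_zero n9 (pow_ne_zero 2 (mul_ne_zero n3 n1))), hA]
  have p8 : dimS (r + 2) N q = B_Orth_bf q (N + r + 1) /
      (B_Orth_bf q r * br q ((r : ℤ) + 1) * B_Orth_bf q N) := by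
    rw [eq_div_iff (mul_ne_zero (mul_ne_zero n3 n9) n6), hS]
  have hs : ((-1 : ℂ) ^ l) * (-1) ^ l = 1 := by
    rw [← mul_pow]
    norm_num
  rw [h6, p1, h2, p3, p4, p5, hw, p6, p7, p8]
  calc _ = ((-1 : ℂ) ^ l * (-1) ^ l) * (B_Orth_bf q l * (B_Orth_bf q (r + l + l) /
        B_Orth_bf q (r + l)) * B_Orth_bf q l / (B_Orth_bf q (r + l) / B_Orth_bf q r *
        (B_Orth_bf q (N + r + 1 + l) / B_Orth_bf q (N + r + 1)) *
        (B_Orth_bf q N / B_Orth_bf q (N - l))) * (B_Orth_bf q (N + r + 1 + l) /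
        (B_Orth_bf q (N - l) * (B_Orth_bf q (r + l + l) * br q ((r : ℤ) + 2 * l + 1)))) *
        (br q ((r : ℤ) + 2 * l + 1) * B_Orth_bf q (r + l) ^ 2 /
        (br q ((r : ℤ) + 1) * (B_Orth_bf q r * B_Orth_bf q l) ^ 2))) := by ring
    _ = _ := by
        rw [hs]
        field_simp

private theorem B_Orth_pa_lt (q : ℂ) (n t l : ℕ) (h : l < t) : pa q n t l = 0 := by
  unfold pa
  apply Finset.prod_eq_zero (Finset.mem_range.2 h)
  rw [sub_self, Pool.Agent.H63.VC10.br_zero, mul_zero]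

/-- The Racah matrix as a combination of the basis functions. -/
private theorem B_Orth_six {n N : ℕ} {q : ℂ} (hg : Gen q n N) (a : ℤ) {l : ℕ} (hl : l ≤ N) :
    ∃ c : ℕ → ℂ, (∀ k, l < k → c k = 0) ∧
      c l = (∏ i ∈ Finset.range l, (br q (a + i) / br q ((n : ℤ) - a + i))) *
        ((-1) ^ l * pa q n l l / (∏ i ∈ Finset.range l,
          (br q ((i : ℤ) + 1) * br q ((n : ℤ) + i - 1) * br q (a + i) ^ 2)) *
          ((-1) ^ l * ∏ i ∈ Finset.range l, br q ((i : ℤ) + 1) ^ 2)) ∧
      ∀ j ≤ N, six n q N a j l = ∑ k ∈ Finset.range (N + 1), c k * LE q k j := by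
  have H := fun (t : ℕ) (ht : t ≤ N) => ps_LE hg a ht
  choose d hd1 hd2 hd3 using H
  classical
  let D : ℕ → ℂ := fun t => ∏ i ∈ Finset.range t,
    (br q ((i : ℤ) + 1) * br q ((n : ℤ) + i - 1) * br q (a + i) ^ 2)
  let e : ℕ → ℕ → ℂ := fun t k => if ht : t ≤ N then d t ht k else 0
  have he1 : ∀ t k, t < k → e t k = 0 := by
    intro t k htk
    by_cases ht : t ≤ N
    · simp only [e, dif_pos ht]
      exact hd1 t ht k htk
    · simp only [e, dif_neg ht]
  have he2 : e l l = (-1) ^ l * ∏ i ∈ Finset.range l, br q ((i : ℤ) + 1) ^ 2 := by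
    simp only [e, dif_pos hl]
    exact hd2 l hl
  have he3 : ∀ t ≤ N, ∀ j ≤ N, ps q a t j = ∑ k ∈ Finset.range (N + 1), e t k * LE q k j := by
    intro t ht j hj
    simp only [e, dif_pos ht]
    exact hd3 t ht j hj
  let P : ℂ := ∏ i ∈ Finset.range l, (br q (a + i) / br q ((n : ℤ) - a + i))
  refine ⟨fun k => P * ∑ t ∈ Finset.range (N + 1), (-1) ^ t * pa q n t l / D t * e t k, ?_, ?_, ?_⟩
  · intro k hk
    change P * ∑ t ∈ Finset.range (N + 1), (-1) ^ t * pa q n t l / D t * e t k = 0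
    rw [Finset.sum_eq_zero, mul_zero]
    intro t _
    rcases Nat.lt_or_ge l t with h | h
    · rw [B_Orth_pa_lt q n t l h, mul_zero, zero_div, zero_mul]
    · rw [he1 t k (by omega), mul_zero]
  · change P * ∑ t ∈ Finset.range (N + 1), (-1) ^ t * pa q n t l / D t * e t l = _
    rw [Finset.sum_eq_single l]
    · rw [he2]
    · intro t _ htl
      rcases Nat.lt_or_ge l t with h | h
      · rw [B_Orth_pa_lt q n t l h, mul_zero, zero_div, zero_mul]
      · rw [he1 t l (by omega), mul_zero]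
    · intro h
      exact absurd (Finset.mem_range.2 (by omega)) h
  · intro j hj
    change P * ∑ t ∈ Finset.range (N + 1), (-1) ^ t * (pa q n t l * ps q a t j) / D t =
      ∑ k ∈ Finset.range (N + 1),
        (P * ∑ t ∈ Finset.range (N + 1), (-1) ^ t * pa q n t l / D t * e t k) * LE q k j
    have h1 : ∀ t ∈ Finset.range (N + 1), (-1 : ℂ) ^ t * (pa q n t l * ps q a t j) / D t =
        ∑ k ∈ Finset.range (N + 1), (-1) ^ t * pa q n t l / D t * e t k * LE q k j := by
      intro t ht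
      rw [he3 t (by have := Finset.mem_range.1 ht; omega) j hj, Finset.mul_sum, Finset.mul_sum,
        Finset.sum_div]
      exact Finset.sum_congr rfl fun k _ => by ring
    rw [Finset.sum_congr rfl h1, Finset.sum_comm, Finset.mul_sum]
    refine Finset.sum_congr rfl fun k _ => ?_
    rw [mul_assoc, Finset.sum_mul]

private theorem B_Orth_k1 {n N : ℕ} {q : ℂ} (hg : Gen q n N) (hn : 2 ≤ n) {a : ℤ}
    (ha : IsA n N a) {k l : ℕ} (hk : k ≤ N) (hl : l ≤ N) :
    Ro n q N a (LE q k) l = wk q n N k l := by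
  rcases ha with rfl | rfl
  · exact k1p hg hn hk hl
  · exact k1m hg hn hk hl

/-- The sums of products of entries of the Racah matrix. -/
private theorem B_Orth_sum {n N : ℕ} {q : ℂ} (hg : Gen q n N) (hn : 2 ≤ n) {a : ℤ}
    (ha : IsA n N a) {l m : ℕ} (hl : l ≤ N) (hm : m ≤ l) :
    (∑ j ∈ Finset.range (N + 1), dimT n N q j / dimS n N q * six n q N a j l *
      six n q N a j m) * dimA n q m = if l = m then dimS n N q else 0 := by
  obtain ⟨c, hc1, hc2, hc3⟩ := B_Orth_six hg a (l := m) (by omega)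
  have h1 : ∑ j ∈ Finset.range (N + 1), dimT n N q j / dimS n N q * six n q N a j l *
      six n q N a j m = ∑ k ∈ Finset.range (N + 1), c k * wk q n N k l := by
    have h2 : ∀ j ∈ Finset.range (N + 1), dimT n N q j / dimS n N q * six n q N a j l *
        six n q N a j m = ∑ k ∈ Finset.range (N + 1),
          c k * (dimT n N q j / dimS n N q * six n q N a j l * LE q k j) := by
      intro j hj
      rw [hc3 j (by have := Finset.mem_range.1 hj; omega), Finset.mul_sum]
      exact Finset.sum_congr rfl fun k _ => by ring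
    rw [Finset.sum_congr rfl h2, Finset.sum_comm]
    refine Finset.sum_congr rfl fun k hk => ?_
    rw [← B_Orth_k1 hg hn ha (by have := Finset.mem_range.1 hk; omega) hl, ← Finset.mul_sum]
    rfl
  rw [h1]
  by_cases hlm : l = m
  · subst hlm
    rw [if_pos rfl, Finset.sum_eq_single l]
    · rw [hc2]
      exact B_Orth_diag hg hn ha hl
    · intro k _ hk
      rcases Nat.lt_or_ge l k with h | h
      · rw [hc1 k h, zero_mul]
      · unfold wk
        rw [if_neg (by omega), mul_zero]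
    · intro h
      exact absurd (Finset.mem_range.2 (by omega)) h
  · rw [if_neg hlm, Finset.sum_eq_zero, zero_mul]
    intro k _
    rcases Nat.lt_or_ge m k with h | h
    · rw [hc1 k h, zero_mul]
    · unfold wk
      rw [if_neg (by omega), mul_zero]

theorem Ro_Rt {n N : ℕ} {q : ℂ} (hg : Gen q n N) (hn : 2 ≤ n) {a : ℤ} (ha : IsA n N a)
    (F : ℕ → ℂ) {l : ℕ} (hl : l ≤ N) : Ro n q N a (Rt n q N a F) l = F l := by
  have hS : dimS n N q ≠ 0 := dimS_ne q n N hg hn
  have key : ∀ m ≤ N, (∑ j ∈ Finset.range (N + 1), dimT n N q j / dimS n N q *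
      six n q N a j l * six n q N a j m) * dimA n q m = if l = m then dimS n N q else 0 := by
    intro m hm
    rcases Nat.lt_or_ge l m with h | h
    · have h1 := B_Orth_sum hg hn ha hm h.le
      rw [if_neg (by omega)] at h1
      have h2 : dimA n q l ≠ 0 := dimA_ne q n N l hg hn hl
      have h3 := (mul_eq_zero.1 h1).resolve_right h2
      rw [if_neg (by omega)]
      have h4 : ∑ j ∈ Finset.range (N + 1), dimT n N q j / dimS n N q *
          six n q N a j l * six n q N a j m = 0 := by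
        rw [← h3]
        exact Finset.sum_congr rfl fun j _ => by ring
      rw [h4, zero_mul]
    · exact B_Orth_sum hg hn ha hl h
  unfold Ro Rt
  have h1 : ∀ j ∈ Finset.range (N + 1), dimT n N q j / dimS n N q * six n q N a j l *
      (∑ m ∈ Finset.range (N + 1), dimA n q m / dimS n N q * six n q N a j m * F m) =
      ∑ m ∈ Finset.range (N + 1), (dimT n N q j / dimS n N q * six n q N a j l *
        six n q N a j m) * (dimA n q m / dimS n N q * F m) := by
    intro j _
    rw [Finset.mul_sum]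
    exact Finset.sum_congr rfl fun m _ => by ring
  rw [Finset.sum_congr rfl h1, Finset.sum_comm]
  have h2 : ∀ m ∈ Finset.range (N + 1), ∑ j ∈ Finset.range (N + 1),
      (dimT n N q j / dimS n N q * six n q N a j l * six n q N a j m) *
        (dimA n q m / dimS n N q * F m) = if l = m then F m else 0 := by
    intro m hm
    rw [← Finset.sum_mul]
    have h3 := key m (by have := Finset.mem_range.1 hm; omega)
    calc _ = ((∑ j ∈ Finset.range (N + 1), dimT n N q j / dimS n N q *
          six n q N a j l * six n q N a j m) * dimA n q m) * (F m / dimS n N q) := by ring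
      _ = _ := by
          rw [h3]
          split_ifs with hlm
          · field_simp
          · rw [zero_mul]
  rw [Finset.sum_congr rfl h2, Finset.sum_ite_eq, if_pos (Finset.mem_range.2 (by omega))]

end Pool.Agent.S4
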