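import Pool.Agent.H63.VC12.Path12

/-! # The colored invariants of the diagrams of two-bridge links -/

namespace Pool.Agent.S4

open Pool.Agent.H63.VC7 Pool.Agent.H63.VC8 Pool.Agent.H63.VC11 Pool.Agent.H63.VC12

theorem coloredSU_hf {n N m : ℕ} {q : ℂ} (hg : Gen q n N) (hn : 2 ≤ n) (r : Fin (m + 1) → ℤ) :
    coloredSU (diagram Fin.castSucc r) n N q = hf q n N (List.ofFn r) 0 := by
  have hq : q ≠ 0 := hg.1
  have hd := dimS_ne q n N hg hn
  have hofn : List.ofFn r = (List.finRange (m + 1)).map r := List.ofFn_eq_map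
  have hlist : r 0 :: ((List.finRange (m + 1)).drop 1).map r = (List.finRange (m + 1)).map r := by
    rw [List.finRange_succ]
    simp
  have h1 : bracket q n N (diagram Fin.castSucc r) =
      q ^ (-2 * ((N : ℤ) * ((N : ℤ) + n - 1)) * ∑ i, r i) * (dimS n N q *
        hf q n N ((List.finRange (m + 1)).map r) 0) := by
    rw [bracket_eq_fv q N hg hn Fin.castSucc r]
    have h2 : ∀ X ∈ Finset.range (N + 1), dimA n q X * fv q n N Fin.castSucc r (m + 1) 0 X =
        q ^ (-2 * ((N : ℤ) * ((N : ℤ) + n - 1)) * ∑ i, r i) * (dimA n q X *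
          (tt q n X ^ r 0 * hf q n N (((List.finRange (m + 1)).drop 1).map r) X)) := by
      intro X _
      rw [fv_path q n N m hg hn r (m + 1) 0 (by simp) X]
      have hI : Finset.Ici (0 : Fin (m + 1)) = Finset.univ := by
        ext i
        simp
      rw [hI, Fin.val_zero, zero_add]
      ring
    rw [Finset.sum_congr rfl h2, ← Finset.mul_sum, ← Ph_zero q n N hg hn
      (fun X => tt q n X ^ r 0 * hf q n N (((List.finRange (m + 1)).drop 1).map r) X)]
    congr 2
    rw [← hlist]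
    rfl
  rw [hofn]
  unfold coloredSU
  rw [h1, writhe_diagram Fin.castSucc (fun j => le_refl _) r]
  have h3 : q ^ (-((N : ℤ) * ((N : ℤ) + n - 1) * (-2 * ∑ i, r i))) *
      q ^ (-2 * ((N : ℤ) * ((N : ℤ) + n - 1)) * ∑ i, r i) = 1 := by
    rw [← zpow_add₀ hq]
    have : -((N : ℤ) * ((N : ℤ) + n - 1) * (-2 * ∑ i, r i)) +
        -2 * ((N : ℤ) * ((N : ℤ) + n - 1)) * ∑ i, r i = 0 := by ring
    rw [this, zpow_zero]
  rw [div_eq_iff hd]
  linear_combination (dimS n N q * hf q n N ((List.finRange (m + 1)).map r) 0) * h3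

end Pool.Agent.S4
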