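import Pool.Agent.S4.B.Mf
import Pool.Agent.S4.B.Hf

/-! # The colored invariants as sums over the channels -/

namespace Pool.Agent.S4

open Pool.Agent.H63.VC7 Pool.Agent.H63.VC8 Pool.Agent.H63.VC11 Pool.Agent.H63.VC12

private theorem B_Mix_sum (s : Finset ℕ) (m : ℕ) (F : (Fin (m + 1) → ℕ) → ℂ) :
    ∑ X ∈ Fintype.piFinset (fun _ : Fin (m + 1) => s), F X =
      ∑ Y ∈ s, ∑ Z ∈ Fintype.piFinset (fun _ : Fin m => s),
        F (Fin.cons (α := fun _ => ℕ) Y Z) := by
  rw [← Finset.sum_product' s (Fintype.piFinset (fun _ : Fin m => s))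
    (fun Y Z => F (Fin.cons (α := fun _ => ℕ) Y Z))]
  refine Finset.sum_equiv (Fin.consEquiv (fun _ : Fin (m + 1) => ℕ)).symm (fun X => ?_)
    (fun X _ => ?_)
  · simp only [Fintype.mem_piFinset, Finset.mem_product, Fin.forall_fin_succ]
    exact Iff.rfl
  · show F X = F (Fin.cons (α := fun _ => ℕ) (X 0) (Fin.tail X))
    rw [Fin.cons_self_tail]

private theorem B_Mix_gen {n N : ℕ} {q : ℂ} {a : ℤ} : ∀ (m : ℕ) (P : Fin (m + 1) → Bool)
    (b : Fin (m + 1) → ℤ) (P' : Bool) (X0 : ℕ),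
    ∑ X ∈ Fintype.piFinset (fun _ : Fin (m + 1) => Finset.range (N + 1)),
      ker n q N a P' (P 0) X0 (X 0) * ((∏ i, vw n q N (P i) (b i) (X i)) *
        ∏ j : Fin m, ker n q N a (P j.castSucc) (P j.succ) (X j.castSucc) (X j.succ)) =
      mf n q N a (List.ofFn fun i => (P i, b i)) P' X0
  | 0, P, b, P', X0 => by
    rw [B_Mix_sum]
    simp [mf]
  | m + 1, P, b, P', X0 => by
    rw [B_Mix_sum, List.ofFn_succ, mf]
    refine Finset.sum_congr rfl fun Y _ => ?_
    have h := B_Mix_gen (n := n) (N := N) (q := q) (a := a) m (fun i => P i.succ)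
      (fun i => b i.succ) (P 0) Y
    rw [← h, Finset.mul_sum, Finset.mul_sum]
    refine Finset.sum_congr rfl fun Z _ => ?_
    rw [Fin.prod_univ_succ, Fin.prod_univ_succ (n := m) (fun j => ker n q N a (P j.castSucc)
      (P j.succ) (Fin.cons (α := fun _ => ℕ) Y Z j.castSucc) (Fin.cons (α := fun _ => ℕ) Y Z j.succ))]
    simp only [Fin.cons_zero, Fin.cons_succ, Fin.castSucc_zero, Fin.castSucc_succ]
    ring

private theorem B_Mix_ker {n N : ℕ} {q : ℂ} {a : ℤ} (P : Bool) (Y : ℕ) :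
    ker n q N a false P 0 Y = 1 := by
  cases P with
  | true => exact six_zero a Y
  | false =>
    show sixn n q N 0 Y = 1
    unfold sixn
    rw [Finset.sum_range_succ', Finset.sum_eq_zero]
    · simp
    · intro t _
      rw [Finset.prod_eq_zero (Finset.mem_range.2 (Nat.succ_pos t)), mul_zero]
      have : br q (((0 : ℕ) : ℤ) - ((0 : ℕ) : ℤ)) = 0 := by
        simp [br]
      rw [this]
      simp

theorem mix_mf {n N m : ℕ} {q : ℂ} (hg : Gen q n N) (hn : 2 ≤ n) {a : ℤ} (ha : IsA n N a)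
    (P : Fin (m + 1) → Bool) (b : Fin (m + 1) → ℤ) :
    mix n q N a P b = mf n q N a (List.ofFn fun i => (P i, b i)) false 0 := by
  rw [← B_Mix_gen, mix]
  refine Finset.sum_congr rfl fun X _ => ?_
  rw [B_Mix_ker, one_mul]

private theorem B_Mix_filt (L : List (Bool × ℤ)) :
    ((L.filter (fun x => x.1)).map Prod.snd).sum = (L.map fun x => if x.1 then x.2 else 0).sum := by
  induction L with
  | nil => rfl
  | cons x L ih =>
    obtain ⟨p, c⟩ := x
    cases p with
    | true => simp [ih]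
    | false => simp [ih]

theorem coloredSU_mix {n N m p : ℕ} {q : ℂ} (hg : Gen q n N) (hn : 2 ≤ n) {a : ℤ}
    (ha : IsA n N a) (P : Fin (m + 1) → Bool) (b : Fin (m + 1) → ℤ)
    (hP : OkL 0 (List.ofFn fun i => (P i, b i))) (r : Fin (p + 1) → ℤ)
    (hr : List.ofFn r = exr 0 (List.ofFn fun i => (P i, b i))) :
    coloredSU (diagram Fin.castSucc r) n N q =
      ka q n N ^ (-∑ i, if P i then b i else 0) * mix n q N a P b := by
  have hq : q ≠ 0 := hg.1
  have hk : ka q n N ≠ 0 := by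
    unfold ka
    exact mul_ne_zero (pow_ne_zero _ (by norm_num)) (zpow_ne_zero _ hq)
  have e : (((List.ofFn fun i => (P i, b i)).filter (fun x => x.1)).map Prod.snd).sum =
      ∑ i, if P i then b i else 0 := by
    rw [B_Mix_filt, List.map_ofFn, List.sum_ofFn]
    rfl
  rw [coloredSU_hf hg hn r, mix_mf hg hn ha P b, mf_exr hg hn ha _ hP (Nat.zero_le N), e, hr]
  have h0 : twA q n 0 = 1 := by simp [twA]
  rw [h0, one_zpow, one_mul, ← mul_assoc, ← zpow_add₀ hk, neg_add_cancel, zpow_zero, one_mul]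

end Pool.Agent.S4
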