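import Pool.Agent.S4.B.Orth
import Pool.Agent.S4.B.Hex

/-! # A twist region of parallel strands as a chain of annuli -/

namespace Pool.Agent.S4

open Pool.Agent.H63.VC7 Pool.Agent.H63.VC8 Pool.Agent.H63.VC11 Pool.Agent.H63.VC12

theorem hfg_append (q : ℂ) (n N : ℕ) (l1 l2 : List ℤ) (f : ℕ → ℂ) (X : ℕ) :
    hfg q n N (l1 ++ l2) f X = hfg q n N l1 (hfg q n N l2 f) X := by
  induction l1 generalizing X with
  | nil => rfl
  | cons a l ih =>
    show Ph q n N (fun Y => tt q n Y ^ a * hfg q n N (l ++ l2) f Y) X =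
      Ph q n N (fun Y => tt q n Y ^ a * hfg q n N l (hfg q n N l2 f) Y) X
    congr 1
    funext Y
    rw [ih]

private theorem B_St_Ph_smul {q : ℂ} {n N : ℕ} (hg : Gen q n N) (hn : 2 ≤ n) (c : ℂ)
    (f : ℕ → ℂ) (X : ℕ) : Ph q n N (fun Y => c * f Y) X = c * Ph q n N f X := by
  have h := Ph_sum q n N hg hn (Finset.univ : Finset Unit) (fun _ => c) (fun _ => f) X
  simpa using h

private theorem B_St_twA_ne {q : ℂ} (hq : q ≠ 0) (n X : ℕ) : twA q n X ≠ 0 :=
  mul_ne_zero (pow_ne_zero _ (by norm_num)) (zpow_ne_zero _ hq)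

private theorem B_St_twS_ne {q : ℂ} (hq : q ≠ 0) (X : ℕ) : twS q X ≠ 0 :=
  mul_ne_zero (pow_ne_zero _ (by norm_num)) (zpow_ne_zero _ hq)

private theorem B_St_ka_ne {q : ℂ} (hq : q ≠ 0) (n N : ℕ) : ka q n N ≠ 0 :=
  mul_ne_zero (pow_ne_zero _ (by norm_num)) (zpow_ne_zero _ hq)

private theorem B_St_tt {q : ℂ} (hq : q ≠ 0) (n X : ℕ) (r : ℤ) :
    twA q n X ^ r * twA q n X ^ r = tt q n X ^ r := by
  rw [← mul_zpow]
  congr 1
  unfold twA tt
  have hs : ((-1 : ℂ) ^ X) * (-1) ^ X = 1 := by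
    rw [← mul_pow]
    norm_num
  rw [two_mul, zpow_add₀ hq]
  linear_combination (q ^ ((X : ℤ) * ((X : ℤ) + n - 1)) * q ^ ((X : ℤ) * ((X : ℤ) + n - 1))) * hs

theorem stP {n N : ℕ} {q : ℂ} (hg : Gen q n N) (hn : 2 ≤ n) {a : ℤ} (ha : IsA n N a) {ε : ℤ}
    (hε : ε = 1 ∨ ε = -1) {d : ℕ} (hd : 1 ≤ d) (F : ℕ → ℂ) {l : ℕ} (hl : l ≤ N) :
    Ro n q N a (fun j => twS q j ^ (ε * d) * Rt n q N a F j) l =
      ka q n N ^ (ε * d) * (twA q n l ^ (-ε) * hfg q n N (List.replicate (d - 1) (-ε))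
        (Ph q n N (fun Y => twA q n Y ^ (-ε) * F Y)) l) := by
  have hq : q ≠ 0 := hg.1
  induction d, hd using Nat.le_induction generalizing l with
  | base =>
    rw [Nat.cast_one, mul_one, hexa hg hn ha hε (Rt n q N a F) hl]
    have e1 : Ph q n N (fun l => twA q n l ^ (-ε) * Ro n q N a (Rt n q N a F) l) l =
        Ph q n N (fun Y => twA q n Y ^ (-ε) * F Y) l := by
      refine Ph_congr q n N hg hn _ _ (fun Y hY => ?_) l
      rw [Ro_Rt hg hn ha F hY]
    rw [e1]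
    rfl
  | succ d hd ih =>
    have e1 : (fun j => twS q j ^ (ε * ((d + 1 : ℕ) : ℤ)) * Rt n q N a F j) =
        fun j => twS q j ^ ε * (twS q j ^ (ε * (d : ℤ)) * Rt n q N a F j) := by
      funext j
      have e2 : ε * ((d + 1 : ℕ) : ℤ) = ε + ε * (d : ℤ) := by
        push_cast
        ring
      rw [e2, zpow_add₀ (B_St_twS_ne hq j)]
      ring
    rw [e1, hexa hg hn ha hε (fun j => twS q j ^ (ε * (d : ℤ)) * Rt n q N a F j) hl]
    have e3 : Ph q n N (fun l => twA q n l ^ (-ε) *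
        Ro n q N a (fun j => twS q j ^ (ε * (d : ℤ)) * Rt n q N a F j) l) l =
        ka q n N ^ (ε * (d : ℤ)) * hfg q n N (List.replicate d (-ε))
          (Ph q n N (fun Y => twA q n Y ^ (-ε) * F Y)) l := by
      have e4 : Ph q n N (fun l => twA q n l ^ (-ε) *
          Ro n q N a (fun j => twS q j ^ (ε * (d : ℤ)) * Rt n q N a F j) l) l =
          Ph q n N (fun Y => ka q n N ^ (ε * (d : ℤ)) * (tt q n Y ^ (-ε) *
            hfg q n N (List.replicate (d - 1) (-ε))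
              (Ph q n N (fun Y => twA q n Y ^ (-ε) * F Y)) Y)) l := by
        refine Ph_congr q n N hg hn _ _ (fun Y hY => ?_) l
        rw [ih hY, ← B_St_tt hq]
        ring
      rw [e4, B_St_Ph_smul hg hn]
      have e5 : List.replicate d (-ε) = -ε :: List.replicate (d - 1) (-ε) := by
        conv_lhs => rw [show d = (d - 1) + 1 by omega]
        rw [List.replicate_succ]
      rw [e5]
      rfl
    rw [e3, show d + 1 - 1 = d by omega]
    have e6 : ε * ((d + 1 : ℕ) : ℤ) = ε + ε * (d : ℤ) := by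
      push_cast
      ring
    rw [e6, zpow_add₀ (B_St_ka_ne hq n N)]
    ring

end Pool.Agent.S4
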