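import Pool.Agent.S4.B.LE

/-! # Sums over the channels of parallel strands -/

namespace Pool.Agent.S4

open Pool.Agent.H63.VC7 Pool.Agent.H63.VC8 Pool.Agent.H63.VC11 Pool.Agent.H63.VC12

private theorem B_TSum_zero (q : ℂ) : br q 0 = 0 := by simp [br]

private theorem B_TSum_alg {q : ℂ} (hq : q ≠ 0) (N j k n : ℤ) :
    br q (N + j + n) * br q (N - j) * br q (j + k + 1) * br q (j + 1) -
      br q (N + j + 1) * br q (N - j + n - 1) * br q (j - k) * br q j =
    br q (2 * j + 1) * (br q (k + 1) * br q (N - k) * br q (N + n + k) -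
      br q (n + k) * br q (j - k) * br q (j + k + 1)) := by
  unfold br
  simp only [zpow_add₀ hq, zpow_sub₀ hq, zpow_neg, zpow_one, two_mul, neg_sub, neg_add_rev]
  have h1 : q ^ N ≠ 0 := zpow_ne_zero _ hq
  have h2 : q ^ j ≠ 0 := zpow_ne_zero _ hq
  have h3 : q ^ k ≠ 0 := zpow_ne_zero _ hq
  have h4 : q ^ n ≠ 0 := zpow_ne_zero _ hq
  generalize q ^ N = x at *
  generalize q ^ j = y at *
  generalize q ^ k = z at *
  generalize q ^ n = w at *
  field_simp
  ring

private theorem B_TSum_alg2 {q : ℂ} (hq : q ≠ 0) (N J n : ℤ) :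
    br q (N + J + 1) * br q (N - J + n - 1) - br q (N + J + n) * br q (N - J) =
      br q (2 * J + 1) * br q (n - 1) := by
  unfold br
  simp only [zpow_add₀ hq, zpow_sub₀ hq, zpow_neg, zpow_one, two_mul, neg_sub, neg_add_rev]
  have h1 : q ^ N ≠ 0 := zpow_ne_zero _ hq
  have h2 : q ^ J ≠ 0 := zpow_ne_zero _ hq
  have h4 : q ^ n ≠ 0 := zpow_ne_zero _ hq
  generalize q ^ N = x at *
  generalize q ^ J = y at *
  generalize q ^ n = w at *
  field_simp
  ring

/-- The slot product of the parallel channels. -/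
private noncomputable def B_TSum_p (q : ℂ) (m : ℕ) (N j : ℤ) : ℂ :=
  ∏ i ∈ Finset.range m, (br q (N + j + i + 2) * br q (N - j + i + 1))

/-- The basis function as a product. -/
private noncomputable def B_TSum_L (q : ℂ) (k : ℕ) (j : ℤ) : ℂ :=
  ∏ i ∈ Finset.range k, (br q (j - i) * br q (j + i + 1) / br q ((i : ℤ) + 1) ^ 2)

private theorem B_TSum_p_shift (q : ℂ) (m : ℕ) (N j : ℤ) :
    B_TSum_p q m N (j + 1) * (br q (N + j + 2) * br q (N - j + m)) =
      B_TSum_p q m N j * (br q (N + j + m + 2) * br q (N - j)) := by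
  induction m with
  | zero => simp [B_TSum_p]
  | succ m ih =>
    unfold B_TSum_p at ih ⊢
    rw [Finset.prod_range_succ, Finset.prod_range_succ]
    have e1 : N + (j + 1) + (m : ℤ) + 2 = N + j + ((m + 1 : ℕ) : ℤ) + 2 := by push_cast; ring
    have e2 : N - (j + 1) + (m : ℤ) + 1 = N - j + m := by ring
    have e3 : N - j + ((m + 1 : ℕ) : ℤ) = N - j + m + 1 := by push_cast; ring
    rw [e1, e2, e3]
    linear_combination (br q (N + j + ((m + 1 : ℕ) : ℤ) + 2) * br q (N - j + m + 1)) * ih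

private theorem B_TSum_L_shift (q : ℂ) (k : ℕ) (j : ℤ) :
    br q (j + 1 - k) * br q (j + 1) * B_TSum_L q k (j + 1) =
      br q (j + k + 1) * br q (j + 1) * B_TSum_L q k j := by
  induction k with
  | zero => simp [B_TSum_L]
  | succ k ih =>
    unfold B_TSum_L at ih ⊢
    rw [Finset.prod_range_succ, Finset.prod_range_succ]
    have e1 : j + 1 - ((k + 1 : ℕ) : ℤ) = j - k := by push_cast; ring
    have e2 : j + ((k + 1 : ℕ) : ℤ) + 1 = j + 1 + k + 1 := by push_cast; ring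
    rw [e1, e2]
    linear_combination (br q (j - k) * br q (j + 1 + k + 1) / br q ((k : ℤ) + 1) ^ 2) * ih

private theorem B_TSum_L_succ (q : ℂ) (k : ℕ) (j : ℤ) (h : br q ((k : ℤ) + 1) ≠ 0) :
    br q (j - k) * br q (j + k + 1) * B_TSum_L q k j =
      br q ((k : ℤ) + 1) ^ 2 * B_TSum_L q (k + 1) j := by
  unfold B_TSum_L
  rw [Finset.prod_range_succ]
  field_simp

private theorem B_TSum_step {q : ℂ} (hq : q ≠ 0) (m N k j : ℕ) (h : br q ((k : ℤ) + 1) ≠ 0) :
    B_TSum_p q m N ((j + 1 : ℕ) : ℤ) * br q ((N : ℤ) + ((j + 1 : ℕ) : ℤ) + 1) *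
        br q ((N : ℤ) - ((j + 1 : ℕ) : ℤ) + ((m : ℤ) + 2) - 1) *
        (br q (((j + 1 : ℕ) : ℤ) - k) * br q ((j + 1 : ℕ) : ℤ) * B_TSum_L q k ((j + 1 : ℕ) : ℤ)) -
      B_TSum_p q m N (j : ℤ) * br q ((N : ℤ) + (j : ℤ) + 1) *
        br q ((N : ℤ) - (j : ℤ) + ((m : ℤ) + 2) - 1) *
        (br q ((j : ℤ) - k) * br q (j : ℤ) * B_TSum_L q k (j : ℤ)) =
    br q ((k : ℤ) + 1) * br q ((N : ℤ) - k) * br q ((N : ℤ) + ((m : ℤ) + 2) + k) *
        (br q (2 * (j : ℤ) + 1) * B_TSum_p q m N j * B_TSum_L q k j) -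
      br q (((m : ℤ) + 2) + k) * br q ((k : ℤ) + 1) ^ 2 *
        (br q (2 * (j : ℤ) + 1) * B_TSum_p q m N j * B_TSum_L q (k + 1) j) := by
  have e0 : ((j + 1 : ℕ) : ℤ) = (j : ℤ) + 1 := by push_cast; ring
  have e1 : (N : ℤ) + ((j : ℤ) + 1) + 1 = N + j + 2 := by ring
  have e2 : (N : ℤ) - ((j : ℤ) + 1) + ((m : ℤ) + 2) - 1 = N - j + m := by ring
  rw [e0, e1, e2, B_TSum_L_shift]
  have h1 := B_TSum_p_shift q m N j
  have h2 := B_TSum_L_succ q k j h
  have h3 := B_TSum_alg hq (N : ℤ) j k ((m : ℤ) + 2)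
  have e3 : (N : ℤ) + j + ((m : ℤ) + 2) = N + j + m + 2 := by ring
  rw [e3] at h3
  linear_combination (br q ((j : ℤ) + k + 1) * br q ((j : ℤ) + 1) * B_TSum_L q k j) * h1 +
    (B_TSum_p q m N j * B_TSum_L q k j) * h3 -
    (br q (2 * (j : ℤ) + 1) * br q (((m : ℤ) + 2) + k) * B_TSum_p q m N j) * h2

private theorem B_TSum_rec {q : ℂ} (hq : q ≠ 0) (m N k : ℕ) (h : br q ((k : ℤ) + 1) ≠ 0)
    (h' : br q (((m : ℤ) + 2) + k) ≠ 0) :
    ∑ j ∈ Finset.range (N + 1),
        br q (2 * (j : ℤ) + 1) * B_TSum_p q m N j * B_TSum_L q (k + 1) j =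
      br q ((N : ℤ) - k) * br q ((N : ℤ) + ((m : ℤ) + 2) + k) /
        (br q ((k : ℤ) + 1) * br q (((m : ℤ) + 2) + k)) *
      ∑ j ∈ Finset.range (N + 1), br q (2 * (j : ℤ) + 1) * B_TSum_p q m N j * B_TSum_L q k j := by
  have hs := Finset.sum_range_sub (fun j : ℕ =>
    B_TSum_p q m N (j : ℤ) * br q ((N : ℤ) + (j : ℤ) + 1) *
        br q ((N : ℤ) - (j : ℤ) + ((m : ℤ) + 2) - 1) *
        (br q ((j : ℤ) - k) * br q (j : ℤ) * B_TSum_L q k (j : ℤ))) (N + 1)
  rw [Finset.sum_congr rfl (fun j _ => B_TSum_step hq m N k j h), Finset.sum_sub_distrib,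
    ← Finset.mul_sum, ← Finset.mul_sum] at hs
  have hN : B_TSum_p q m N ((N + 1 : ℕ) : ℤ) * br q ((N : ℤ) + ((N + 1 : ℕ) : ℤ) + 1) *
        br q ((N : ℤ) - ((N + 1 : ℕ) : ℤ) + ((m : ℤ) + 2) - 1) = 0 := by
    have e0 : ((N + 1 : ℕ) : ℤ) = (N : ℤ) + 1 := by push_cast; ring
    have e1 : (N : ℤ) + ((N : ℤ) + 1) + 1 = N + N + 2 := by ring
    have e2 : (N : ℤ) - ((N : ℤ) + 1) + ((m : ℤ) + 2) - 1 = N - N + m := by ring
    rw [e0, e1, e2, mul_assoc, B_TSum_p_shift, sub_self, B_TSum_zero, mul_zero, mul_zero]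
  rw [hN] at hs
  simp only [Nat.cast_zero, B_TSum_zero, mul_zero, zero_mul, sub_zero] at hs
  rw [eq_comm, div_mul_eq_mul_div, div_eq_iff (mul_ne_zero h h')]
  apply mul_left_cancel₀ h
  linear_combination hs

/-- The dimension as a product over the other side. -/
private noncomputable def B_TSum_S (q : ℂ) (m : ℕ) (M : ℤ) : ℂ :=
  ∏ i ∈ Finset.range (m + 1), br q (M + i + 1)

private theorem B_TSum_S_shift (q : ℂ) (m : ℕ) (M : ℤ) :
    B_TSum_S q m (M + 1) * br q (M + 1) = B_TSum_S q m M * br q (M + m + 2) := by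
  unfold B_TSum_S
  have h1 := Finset.prod_range_succ (fun i : ℕ => br q (M + i + 1)) (m + 1)
  have h2 := Finset.prod_range_succ' (fun i : ℕ => br q (M + i + 1)) (m + 1)
  rw [h1] at h2
  have e1 : M + ((m + 1 : ℕ) : ℤ) + 1 = M + m + 2 := by push_cast; ring
  have e2 : M + ((0 : ℕ) : ℤ) + 1 = M + 1 := by push_cast; ring
  rw [e1, e2] at h2
  rw [h2]
  congr 1
  refine Finset.prod_congr rfl fun i _ => ?_
  congr 1
  push_cast
  ring

private theorem B_TSum_dimS {q : ℂ} (m N : ℕ) (H : ∀ i : ℕ, 1 ≤ i → i ≤ m + 1 + N → br q i ≠ 0) :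
    dimS (m + 2) N q * ∏ i ∈ Finset.range (m + 1), br q ((i : ℤ) + 1) = B_TSum_S q m N := by
  induction N with
  | zero =>
    simp only [dimS, Finset.range_zero, Finset.prod_empty, one_mul, B_TSum_S]
    refine Finset.prod_congr rfl fun i _ => ?_
    congr 1
    push_cast
    ring
  | succ N ih =>
    have ih' := ih (fun i h1 h2 => H i h1 (by omega))
    have hs := B_TSum_S_shift q m N
    have hne : br q ((N : ℤ) + 1) ≠ 0 := by
      have := H (N + 1) (by omega) (by omega)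
      push_cast at this
      exact this
    have e0 : ((N + 1 : ℕ) : ℤ) = (N : ℤ) + 1 := by push_cast; ring
    have e1 : ((m + 2 : ℕ) : ℤ) + (N : ℤ) = N + m + 2 := by push_cast; ring
    rw [e0]
    apply mul_right_cancel₀ hne
    rw [hs, ← ih']
    unfold dimS
    rw [Finset.prod_range_succ, e1]
    field_simp

private theorem B_TSum_S_split (q : ℂ) (m : ℕ) (N J : ℤ) :
    B_TSum_S q m (N + J) * B_TSum_S q m (N - J) =
      B_TSum_p q m N J * (br q (N + J + 1) * br q (N - J + m + 1)) := by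
  unfold B_TSum_S B_TSum_p
  rw [Finset.prod_range_succ', Finset.prod_range_succ, Finset.prod_mul_distrib]
  have e : ∏ i ∈ Finset.range m, br q (N + J + ((i + 1 : ℕ) : ℤ) + 1) =
      ∏ i ∈ Finset.range m, br q (N + J + i + 2) := by
    refine Finset.prod_congr rfl fun i _ => ?_
    congr 1
    push_cast
    ring
  have e2 : N + J + ((0 : ℕ) : ℤ) + 1 = N + J + 1 := by push_cast; ring
  rw [e, e2]
  ring

private theorem B_TSum_zero_sum {q : ℂ} (hq : q ≠ 0) (m N : ℕ) :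
    br q ((m : ℤ) + 1) * ∑ j ∈ Finset.range (N + 1), br q (2 * (j : ℤ) + 1) * B_TSum_p q m N j =
      B_TSum_S q m N ^ 2 := by
  have hs := Finset.sum_range_sub' (fun j : ℕ =>
    B_TSum_S q m ((N : ℤ) + j) * B_TSum_S q m ((N : ℤ) - j)) (N + 1)
  have h0 : B_TSum_S q m ((N : ℤ) - ((N + 1 : ℕ) : ℤ)) = 0 := by
    unfold B_TSum_S
    apply Finset.prod_eq_zero (Finset.mem_range.mpr (Nat.succ_pos m))
    have e : (N : ℤ) - ((N + 1 : ℕ) : ℤ) + ((0 : ℕ) : ℤ) + 1 = 0 := by push_cast; ring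
    rw [e, B_TSum_zero]
  rw [h0] at hs
  simp only [Nat.cast_zero, add_zero, sub_zero, mul_zero] at hs
  rw [pow_two, ← hs, Finset.mul_sum]
  refine Finset.sum_congr rfl fun j _ => ?_
  rw [B_TSum_S_split, B_TSum_S_split]
  have e0 : ((j + 1 : ℕ) : ℤ) = (j : ℤ) + 1 := by push_cast; ring
  have e1 : (N : ℤ) + ((j : ℤ) + 1) + 1 = N + j + 2 := by ring
  have e2 : (N : ℤ) - ((j : ℤ) + 1) + m + 1 = N - j + m := by ring
  rw [e0, e1, e2, B_TSum_p_shift]
  have h3 := B_TSum_alg2 hq (N : ℤ) j ((m : ℤ) + 2)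
  have e3 : (N : ℤ) + j + ((m : ℤ) + 2) = N + j + m + 2 := by ring
  have e4 : (N : ℤ) - j + ((m : ℤ) + 2) - 1 = N - j + m + 1 := by ring
  have e5 : (m : ℤ) + 2 - 1 = m + 1 := by ring
  rw [e3, e4, e5] at h3
  linear_combination (-(B_TSum_p q m N j)) * h3

theorem t_sum {n N : ℕ} (hn : 2 ≤ n) {q : ℂ} (hq : q ≠ 0) (k : ℕ)
    (H : ∀ i : ℕ, 1 ≤ i → i ≤ 2 * N + n + k → br q i ≠ 0) :
    ∑ j ∈ Finset.range (N + 1), dimT n N q j * LE q k j = dimS n N q ^ 2 *
      ∏ i ∈ Finset.range k, (br q ((N : ℤ) - i) * br q ((N : ℤ) + n + i) /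
        (br q ((i : ℤ) + 1) * br q ((n : ℤ) + i))) := by
  obtain ⟨m, rfl⟩ : ∃ m, n = m + 2 := ⟨n - 2, by omega⟩
  have hn1 : m + 2 - 1 = m + 1 := by omega
  have hn2 : m + 2 - 2 = m := by omega
  have hcast : ((m + 2 : ℕ) : ℤ) = (m : ℤ) + 2 := by push_cast; ring
  have HH : ∀ i : ℕ, i + 1 ≤ 2 * N + (m + 2) + k → br q ((i : ℤ) + 1) ≠ 0 := by
    intro i hi
    have := H (i + 1) (by omega) hi
    push_cast at this
    exact this
  -- the denominators
  have hD1 : (∏ i ∈ Finset.range (m + 1), br q ((i : ℤ) + 1)) ≠ 0 := by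
    apply Finset.prod_ne_zero_iff.mpr
    intro i hi
    have := Finset.mem_range.mp hi
    exact HH i (by omega)
  have hD2 : (∏ i ∈ Finset.range m, br q ((i : ℤ) + 1)) ≠ 0 := by
    apply Finset.prod_ne_zero_iff.mpr
    intro i hi
    have := Finset.mem_range.mp hi
    exact HH i (by omega)
  have hDD : (∏ i ∈ Finset.range (m + 1), br q ((i : ℤ) + 1)) =
      (∏ i ∈ Finset.range m, br q ((i : ℤ) + 1)) * br q ((m : ℤ) + 1) :=
    Finset.prod_range_succ _ _
  -- the sum with the product form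
  have key : ∀ k' ≤ k, ∑ j ∈ Finset.range (N + 1), dimT (m + 2) N q j * B_TSum_L q k' j =
      dimS (m + 2) N q ^ 2 *
      ∏ i ∈ Finset.range k', (br q ((N : ℤ) - i) * br q ((N : ℤ) + ((m + 2 : ℕ) : ℤ) + i) /
        (br q ((i : ℤ) + 1) * br q (((m + 2 : ℕ) : ℤ) + i))) := by
    intro k' hk'
    have hT : ∀ k'', ∑ j ∈ Finset.range (N + 1), dimT (m + 2) N q j * B_TSum_L q k'' j =
        (∑ j ∈ Finset.range (N + 1), br q (2 * (j : ℤ) + 1) * B_TSum_p q m N j *
          B_TSum_L q k'' j) / ((∏ i ∈ Finset.range (m + 1), br q ((i : ℤ) + 1)) *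
            ∏ i ∈ Finset.range m, br q ((i : ℤ) + 1)) := by
      intro k''
      rw [Finset.sum_div]
      refine Finset.sum_congr rfl fun j _ => ?_
      unfold dimT B_TSum_p
      rw [hn1, hn2]
      ring
    rw [hT]
    induction k' with
    | zero =>
      have hz := B_TSum_zero_sum hq m N
      have hd := B_TSum_dimS m N (q := q) (fun i h1 h2 => H i h1 (by omega))
      have hL : ∀ j : ℤ, B_TSum_L q 0 j = 1 := fun j => by simp [B_TSum_L]
      simp only [hL, mul_one, Finset.range_zero, Finset.prod_empty]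
      rw [div_eq_iff (mul_ne_zero hD1 hD2)]
      have hm1 : br q ((m : ℤ) + 1) ≠ 0 := HH m (by omega)
      apply mul_left_cancel₀ hm1
      rw [hz, ← hd, hDD]
      ring
    | succ k' ih =>
      have ih' := ih (by omega)
      have hk1 : br q ((k' : ℤ) + 1) ≠ 0 := HH k' (by omega)
      have hk2 : br q (((m : ℤ) + 2) + k') ≠ 0 := by
        have := H (m + 2 + k') (by omega) (by omega)
        push_cast at this
        exact this
      rw [B_TSum_rec hq m N k' hk1 hk2, mul_div_assoc, ih', Finset.prod_range_succ, hcast]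
      ring
  rcases Nat.lt_or_ge N k with hNk | hNk
  · rw [Finset.sum_eq_zero, Finset.prod_eq_zero (Finset.mem_range.mpr hNk), mul_zero]
    · rw [sub_self, B_TSum_zero, zero_mul, zero_div]
    · intro j hj
      have := Finset.mem_range.mp hj
      rw [LE_lt (by omega), mul_zero]
  · rw [← key k le_rfl]
    refine Finset.sum_congr rfl fun j hj => ?_
    have hj' := Finset.mem_range.mp hj
    rw [LE_prod hq (fun i h1 h2 => H i h1 (by omega)) hNk (by omega)]
    rfl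

end Pool.Agent.S4
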